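import Pool.Agent.MP_05b6ce_an.Main

set_option autoImplicit false

namespace Pool.Agent.MP_05b6ce_an.Sh

open scoped InnerProductSpace
open Finset Filter Topology MeasureTheory

theorem div_Blk (w : ℕ → ℝ) (hw0 : ∀ k, 0 ≤ w k) (hw1 : Antitone w)
    (hw2 : ¬ Summable fun k => w k ^ 2) (L : ℕ) (hL : 0 < L) (η : ℝ) (hη : 0 < η) :
    ¬ Summable fun k => min (w (L * (2 * k + 1))) η ^ 2 := by
  intro h
  have hc : 0 < w 0 + η := by have := hw0 0; linarith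
  have hu : Summable fun k => w (L * (2 * k + 1)) ^ 2 := by
    refine Summable.of_nonneg_of_le (fun k => sq_nonneg _) (fun k => ?_)
      (h.mul_left (((w 0 + η) / η) ^ 2))
    rw [← mul_pow]
    refine pow_le_pow_left₀ (hw0 _) ?_ 2
    have h1 := hw0 (L * (2 * k + 1))
    have h2 : w (L * (2 * k + 1)) ≤ w 0 := hw1 (Nat.zero_le _)
    rw [div_mul_eq_mul_div, le_div_iff₀ hη]
    rcases min_cases (w (L * (2 * k + 1))) η with ⟨e, -⟩ | ⟨e, -⟩ <;> rw [e] <;>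
      nlinarith [hw0 0]
  have key : ∀ K, ∑ t ∈ range (2 * L * (K + 1)), w t ^ 2 ≤
      2 * L * w 0 ^ 2 + 2 * L * ∑ k ∈ range K, w (L * (2 * k + 1)) ^ 2 := fun K => by
    induction K with
    | zero =>
      have := Finset.sum_le_card_nsmul (range (2 * L * (0 + 1))) (fun t => w t ^ 2) (w 0 ^ 2)
        fun t _ => pow_le_pow_left₀ (hw0 t) (hw1 (Nat.zero_le t)) 2
      simpa using this
    | succ K ih =>
      have := Finset.sum_le_card_nsmul (range (2 * L)) (fun t => w (2 * L * (K + 1) + t) ^ 2)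
        (w (L * (2 * K + 1)) ^ 2) fun t _ => pow_le_pow_left₀ (hw0 _) (hw1 (by nlinarith)) 2
      rw [show 2 * L * (K + 1 + 1) = 2 * L * (K + 1) + 2 * L by ring, Finset.sum_range_add,
        Finset.sum_range_succ]
      simp only [card_range, nsmul_eq_mul, Nat.cast_mul, Nat.cast_ofNat] at this
      linarith
  refine hw2 (summable_of_sum_range_le (c := 2 * L * w 0 ^ 2 +
    2 * L * ∑' k, w (L * (2 * k + 1)) ^ 2) (fun k => sq_nonneg _) fun n => ?_)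
  have h1 : ∑ t ∈ range n, w t ^ 2 ≤ ∑ t ∈ range (2 * L * (n + 1)), w t ^ 2 :=
    Finset.sum_le_sum_of_subset_of_nonneg (Finset.range_mono (by nlinarith))
      fun _ _ _ => sq_nonneg _
  have h2 := hu.sum_le_tsum (range n) fun _ _ => sq_nonneg _
  have h3 : (0 : ℝ) ≤ 2 * L := by positivity
  have h4 := mul_le_mul_of_nonneg_left h2 h3
  linarith [key n]

theorem exists_block (w : ℕ → ℝ) (hw0 : ∀ k, 0 ≤ w k) (hw1 : Antitone w)
    (hw2 : ¬ Summable fun k => w k ^ 2) (L : ℕ) (hL : 0 < L) (η : ℝ) (hη : 0 < η)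
    (M : ℝ) (hM : 0 < M) :
    ∃ (N : ℕ) (q : ℕ → ℝ), Antitone q ∧ (∀ k, 0 ≤ q k) ∧ q 0 ≤ η ∧
      (∀ k, q k ≤ w (L * (k + 1))) ∧ ∑ k ∈ range N, q k ^ 2 = M ∧
      ∀ (ρ : ℕ → ℝ) (B : ℝ), 0 ≤ B →
        (∀ n : ℕ, 0 ≤ ((n : ℝ) + 1) * B + 2 * ∑ k ∈ range n, ((n - k : ℕ) : ℝ) * ρ k) →
        -(η * B) ≤ ∑ k ∈ range N, q k * ρ k := by
  obtain ⟨K, hK⟩ := (((not_summable_iff_tendsto_nat_atTop_of_nonneg fun k => sq_nonneg _).1
    (div_Blk w hw0 hw1 hw2 L hL η hη)).eventually_ge_atTop (4 * M)).exists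
  obtain ⟨N, hN⟩ : ∃ N, N = 2 * K + 1 := ⟨_, rfl⟩
  obtain ⟨v, hv⟩ : ∃ v : ℕ → ℝ, ∀ k, v k = if k < N then min (w (L * k)) η else 0 :=
    ⟨_, fun _ => rfl⟩
  have v0 : ∀ k, 0 ≤ v k := fun k => by
    rw [hv]; split_ifs
    exacts [le_min (hw0 _) hη.le, le_rfl]
  have v1 : ∀ k, v k ≤ min (w (L * k)) η := fun k => by
    rw [hv]; split_ifs
    exacts [le_rfl, le_min (hw0 _) hη.le]
  have al : ∀ n, 0 ≤ v n - v (n + 1) := fun n => by
    rw [sub_nonneg]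
    by_cases h : n + 1 < N
    · rw [hv, hv, if_pos h, if_pos (by omega)]
      exact min_le_min_right _ (hw1 (Nat.mul_le_mul_left _ (Nat.le_succ n)))
    · rw [hv (n + 1), if_neg h]
      exact v0 n
  have tele : ∀ m, ∑ n ∈ range N, (if m ≤ n then v n - v (n + 1) else 0) = v m := fun m => by
    have := Finset.sum_range_sub' (fun n => v (max n m)) N
    rw [hv (max N m), if_neg (by omega), sub_zero, Nat.zero_max] at this
    rw [← this]
    refine Finset.sum_congr rfl fun n _ => ?_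
    split_ifs with h
    · rw [max_eq_left h, max_eq_left (by omega)]
    · rw [max_eq_right (by omega), max_eq_right (by omega), sub_self]
  obtain ⟨g, hg⟩ : ∃ g : ℕ → ℝ, ∀ k, g k =
      ∑ n ∈ range N, (v n - v (n + 1)) / (n + 1) * ((n - k : ℕ) : ℝ) := ⟨_, fun _ => rfl⟩
  have c0 : ∀ n : ℕ, 0 ≤ (v n - v (n + 1)) / (n + 1) := fun n => div_nonneg (al n) (by positivity)
  have g0 : ∀ k, 0 ≤ g k := fun k => by
    rw [hg]; exact Finset.sum_nonneg fun n _ => mul_nonneg (c0 n) (Nat.cast_nonneg _)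
  have g1 : Antitone g := fun a b h => by
    rw [hg, hg]
    exact Finset.sum_le_sum fun n _ => mul_le_mul_of_nonneg_left (Nat.cast_le.2 (by omega)) (c0 n)
  have g2 : ∀ k, g k ≤ v (k + 1) := fun k => by
    rw [hg, ← tele]
    refine Finset.sum_le_sum fun n _ => ?_
    split_ifs with h
    · rw [div_mul_eq_mul_div, div_le_iff₀ (by positivity)]
      exact mul_le_mul_of_nonneg_left (by exact_mod_cast (by omega : n - k ≤ n + 1)) (al n)
    · rw [show n - k = 0 by omega]; simp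
  have g3 : ∀ k, v (2 * k + 1) ≤ 2 * g k := fun k => by
    rw [hg, ← tele, Finset.mul_sum]
    refine Finset.sum_le_sum fun n _ => ?_
    split_ifs with h
    · rw [div_mul_eq_mul_div, ← mul_div_assoc, le_div_iff₀ (by positivity)]
      have : (n : ℝ) + 1 ≤ 2 * ((n - k : ℕ) : ℝ) := by
        exact_mod_cast (by omega : n + 1 ≤ 2 * (n - k))
      nlinarith [al n]
    · exact mul_nonneg zero_le_two (mul_nonneg (c0 n) (Nat.cast_nonneg _))
  have hS : M ≤ ∑ k ∈ range N, g k ^ 2 := by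
    have h1 : ∑ k ∈ range K, min (w (L * (2 * k + 1))) η ^ 2 ≤ ∑ k ∈ range K, 4 * g k ^ 2 :=
      Finset.sum_le_sum fun k hk => by
        have h2 := g3 k
        have h3 := v0 (2 * k + 1)
        rw [hv, if_pos (by have := Finset.mem_range.1 hk; omega)] at h2 h3
        nlinarith
    have h2 : ∑ k ∈ range K, g k ^ 2 ≤ ∑ k ∈ range N, g k ^ 2 :=
      Finset.sum_le_sum_of_subset_of_nonneg (Finset.range_mono (by omega))
        fun _ _ _ => sq_nonneg _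
    rw [← Finset.mul_sum] at h1
    linarith
  have hS0 := hM.trans_le hS
  obtain ⟨s, s0, s1, s2⟩ : ∃ s : ℝ, 0 ≤ s ∧ s ≤ 1 ∧ s ^ 2 * ∑ k ∈ range N, g k ^ 2 = M :=
    ⟨√(M / ∑ k ∈ range N, g k ^ 2), Real.sqrt_nonneg _,
      Real.sqrt_le_one.2 ((div_le_one hS0).2 hS), by
        rw [Real.sq_sqrt (by positivity), div_mul_cancel₀ _ hS0.ne']⟩
  have q1 : ∀ k, s * g k ≤ min (w (L * (k + 1))) η := fun k =>
    (mul_le_of_le_one_left (g0 k) s1).trans ((g2 k).trans (v1 _))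
  refine ⟨N, fun k => s * g k, fun a b h => mul_le_mul_of_nonneg_left (g1 h) s0,
    fun k => mul_nonneg s0 (g0 k), (q1 0).trans (min_le_right _ _),
    fun k => (q1 k).trans (min_le_left _ _), ?_, fun ρ B hB h => ?_⟩
  · simp only [mul_pow]
    rw [← Finset.mul_sum, s2]
  have e : ∑ k ∈ range N, g k * ρ k = ∑ n ∈ range N,
      (v n - v (n + 1)) / (n + 1) * ∑ k ∈ range n, ((n - k : ℕ) : ℝ) * ρ k := by
    simp only [hg, Finset.sum_mul]
    rw [Finset.sum_comm]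
    refine Finset.sum_congr rfl fun n hn => ?_
    rw [Finset.mul_sum, ← Finset.sum_subset (Finset.range_mono (Finset.mem_range.1 hn).le)
      fun k _ hk => by rw [show n - k = 0 by have := Finset.mem_range.not.1 hk; omega]; simp]
    exact Finset.sum_congr rfl fun k _ => mul_assoc _ _ _
  have h1 : ∑ n ∈ range N, -(B / 2) * (v n - v (n + 1)) ≤ ∑ k ∈ range N, g k * ρ k := by
    rw [e]
    refine Finset.sum_le_sum fun n _ => ?_
    have h2 := mul_nonneg (c0 n) (h n)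
    have h3 : (v n - v (n + 1)) / (n + 1) * (((n : ℝ) + 1) * B) = (v n - v (n + 1)) * B := by
      field_simp
    rw [mul_add, h3] at h2
    linarith
  have h2 := tele 0
  simp only [Nat.zero_le, if_true] at h2
  rw [← Finset.mul_sum, h2] at h1
  have h3 : v 0 ≤ η := (v1 0).trans (min_le_right _ _)
  have h4 : -(η * B) ≤ ∑ k ∈ range N, g k * ρ k := by nlinarith [v0 0]
  simp only [mul_assoc]
  rw [← Finset.mul_sum]
  have h5 := mul_le_mul_of_nonneg_left h4 s0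
  nlinarith [mul_nonneg hη.le hB]

theorem fejer_op {E : Type*} [NormedAddCommGroup E] [InnerProductSpace ℂ E] (U : E →L[ℂ] E)
    (hU : ∀ x, ‖U x‖ ≤ ‖x‖) (x : E) (n : ℕ) :
    0 ≤ ((n : ℝ) + 1) * ‖x‖ ^ 2 +
      2 * ∑ k ∈ range n, ((n - k : ℕ) : ℝ) * (⟪x, (U ^ (k + 1)) x⟫_ℂ).re := by
  refine (sq_nonneg ‖∑ k ∈ range (n + 1), (U ^ k) x‖).trans ?_
  induction n with
  | zero => simp
  | succ n ih =>
    have e : ∑ k ∈ range (n + 1), (U ^ (k + 1)) x = U (∑ k ∈ range (n + 1), (U ^ k) x) := by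
      rw [map_sum]
      exact Finset.sum_congr rfl fun k _ => by rw [pow_succ']; rfl
    have h1 : (⟪x, U (∑ k ∈ range (n + 1), (U ^ k) x)⟫_ℂ).re =
        ∑ k ∈ range (n + 1), (⟪x, (U ^ (k + 1)) x⟫_ℂ).re := by
      rw [← e, inner_sum, Complex.re_sum]
    have h2 : ∑ k ∈ range (n + 1), ((n + 1 - k : ℕ) : ℝ) * (⟪x, (U ^ (k + 1)) x⟫_ℂ).re =
        ∑ k ∈ range n, ((n - k : ℕ) : ℝ) * (⟪x, (U ^ (k + 1)) x⟫_ℂ).re +
          ∑ k ∈ range (n + 1), (⟪x, (U ^ (k + 1)) x⟫_ℂ).re := by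
      rw [Finset.sum_range_succ, Finset.sum_range_succ, ← add_assoc, ← Finset.sum_add_distrib,
        show n + 1 - n = 1 by omega, Nat.cast_one, one_mul]
      congr 1
      refine Finset.sum_congr rfl fun k hk => ?_
      rw [show n + 1 - k = n - k + 1 by have := Finset.mem_range.1 hk; omega]
      push_cast
      ring
    have h3 := pow_le_pow_left₀ (norm_nonneg _) (hU (∑ k ∈ range (n + 1), (U ^ k) x)) 2
    have h4 := norm_add_sq (𝕜 := ℂ) x (U (∑ k ∈ range (n + 1), (U ^ k) x))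
    rw [Finset.sum_range_succ', e, h2, add_comm, pow_zero, one_apply_eq_self, h4]
    rw [RCLike.re_to_complex, h1, Nat.cast_succ]
    linarith

theorem fejer_sc (u : ℂ) (hu : ‖u‖ ≤ 1) (n : ℕ) :
    0 ≤ ((n : ℝ) + 1) * 1 + 2 * ∑ k ∈ range n, ((n - k : ℕ) : ℝ) * (u ^ (k + 1)).re := by
  have := fejer_op (E := ℂ) (u • ContinuousLinearMap.id ℂ ℂ) (fun x => by
    simpa using mul_le_of_le_one_left (norm_nonneg x) hu) 1 n
  simpa [smul_pow, ← ContinuousLinearMap.one_def] using this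

theorem abel_aux_Orl {E : Type*} [NormedAddCommGroup E] [NormedSpace ℂ E] (q : ℕ → ℝ)
    (hq : Antitone q) (x : ℕ → E) (B : ℝ) (hx : ∀ k, ‖x k‖ ≤ B) (N : ℕ) :
    ‖∑ k ∈ range N, (q k : ℂ) • (x k - x (k + 1)) - (q 0 : ℂ) • x 0 + (q N : ℂ) • x N‖ ≤
      (q 0 - q N) * B := by
  induction N with
  | zero => simp
  | succ N ih =>
    have e : ∑ k ∈ range (N + 1), (q k : ℂ) • (x k - x (k + 1)) - (q 0 : ℂ) • x 0 +
        (q (N + 1) : ℂ) • x (N + 1) =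
        (∑ k ∈ range N, (q k : ℂ) • (x k - x (k + 1)) - (q 0 : ℂ) • x 0 + (q N : ℂ) • x N) -
          ((q N - q (N + 1) : ℝ) : ℂ) • x (N + 1) := by
      rw [sum_range_succ, smul_sub, Complex.ofReal_sub, sub_smul]
      abel
    have h1 : 0 ≤ q N - q (N + 1) := sub_nonneg.2 (hq (Nat.le_succ N))
    have h2 : ‖((q N - q (N + 1) : ℝ) : ℂ) • x (N + 1)‖ ≤ (q N - q (N + 1)) * B := by
      rw [norm_smul, Complex.norm_real, Real.norm_of_nonneg h1]
      exact mul_le_mul_of_nonneg_left (hx _) h1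
    rw [e]
    refine (norm_sub_le _ _).trans ?_
    linarith

theorem abel_bound {E : Type*} [NormedAddCommGroup E] [NormedSpace ℂ E] (q : ℕ → ℝ)
    (hq : Antitone q) (hq0 : ∀ k, 0 ≤ q k) (x : ℕ → E) (B : ℝ) (hx : ∀ k, ‖x k‖ ≤ B) (N : ℕ) :
    ‖∑ k ∈ range N, (q k : ℂ) • (x k - x (k + 1))‖ ≤ 2 * q 0 * B := by
  have h1 := abel_aux_Orl q hq x B hx N
  have h2 : ∀ k, ‖(q k : ℂ) • x k‖ ≤ q k * B := fun k => by
    rw [norm_smul, Complex.norm_real, Real.norm_of_nonneg (hq0 k)]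
    exact mul_le_mul_of_nonneg_left (hx _) (hq0 k)
  have e : ∑ k ∈ range N, (q k : ℂ) • (x k - x (k + 1)) =
      (∑ k ∈ range N, (q k : ℂ) • (x k - x (k + 1)) - (q 0 : ℂ) • x 0 + (q N : ℂ) • x N) +
        (q 0 : ℂ) • x 0 - (q N : ℂ) • x N := by abel
  rw [e]
  have h3 := norm_sub_le ((∑ k ∈ range N, (q k : ℂ) • (x k - x (k + 1)) - (q 0 : ℂ) • x 0 +
    (q N : ℂ) • x N) + (q 0 : ℂ) • x 0) ((q N : ℂ) • x N)
  have h4 := norm_add_le (∑ k ∈ range N, (q k : ℂ) • (x k - x (k + 1)) - (q 0 : ℂ) • x 0 +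
    (q N : ℂ) • x N) ((q 0 : ℂ) • x 0)
  linarith [h2 0, h2 N]

theorem int_exp_Orl (m : ℤ) :
    ∫ θ in (0 : ℝ)..(2 * Real.pi), Complex.exp ((m : ℂ) * Complex.I * θ) =
      if m = 0 then ((2 * Real.pi : ℝ) : ℂ) else 0 := by
  split_ifs with h
  · simp [h]
  · have hm : (m : ℂ) * Complex.I ≠ 0 := mul_ne_zero (Int.cast_ne_zero.2 h) Complex.I_ne_zero
    rw [integral_exp_mul_complex hm]
    have e : (m : ℂ) * Complex.I * ((2 * Real.pi : ℝ) : ℂ) = m * (2 * Real.pi * Complex.I) := by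
      push_cast
      ring
    rw [e, Complex.exp_int_mul_two_pi_mul_I]
    simp

theorem parseval_Orl (s : Finset ℕ) (c : ℕ → ℝ) (e : ℕ → ℕ) (he : Function.Injective e) (r : ℝ)
    (h0 : 0 ≤ r) (h1 : r ≤ 1) :
    ∫ θ in (0 : ℝ)..(2 * Real.pi),
      ‖∑ k ∈ s, (c k : ℂ) * (r * Complex.exp (θ * Complex.I)) ^ e k‖ ^ 2 ≤
        2 * Real.pi * ∑ k ∈ s, c k ^ 2 := by
  have key : ∀ θ : ℝ, ((‖∑ k ∈ s, (c k : ℂ) * (r * Complex.exp (θ * Complex.I)) ^ e k‖ ^ 2 : ℝ) : ℂ)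
      = ∑ k ∈ s, ∑ l ∈ s, ((c k * c l * r ^ (e k + e l) : ℝ) : ℂ) *
        Complex.exp ((((e k : ℤ) - e l : ℤ) : ℂ) * Complex.I * θ) := by
    intro θ
    rw [Complex.ofReal_pow, ← Complex.mul_conj', map_sum, sum_mul_sum]
    refine sum_congr rfl fun k _ => sum_congr rfl fun l _ => ?_
    rw [map_mul, map_pow, map_mul, Complex.conj_ofReal, Complex.conj_ofReal, ← Complex.exp_conj,
      map_mul, Complex.conj_ofReal, Complex.conj_I, mul_pow, mul_pow, ← Complex.exp_nat_mul,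
      ← Complex.exp_nat_mul]
    have : Complex.exp ((((e k : ℤ) - e l : ℤ) : ℂ) * Complex.I * θ) =
        Complex.exp (e k * (θ * Complex.I)) * Complex.exp (e l * (θ * -Complex.I)) := by
      rw [← Complex.exp_add]
      congr 1
      push_cast
      ring
    rw [this]
    push_cast
    ring
  have h2 : ((∫ θ in (0 : ℝ)..(2 * Real.pi),
      ‖∑ k ∈ s, (c k : ℂ) * (r * Complex.exp (θ * Complex.I)) ^ e k‖ ^ 2 : ℝ) : ℂ) =
      ((∑ k ∈ s, c k * c k * r ^ (e k + e k) * (2 * Real.pi) : ℝ) : ℂ) := by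
    rw [← intervalIntegral.integral_ofReal]
    simp only [key]
    rw [intervalIntegral.integral_finsetSum fun k _ => Continuous.intervalIntegrable
      (by fun_prop) _ _, Complex.ofReal_sum]
    refine sum_congr rfl fun k hk => ?_
    rw [intervalIntegral.integral_finsetSum fun l _ => Continuous.intervalIntegrable
      (by fun_prop) _ _, sum_eq_single k]
    · rw [intervalIntegral.integral_const_mul, int_exp_Orl, if_pos (sub_self _)]
      push_cast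
      ring
    · intro l _ hl
      rw [intervalIntegral.integral_const_mul, int_exp_Orl, if_neg, mul_zero]
      exact sub_ne_zero.2 fun h => hl (he (Nat.cast_injective h)).symm
    · exact fun h => absurd hk h
  rw [Complex.ofReal_injective h2, mul_sum]
  refine sum_le_sum fun k _ => ?_
  have h3 : r ^ (e k + e k) ≤ 1 := pow_le_one₀ h0 h1
  have h4 := mul_le_mul_of_nonneg_left h3 (mul_self_nonneg (c k))
  nlinarith [Real.pi_pos]

theorem pow_sub_Orl {u : ℂ} (hu : ‖u‖ ≤ 1) (k : ℕ) : ‖u ^ k - 1‖ ≤ k * ‖1 - u‖ := by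
  induction k with
  | zero => simp
  | succ k ih =>
    have e : u ^ (k + 1) - 1 = u * (u ^ k - 1) - (1 - u) := by ring
    have h1 := norm_sub_le (u * (u ^ k - 1)) (1 - u)
    have h2 := mul_le_mul_of_nonneg_right hu (norm_nonneg (u ^ k - 1))
    rw [e]
    rw [norm_mul] at h1
    push_cast
    linarith

theorem orlicz_block (Φ : ℝ → ℝ) (hΦ : ∀ ε > 0, ∃ C, ∀ t ≥ 0, Φ t ≤ ε * t ^ 2 + C)
    (L : ℕ) (hL : 0 < L) (M D δ : ℝ) (hM : 0 < M) (hD : 0 ≤ D) (hδ : 0 < δ) :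
    ∃ η > 0, ∀ (N : ℕ) (q : ℕ → ℝ), Antitone q → (∀ k, 0 ≤ q k) → q 0 ≤ η →
      ∑ k ∈ range N, q k ^ 2 ≤ M →
      ∃ h : ℂ → ℝ, Continuous h ∧ (∀ z, 0 ≤ h z) ∧
        (∀ r : ℝ, 0 ≤ r → r ≤ 1 →
          ∫ θ in (0 : ℝ)..(2 * Real.pi), h (r * Complex.exp (θ * Complex.I)) ≤ δ) ∧
        ∀ z : ℂ, ‖z‖ ≤ 1 → δ < ‖∑ k ∈ range N, (q k : ℂ) * z ^ (L * (k + 1))‖ →
          ∀ y : ℝ, 0 ≤ y → y ≤ D + ‖∑ k ∈ range N, (q k : ℂ) * z ^ (L * (k + 1))‖ →
            Φ y ≤ h z := by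
  have hπ := Real.pi_pos
  obtain ⟨ε, hε, hεe⟩ : ∃ ε : ℝ, 0 < ε ∧ 8 * Real.pi * M * ε = δ :=
    ⟨δ / (8 * Real.pi * M), by positivity, by field_simp⟩
  obtain ⟨C, hC⟩ := hΦ ε hε
  obtain ⟨a, ha0, ha⟩ : ∃ a : ℝ, 0 ≤ a ∧ 2 * ε * D ^ 2 + C ≤ a :=
    ⟨2 * ε * D ^ 2 + |C|, by positivity, by linarith [le_abs_self C]⟩
  obtain ⟨n, hn0, hn⟩ : ∃ n : ℕ, (0 : ℝ) < n ∧ 16 * Real.pi * a ≤ δ * n := by
    obtain ⟨n, hn⟩ := exists_nat_gt (16 * Real.pi * a / δ)
    refine ⟨n, lt_of_le_of_lt (by positivity) hn, ?_⟩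
    rw [div_lt_iff₀ hδ] at hn
    linarith
  refine ⟨δ / (4 * n), by positivity, fun N q hq hq0 hη hS => ?_⟩
  refine ⟨fun z => a * 4 / n ^ 2 * ‖∑ k ∈ range n, ((1 : ℝ) : ℂ) * z ^ (L * k)‖ ^ 2 +
    2 * ε * ‖∑ k ∈ range N, (q k : ℂ) * z ^ (L * (k + 1))‖ ^ 2, by fun_prop,
    fun z => by positivity, fun r h0 h1 => ?_, fun z hz hQ y hy0 hy => ?_⟩
  · have p1 := parseval_Orl (range n) (fun _ => 1) (fun k => L * k)
      (fun _ _ h => Nat.eq_of_mul_eq_mul_left hL h) r h0 h1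
    have p2 := parseval_Orl (range N) q (fun k => L * (k + 1))
      (fun _ _ h => Nat.succ_injective (Nat.eq_of_mul_eq_mul_left hL h)) r h0 h1
    rw [intervalIntegral.integral_add (Continuous.intervalIntegrable (by fun_prop) _ _)
      (Continuous.intervalIntegrable (by fun_prop) _ _), intervalIntegral.integral_const_mul,
      intervalIntegral.integral_const_mul]
    simp only [one_pow, sum_const, card_range, nsmul_eq_mul, mul_one] at p1
    have q1 := mul_le_mul_of_nonneg_left p1 (show 0 ≤ a * 4 / n ^ 2 by positivity)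
    have q2 := mul_le_mul_of_nonneg_left (p2.trans
      (mul_le_mul_of_nonneg_left hS (by positivity))) (show 0 ≤ 2 * ε by positivity)
    have q3 : a * 4 / n ^ 2 * (2 * Real.pi * n) ≤ δ / 2 := by
      rw [show a * 4 / n ^ 2 * (2 * Real.pi * n) = 8 * Real.pi * a / n by field_simp; ring,
        div_le_iff₀ hn0]
      linarith
    linarith
  · have hu : ‖z ^ L‖ ≤ 1 := by
      rw [norm_pow]
      exact pow_le_one₀ (norm_nonneg _) hz
    simp only [pow_mul] at hQ hy ⊢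
    generalize z ^ L = u at *
    have b1 := abel_bound q hq hq0 (fun k => u ^ (k + 1)) 1 (fun k => by
      rw [norm_pow]
      exact pow_le_one₀ (norm_nonneg _) hu) N
    have e : ∑ k ∈ range N, (q k : ℂ) • (u ^ (k + 1) - u ^ (k + 1 + 1)) =
        (1 - u) * ∑ k ∈ range N, (q k : ℂ) * u ^ (k + 1) := by
      rw [mul_sum]
      exact sum_congr rfl fun k _ => by rw [smul_eq_mul]; ring
    rw [e, norm_mul] at b1
    generalize ‖∑ k ∈ range N, (q k : ℂ) * u ^ (k + 1)‖ = R at *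
    have b2 : n * ‖1 - u‖ ≤ 1 / 2 := by
      rw [le_div_iff₀ (by positivity)] at hη
      have := mul_le_mul_of_nonneg_left hQ.le (norm_nonneg (1 - u))
      have h5 := mul_le_mul_of_nonneg_left (this.trans b1) hn0.le
      refine le_of_mul_le_mul_right ?_ hδ
      nlinarith
    have b3 : ‖∑ k ∈ range n, (((1 : ℝ) : ℂ) * u ^ k - 1)‖ ≤ n * (1 / 2) := by
      refine (norm_sum_le _ _).trans ?_
      have := sum_le_card_nsmul (range n) (fun k => ‖((1 : ℝ) : ℂ) * u ^ k - 1‖) (1 / 2)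
        fun k hk => by
          rw [Complex.ofReal_one, one_mul]
          refine (pow_sub_Orl hu k).trans (le_trans ?_ b2)
          exact mul_le_mul_of_nonneg_right (Nat.cast_le.2 (mem_range.1 hk).le) (norm_nonneg _)
      rwa [card_range, nsmul_eq_mul] at this
    rw [sum_sub_distrib, sum_const, card_range, nsmul_eq_mul, mul_one] at b3
    have b4 := norm_sub_norm_le (n : ℂ) (∑ k ∈ range n, ((1 : ℝ) : ℂ) * u ^ k)
    rw [norm_sub_rev, Complex.norm_natCast] at b4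
    generalize ‖∑ k ∈ range n, ((1 : ℝ) : ℂ) * u ^ k‖ = T at *
    have b5 : a ≤ a * 4 / n ^ 2 * T ^ 2 := by
      rw [div_mul_eq_mul_div, le_div_iff₀ (by positivity), mul_assoc]
      refine mul_le_mul_of_nonneg_left ?_ ha0
      nlinarith
    have b6 : y ^ 2 ≤ 2 * D ^ 2 + 2 * R ^ 2 := by nlinarith [sq_nonneg (D - R)]
    have b7 := mul_le_mul_of_nonneg_left b6 hε.le
    linarith [hC y hy0]

theorem tail_Sum (q : ℕ → ℂ) (w : ℂ) (m : ℕ) (hq : ∀ i, m ≤ i → ‖q i‖ ≤ (1 / 2) ^ i)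
    (hl : Tendsto (fun j => 1 + ∑ i ∈ range j, q i) atTop (𝓝 w)) :
    ‖w‖ ≤ ‖1 + ∑ i ∈ range m, q i‖ + 2 := by
  have key : ∀ j, m ≤ j → ‖1 + ∑ i ∈ range j, q i‖ ≤
      ‖1 + ∑ i ∈ range m, q i‖ + 2 - 2 * (1 / 2) ^ j := by
    intro j hj
    induction j, hj using Nat.le_induction with
    | base =>
      have : ((1 : ℝ) / 2) ^ m ≤ 1 := pow_le_one₀ (by norm_num) (by norm_num)
      linarith
    | succ j hj ih =>
      rw [sum_range_succ, ← add_assoc, pow_succ]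
      have h1 := norm_add_le (1 + ∑ i ∈ range j, q i) (q j)
      have h2 := hq j hj
      linarith
  refine le_of_tendsto hl.norm (eventually_atTop.2 ⟨m, fun j hj => ?_⟩)
  have h1 := key j hj
  have h2 : (0 : ℝ) ≤ (1 / 2) ^ j := by positivity
  linarith

theorem const_Sum (c : ℝ) (hc : 0 ≤ c) :
    ∫⁻ _ in Set.Ioc (0 : ℝ) (2 * Real.pi), ENNReal.ofReal c = ENNReal.ofReal (c * (2 * Real.pi)) := by
  rw [setLIntegral_const, Real.volume_Ioc, sub_zero, ENNReal.ofReal_mul hc]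

theorem orlicz_sum (Φ : ℝ → ℝ) (hΦ : ∀ ε > 0, ∃ C, ∀ t ≥ 0, Φ t ≤ ε * t ^ 2 + C)
    (F : ℂ → ℂ) (Q : ℕ → ℂ → ℂ) (D : ℕ → ℝ) (h : ℕ → ℂ → ℝ)
    (hc : ∀ j, Continuous (h j)) (h0 : ∀ j z, 0 ≤ h j z)
    (hi : ∀ (j : ℕ) (r : ℝ), 0 ≤ r → r ≤ 1 →
      ∫ θ in (0 : ℝ)..(2 * Real.pi), h j (r * Complex.exp (θ * Complex.I)) ≤ (1 / 2) ^ j)
    (hp : ∀ (j : ℕ) (z : ℂ), ‖z‖ ≤ 1 → (1 / 2) ^ j < ‖Q j z‖ →
      ∀ y : ℝ, 0 ≤ y → y ≤ D j + 2 + ‖Q j z‖ → Φ y ≤ h j z)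
    (hD : ∀ (j : ℕ) (z : ℂ), ‖z‖ < 1 → ‖1 + ∑ i ∈ range j, Q i z‖ ≤ D j)
    (hlim : ∀ z : ℂ, ‖z‖ < 1 →
      Tendsto (fun j => 1 + ∑ i ∈ range j, Q i z) atTop (𝓝 (F z)))
    (hgood : ∀ z : ℂ, ‖z‖ < 1 → ∀ᶠ j in atTop, ‖Q j z‖ ≤ (1 / 2) ^ j) :
    ∃ B : ℝ, ∀ r : ℝ, 0 ≤ r → r < 1 →
      ∫⁻ θ in Set.Ioc (0 : ℝ) (2 * Real.pi),
        ENNReal.ofReal (Φ ‖F (r * Complex.exp (θ * Complex.I))‖) ≤ ENNReal.ofReal B := by
  classical
  obtain ⟨C, hC⟩ := hΦ 1 one_pos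
  have hc0 : (0 : ℝ) ≤ 9 + |C| := by positivity
  have pt : ∀ z : ℂ, ‖z‖ < 1 → ENNReal.ofReal (Φ ‖F z‖) ≤
      ENNReal.ofReal (9 + |C|) + ∑' j, ENNReal.ofReal (h j z) := by
    intro z hz
    have ex : ∃ m, ∀ i, m ≤ i → ‖Q i z‖ ≤ (1 / 2) ^ i := eventually_atTop.1 (hgood z hz)
    have h1 := tail_Sum (fun i => Q i z) (F z) _ (Nat.find_spec ex) (hlim z hz)
    rcases hm : Nat.find ex with _ | j
    · rw [hm] at h1
      simp only [range_zero, sum_empty, add_zero, norm_one] at h1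
      have h2 := hC ‖F z‖ (norm_nonneg _)
      have h3 : ‖F z‖ ^ 2 ≤ 9 := by nlinarith [norm_nonneg (F z)]
      exact le_add_right (ENNReal.ofReal_le_ofReal (by linarith [le_abs_self C]))
    · have h2 : (1 / 2) ^ j < ‖Q j z‖ := by
        by_contra hn
        refine Nat.find_min ex (show j < Nat.find ex by omega) fun i hji => ?_
        rcases hji.eq_or_lt with rfl | hlt
        · exact not_lt.1 hn
        · exact Nat.find_spec ex i (by omega)
      rw [hm, sum_range_succ, ← add_assoc] at h1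
      have h3 := norm_add_le (1 + ∑ i ∈ range j, Q i z) (Q j z)
      have h4 := hp j z hz.le h2 ‖F z‖ (norm_nonneg _) (by linarith [hD j z hz])
      exact le_add_left ((ENNReal.ofReal_le_ofReal h4).trans
        (ENNReal.le_tsum (f := fun j => ENNReal.ofReal (h j z)) j))
  refine ⟨(9 + |C|) * (2 * Real.pi) + 2, fun r hr hr1 => ?_⟩
  have hn : ∀ θ : ℝ, ‖(r : ℂ) * Complex.exp (θ * Complex.I)‖ < 1 := fun θ => by
    rw [norm_mul, Complex.norm_exp_ofReal_mul_I, mul_one, Complex.norm_real, Real.norm_eq_abs,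
      abs_of_nonneg hr]
    exact hr1
  have hcont : ∀ j, Continuous fun θ : ℝ => h j (r * Complex.exp (θ * Complex.I)) := fun j =>
    (hc j).comp (by fun_prop)
  have hj : ∀ j, ∫⁻ θ in Set.Ioc (0 : ℝ) (2 * Real.pi),
      ENNReal.ofReal (h j (r * Complex.exp (θ * Complex.I))) ≤ ENNReal.ofReal ((1 / 2) ^ j) := by
    intro j
    rw [← ofReal_integral_eq_lintegral_ofReal ((hcont j).integrableOn_Icc.mono_set
      Set.Ioc_subset_Icc_self) (Eventually.of_forall fun θ => h0 j _),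
      ← intervalIntegral.integral_of_le (by positivity)]
    exact ENNReal.ofReal_le_ofReal (hi j r hr hr1.le)
  refine (lintegral_mono fun θ => pt _ (hn θ)).trans ?_
  rw [lintegral_add_left measurable_const, const_Sum _ hc0,
    lintegral_tsum fun j => (hcont j).measurable.ennreal_ofReal.aemeasurable,
    ENNReal.ofReal_add (by positivity) (by norm_num)]
  refine add_le_add le_rfl ((ENNReal.tsum_le_tsum hj).trans ?_)
  rw [← ENNReal.ofReal_tsum_of_nonneg (fun j => by positivity) summable_geometric_two,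
    tsum_geometric_two]

theorem pow_Sum (p : ℝ) (hp : 0 < p) (hp2 : p < 2) : ∃ c : ℝ, 0 ≤ c ∧ ∀ t : ℝ, 0 ≤ t →
    t ^ p ≤ 1 + c * (t ^ 2 / (1 + Real.log (1 + t))) := by
  have hs : 0 < 2 - p := by linarith
  refine ⟨1 + 2 ^ (2 - p) / (2 - p), by positivity, fun t ht => ?_⟩
  have hl : 0 < 1 + Real.log (1 + t) := by
    have := Real.log_nonneg (show (1 : ℝ) ≤ 1 + t by linarith)
    linarith
  rcases le_total t 1 with h1 | h1
  · have := Real.rpow_le_one ht h1 hp.le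
    have h2 : 0 ≤ (1 + 2 ^ (2 - p) / (2 - p)) * (t ^ 2 / (1 + Real.log (1 + t))) := by positivity
    linarith
  · have t0 : 0 < t := by linarith
    have a1 : 1 ≤ t ^ (2 - p) := Real.one_le_rpow h1 hs.le
    have a2 : Real.log (1 + t) ≤ (1 + t) ^ (2 - p) / (2 - p) :=
      Real.log_le_rpow_div (by linarith) hs
    have a3 : (1 + t) ^ (2 - p) ≤ 2 ^ (2 - p) * t ^ (2 - p) := by
      rw [← Real.mul_rpow (by norm_num) ht]
      exact Real.rpow_le_rpow (by linarith) (by linarith) hs.le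
    have a4 : 1 + Real.log (1 + t) ≤ (1 + 2 ^ (2 - p) / (2 - p)) * t ^ (2 - p) := by
      have := div_le_div_of_nonneg_right a3 hs.le
      have e : (1 + 2 ^ (2 - p) / (2 - p)) * t ^ (2 - p) =
          t ^ (2 - p) + 2 ^ (2 - p) * t ^ (2 - p) / (2 - p) := by ring
      rw [e]
      linarith
    have a5 : t ^ p * t ^ (2 - p) = t ^ 2 := by
      rw [← Real.rpow_add t0, add_sub_cancel, Real.rpow_two]
    have a6 : t ^ p ≤ (1 + 2 ^ (2 - p) / (2 - p)) * (t ^ 2 / (1 + Real.log (1 + t))) := by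
      rw [← mul_div_assoc, le_div_iff₀ hl, ← a5]
      have := mul_le_mul_of_nonneg_left a4 (Real.rpow_nonneg ht p)
      linarith
    linarith

theorem hp_of_orlicz (Φ : ℝ → ℝ) (hΦ : ∀ ε > 0, ∃ C, ∀ t ≥ 0, Φ t ≤ ε * t ^ 2 + C) :
    ∃ Ψ : ℝ → ℝ, (∀ ε > 0, ∃ C, ∀ t ≥ 0, Ψ t ≤ ε * t ^ 2 + C) ∧
      ∀ G : ℝ → ℝ → ℝ, (∀ r θ, 0 ≤ G r θ) →
        (∃ B : ℝ, ∀ r : ℝ, 0 ≤ r → r < 1 → ∫⁻ θ in Set.Ioc (0 : ℝ) (2 * Real.pi),
          ENNReal.ofReal (Ψ (G r θ)) ≤ ENNReal.ofReal B) →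
        (∃ B : ℝ, ∀ r : ℝ, 0 ≤ r → r < 1 → ∫⁻ θ in Set.Ioc (0 : ℝ) (2 * Real.pi),
          ENNReal.ofReal (Φ (G r θ)) ≤ ENNReal.ofReal B) ∧
        ∀ p : ℝ, 0 < p → p < 2 →
          ∃ B : ℝ, ∀ r : ℝ, 0 ≤ r → r < 1 → ∫⁻ θ in Set.Ioc (0 : ℝ) (2 * Real.pi),
            ENNReal.ofReal (G r θ ^ p) ≤ ENNReal.ofReal B := by
  have hl : ∀ t : ℝ, 0 ≤ t → 1 ≤ 1 + Real.log (1 + t) := fun t ht => by
    have := Real.log_nonneg (show (1 : ℝ) ≤ 1 + t by linarith)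
    linarith
  refine ⟨fun t => max (Φ t) 0 + t ^ 2 / (1 + Real.log (1 + t)), fun ε hε => ?_,
    fun G hG ⟨B, hB⟩ => ⟨⟨B, fun r hr hr1 => le_trans (lintegral_mono fun θ => ?_) (hB r hr hr1)⟩,
      fun p hp hp2 => ?_⟩⟩
  · obtain ⟨C, hC⟩ := hΦ (ε / 2) (half_pos hε)
    refine ⟨|C| + Real.exp (2 / ε) ^ 2, fun t ht => ?_⟩
    have h0 : 0 ≤ ε / 2 * t ^ 2 := by positivity
    have h1 : max (Φ t) 0 ≤ ε / 2 * t ^ 2 + |C| :=
      max_le (by linarith [hC t ht, le_abs_self C]) (by positivity)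
    have h2 : t ^ 2 / (1 + Real.log (1 + t)) ≤ ε / 2 * t ^ 2 + Real.exp (2 / ε) ^ 2 := by
      rcases le_total t (Real.exp (2 / ε)) with h | h
      · have := div_le_self (sq_nonneg t) (hl t ht)
        have h3 : t ^ 2 ≤ Real.exp (2 / ε) ^ 2 := pow_le_pow_left₀ ht h 2
        linarith
      · have h3 : 2 / ε ≤ Real.log (1 + t) :=
          (Real.le_log_iff_exp_le (by linarith [ht])).2 (by linarith)
        have h4 : t ^ 2 / (1 + Real.log (1 + t)) ≤ t ^ 2 / (2 / ε) :=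
          div_le_div_of_nonneg_left (sq_nonneg t) (by positivity) (by linarith)
        have h5 : t ^ 2 / (2 / ε) = ε / 2 * t ^ 2 := by field_simp
        have h6 : 0 ≤ Real.exp (2 / ε) ^ 2 := by positivity
        linarith
    show max (Φ t) 0 + t ^ 2 / (1 + Real.log (1 + t)) ≤ _
    linarith
  · refine ENNReal.ofReal_le_ofReal ?_
    have h1 : 0 ≤ G r θ ^ 2 / (1 + Real.log (1 + G r θ)) :=
      div_nonneg (sq_nonneg _) (by linarith [hl _ (hG r θ)])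
    show _ ≤ max (Φ (G r θ)) 0 + G r θ ^ 2 / (1 + Real.log (1 + G r θ))
    linarith [le_max_left (Φ (G r θ)) 0]
  · obtain ⟨c, hc, h⟩ := pow_Sum p hp hp2
    refine ⟨1 * (2 * Real.pi) + c * max B 0, fun r hr hr1 => ?_⟩
    have h1 : ∀ θ, ENNReal.ofReal (G r θ ^ p) ≤ ENNReal.ofReal 1 + ENNReal.ofReal c *
        ENNReal.ofReal (max (Φ (G r θ)) 0 + G r θ ^ 2 / (1 + Real.log (1 + G r θ))) := fun θ => by
      rw [← ENNReal.ofReal_mul hc]
      refine le_trans (ENNReal.ofReal_le_ofReal ?_) ENNReal.ofReal_add_le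
      have := mul_nonneg hc (le_max_right (Φ (G r θ)) 0)
      have h2 := h _ (hG r θ)
      rw [mul_add]
      linarith
    refine (lintegral_mono h1).trans ?_
    rw [lintegral_add_left measurable_const, const_Sum _ zero_le_one,
      lintegral_const_mul' _ _ ENNReal.ofReal_ne_top,
      ENNReal.ofReal_add (by positivity) (by positivity), ENNReal.ofReal_mul hc]
    exact add_le_add le_rfl (mul_le_mul_right
      ((hB r hr hr1).trans (ENNReal.ofReal_le_ofReal (le_max_left _ _))) _)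

theorem cv_Pr {x y z : ℕ → ℂ} (h : ∀ n, z n = conv x y n) :
    PowerSeries.mk z = PowerSeries.mk x * PowerSeries.mk y := by
  ext n
  rw [PowerSeries.coeff_mul, Finset.Nat.sum_antidiagonal_eq_sum_range_succ_mk,
    PowerSeries.coeff_mk, h]
  simp [conv]

theorem inv_Pr (φ : ℕ → ℂ) (hφ0 : φ 0 = 1)
    (hacc : ∀ n : ℕ, ∃ T : H →L[ℂ] H, Commute T S ∧ (∀ t < n, T e0 t = φ t) ∧
      ∀ x : H, ‖x‖ ^ 2 / 2 ≤ (⟪x, T x⟫_ℂ).re) : ∃ ψ : H, ∀ n, e0 n = conv ψ φ n := by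
  obtain ⟨ψ, hψ⟩ : ∃ ψ : ℕ → ℂ, ∀ n, e0 n = conv ψ φ n := by
    refine ⟨fun n => PowerSeries.coeff n (PowerSeries.mk φ)⁻¹, fun n => ?_⟩
    have h1 := cv_Pr (x := fun n => PowerSeries.coeff n (PowerSeries.mk φ)⁻¹) (y := φ)
      fun _ => rfl
    have h2 : (PowerSeries.mk fun n => PowerSeries.coeff n (PowerSeries.mk φ)⁻¹) =
        (PowerSeries.mk φ)⁻¹ := by
      ext n
      simp
    rw [h2, PowerSeries.inv_mul_cancel _ (by simp [hφ0])] at h1
    have h3 := congrArg (PowerSeries.coeff n) h1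
    rw [PowerSeries.coeff_mk, PowerSeries.coeff_one] at h3
    rw [h3, e0_apply]
  refine ⟨mk ψ (summable_of_sum_range_le (c := 4) (fun _ => by positivity) fun n => ?_), hψ⟩
  obtain ⟨T, hT, hT0, hT1⟩ := hacc n
  have h0 : ∀ t ∉ range n, ‖if t < n then ψ t else 0‖ ^ 2 = 0 := fun t ht => by
    rw [if_neg (by simpa using ht)]
    simp
  obtain ⟨x, hx⟩ : ∃ x : H, ∀ t, x t = if t < n then ψ t else 0 :=
    ⟨mk _ (summable_of_ne_finset_zero h0), fun _ => rfl⟩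
  have h1 : ⟪x, T x⟫_ℂ = ⟪x, e0⟫_ℂ := by
    rw [lp.inner_eq_tsum, lp.inner_eq_tsum]
    refine tsum_congr fun t => ?_
    by_cases ht : t < n
    · rw [apply_eq_conv T hT, hψ]
      congr 1
      refine Finset.sum_congr rfl fun k hk => ?_
      have := mem_range.1 hk
      rw [hx, if_pos (by omega), hT0 _ (by omega)]
    · rw [hx, if_neg ht, inner_zero_left, inner_zero_left]
  have h2 := (hT1 x).trans ((Complex.re_le_norm _).trans (h1 ▸ norm_inner_le_norm x e0))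
  rw [norm_e0] at h2
  have h3 : ‖x‖ ^ 2 = ∑ t ∈ range n, ‖ψ t‖ ^ 2 := by
    rw [norm_sq_eq]
    simp only [hx]
    rw [tsum_eq_sum h0]
    exact Finset.sum_congr rfl fun t ht => by rw [if_pos (mem_range.1 ht)]
  rw [← h3]
  nlinarith [sq_nonneg (‖x‖ - 2)]

theorem cyc_Pr (b g0 : H) (h : ∀ g : H, ∃ q : H, (∀ n, q n = conv b g n) ∧ ‖q‖ ≤ 1 * ‖g‖)
    (h0 : ∀ n, e0 n = conv b g0 n) (G : H) (hG : ∀ j, ⟪G, (S ^ j) b⟫_ℂ = 0) : G = 0 := by
  choose q hq hn using h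
  let B : H →L[ℂ] H := LinearMap.mkContinuous
    { toFun := q
      map_add' := fun x y => lp.ext (funext fun n => by
        simp [hq, conv, mul_add, Finset.sum_add_distrib])
      map_smul' := fun c x => lp.ext (funext fun n => by
        simp [hq, conv, Finset.mul_sum, mul_left_comm]) } 1 hn
  have hB : ∀ g n, B g n = conv b g n := hq
  have h1 : B g0 = e0 := lp.ext (funext fun n => by rw [hB, h0])
  have h2 : ∀ j, B (lp.single 2 j (g0 j)) = g0 j • (S ^ j) b := fun j =>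
    lp.ext (funext fun n => by
      rw [hB, (tsum_S_pow _ b n).unique (hasSum_single j fun i hi => by
        rw [lp.single_apply, Pi.single_eq_of_ne hi, zero_mul])]
      simp)
  apply lp.ext
  funext i
  have h3 := ((innerSL ℂ G).comp ((S ^ i).comp B)).hasSum
    (lp.hasSum_single (p := 2) (by norm_num) g0)
  have h4 : ∀ j, ((innerSL ℂ G).comp ((S ^ i).comp B)) (lp.single 2 j (g0 j)) = 0 := fun j => by
    show ⟪G, (S ^ i) (B _)⟫_ℂ = 0
    rw [h2, map_smul, inner_smul_right, ← mul_ap, ← pow_add, hG, mul_zero]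
  simp only [h4] at h3
  have h5 : 0 = ⟪G, (S ^ i) (B g0)⟫_ℂ := hasSum_zero.unique h3
  have h6 : (S ^ i) e0 = lp.single 2 i 1 := by
    apply lp.ext
    funext n
    rw [S_pow_apply, lp.single_apply, e0_apply]
    by_cases h : n = i
    · subst h; simp
    · rw [Pi.single_eq_of_ne h]
      split_ifs with h1 h2
      · omega
      · rfl
      · rfl
  rw [h1, h6, lp.inner_single_right] at h5
  simpa using h5.symm

theorem seq_Pr (a : H) (hout : ∀ g : H, (∀ j, ⟪g, (S ^ j) a⟫_ℂ = 0) → g = 0) (g : ℕ → ℂ)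
    (hg : Summable fun n => ‖g n‖ ^ 2) (h : ∀ j : ℕ, ∑' n, a n * starRingEnd ℂ (g (n + j)) = 0) :
    g = 0 := by
  have h2 : mk g hg = 0 := by
    refine hout _ fun j => ?_
    have h3 := lp.hasSum_inner (𝕜 := ℂ) (mk g hg) ((S ^ j) a)
    have h4 := (hasSum_nat_add_iff' j).2 h3
    have h5 : ∑ i ∈ range j, ⟪mk g hg i, (S ^ j) a i⟫_ℂ = 0 := by
      refine Finset.sum_eq_zero fun i hi => ?_
      rw [S_pow_apply, if_neg (by have := mem_range.1 hi; omega), inner_zero_right]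
    rw [h5, sub_zero] at h4
    rw [← h4.tsum_eq, ← h j]
    refine tsum_congr fun n => ?_
    rw [S_pow_apply, if_pos (by omega)]
    simp
  funext n
  have := congrArg (fun x : H => x n) h2
  simpa using this

theorem exists_pair2 (φ : ℕ → ℂ) (hφ0 : φ 0 = 1)
    (hD : ∀ η > 0, ∃ v w : H, (∀ n, w n = conv v φ n) ∧ ‖v - e0‖ ≤ η)
    (hinv : ∃ ψ : H, ∀ n, e0 n = conv ψ φ n)
    (f : H) (hf : ∀ R : ℝ, ∃ v w : H, (∀ n, w n = conv v φ n) ∧ ‖v‖ ≤ 3 ∧ R ≤ ‖⟪w, f⟫_ℂ‖) :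
    ∃ a b : ℕ → ℂ,
      (∀ g : ℕ → ℂ, Summable (fun n => ‖g n‖ ^ 2) →
        Summable (fun n => ‖∑ k ∈ Finset.range (n+1), a k * g (n-k)‖ ^ 2) ∧
        Summable (fun n => ‖∑ k ∈ Finset.range (n+1), b k * g (n-k)‖ ^ 2) ∧
        (∑' n, ‖∑ k ∈ Finset.range (n+1), a k * g (n-k)‖ ^ 2) +
          (∑' n, ‖∑ k ∈ Finset.range (n+1), b k * g (n-k)‖ ^ 2) = ∑' n, ‖g n‖ ^ 2) ∧
      (∀ g : ℕ → ℂ, Summable (fun n => ‖g n‖ ^ 2) →
        (∀ j : ℕ, ∑' n, a n * starRingEnd ℂ (g (n + j)) = 0) → g = 0) ∧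
      0 < (a 0).re ∧ (a 0).im = 0 ∧
      (∀ n, ∑ k ∈ Finset.range (n+1), a k * φ (n-k) = b n) ∧
      (∀ g : ℕ → ℂ, Summable (fun n => ‖g n‖ ^ 2) →
        (∀ j : ℕ, ∑' n, b n * starRingEnd ℂ (g (n + j)) = 0) → g = 0) ∧
      ¬ BddAbove {x : ℝ | ∃ g : ℕ → ℂ, Summable (fun n => ‖g n‖ ^ 2) ∧
          x = (∑' n, ‖f n + ∑ k ∈ Finset.range (n+1), b k * g (n-k)‖ ^ 2) - ∑' n, ‖g n‖ ^ 2} := by
  obtain ⟨a, b, hiso, hout, hre, him, hab, hW⟩ := exists_pair φ hD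
  obtain ⟨ψ, hψ⟩ := hinv
  obtain ⟨g0, hg0⟩ := hW ψ e0 hψ
  refine ⟨a, b, fun g hg => ?_, seq_Pr a hout, hre, him, hab,
    seq_Pr b (cyc_Pr b g0 (fun g => ?_) hg0), ?_⟩
  · obtain ⟨p, q, hp, hq, hn⟩ := hiso (mk g hg)
    have hp' : ∀ n, ∑ k ∈ Finset.range (n+1), a k * g (n-k) = p n := fun n => (hp n).symm
    have hq' : ∀ n, ∑ k ∈ Finset.range (n+1), b k * g (n-k) = q n := fun n => (hq n).symm
    simp only [hp', hq']
    refine ⟨summable_sq p, summable_sq q, ?_⟩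
    rw [← norm_sq_eq, ← norm_sq_eq, hn, norm_sq_eq]
    rfl
  · obtain ⟨p, q, -, hq, hn⟩ := hiso g
    refine ⟨q, hq, ?_⟩
    rw [one_mul]
    exact le_of_sq_le_sq (by nlinarith [sq_nonneg ‖p‖]) (norm_nonneg _)
  · rintro ⟨M, hM⟩
    obtain ⟨v, w, hvw, hv, hR⟩ := hf (M / 2 + 5)
    obtain ⟨c, hc1, hc⟩ := Complex.exists_norm_eq_mul_self ⟪f, w⟫_ℂ
    have hvw' : ∀ n, (c • w : H) n = conv (c • v : H) φ n := fun n => by
      simp [hvw, conv, Finset.mul_sum, mul_assoc]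
    obtain ⟨g, hg⟩ := hW _ _ hvw'
    obtain ⟨p, q, hp, hq, hn⟩ := hiso g
    have h1 : q = c • w := lp.ext (funext fun n => by rw [hq, hg])
    have hφ : PowerSeries.mk φ ≠ 0 := fun h => by
      have := congrArg (PowerSeries.coeff 0) h
      simp [hφ0] at this
    have h2 : p = c • v := by
      have h3 : PowerSeries.mk p = PowerSeries.mk (c • v : H) := by
        refine mul_right_cancel₀ hφ ?_
        rw [← cv_Pr hvw', cv_Pr hg, cv_Pr hp, cv_Pr fun n => (hab n).symm]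
        ring
      refine lp.ext (funext fun n => ?_)
      simpa using congrArg (PowerSeries.coeff n) h3
    have h4 := hM ⟨g, summable_sq g, rfl⟩
    have h5 : ∀ n, f n + ∑ k ∈ Finset.range (n+1), b k * g (n-k) = (f + q : H) n := fun n => by
      rw [lp.coeFn_add, Pi.add_apply, hq]
      rfl
    simp only [h5] at h4
    rw [← norm_sq_eq, ← norm_sq_eq, ← hn, @norm_add_sq ℂ, h2, norm_smul, hc1, one_mul] at h4
    have h6 : RCLike.re ⟪f, q⟫_ℂ = ‖⟪w, f⟫_ℂ‖ := by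
      rw [h1, inner_smul_right, ← hc, norm_inner_symm]
      simp
    nlinarith [sq_nonneg ‖f‖, norm_nonneg v]

end Pool.Agent.MP_05b6ce_an.Sh
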