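import Pool.Agent.MP_05b6ce_an.Sh.Stp

set_option autoImplicit false

namespace Pool.Agent.MP_05b6ce_an.Sh

open scoped InnerProductSpace
open Finset Filter Topology MeasureTheory

theorem accr_Inv (T : H →L[ℂ] H) (al : ℝ) (h0 : 0 < al) (h1 : al ≤ 1)
    (hT : ∀ x, al * ‖x‖ ^ 2 ≤ (⟪x, T x⟫_ℂ).re) :
    ∃ B : H →L[ℂ] H, B * T = 1 ∧ (∀ X, Commute X T → Commute X B) ∧
      ∀ x, al * ‖B x‖ ≤ ‖x‖ := by
  obtain ⟨s, s0, s1, s2⟩ : ∃ s : ℝ, 0 < s ∧ s ≤ 1 ∧ s * ‖T‖ ^ 2 ≤ al :=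
    ⟨al / (‖T‖ ^ 2 + 1), by positivity, by
      rw [div_le_one (by positivity)]; nlinarith [sq_nonneg ‖T‖], by
      rw [div_mul_eq_mul_div, div_le_iff₀ (by positivity)]; nlinarith⟩
  have sa : s * al ≤ 1 := mul_le_one₀ s1 h0.le h1
  have sp : 0 < s * al := mul_pos s0 h0
  have hn : ‖1 - (s : ℂ) • T‖ < 1 := by
    refine lt_of_le_of_lt (ContinuousLinearMap.opNorm_le_bound _ (M := 1 - s * al / 2)
      (by linarith) fun x => ?_) (by linarith)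
    refine le_of_sq_le_sq ?_ (mul_nonneg (by linarith) (norm_nonneg _))
    have e : ‖(1 - (s : ℂ) • T) x‖ ^ 2 =
        ‖x‖ ^ 2 - 2 * (s * (⟪x, T x⟫_ℂ).re) + s ^ 2 * ‖T x‖ ^ 2 := by
      rw [show (1 - (s : ℂ) • T) x = x - (s : ℂ) • T x from rfl, @norm_sub_sq ℂ, inner_smul_right,
        norm_smul, Complex.norm_real, Real.norm_eq_abs, abs_of_pos s0]
      simp [mul_pow]
    have h2 : ‖T x‖ ^ 2 ≤ ‖T‖ ^ 2 * ‖x‖ ^ 2 := by
      rw [← mul_pow]; exact pow_le_pow_left₀ (norm_nonneg _) (T.le_opNorm x) 2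
    have h3 := mul_le_mul_of_nonneg_left (hT x) s0.le
    have h4 := mul_le_mul_of_nonneg_left h2 (sq_nonneg s)
    have h5 := mul_le_mul_of_nonneg_right s2 (mul_nonneg s0.le (sq_nonneg ‖x‖))
    have h6 := sq_nonneg (s * al * ‖x‖)
    rw [e]
    nlinarith
  obtain ⟨u, hu⟩ : ∃ u : (H →L[ℂ] H)ˣ, (u : H →L[ℂ] H) = (s : ℂ) • T :=
    ⟨Units.oneSub _ hn, sub_sub_cancel _ _⟩
  have hB : ∀ x, T (((s : ℂ) • ((u⁻¹ : (H →L[ℂ] H)ˣ) : H →L[ℂ] H)) x) = x := fun x => by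
    rw [← mul_ap, mul_smul_comm, ← smul_mul_assoc, ← hu, u.mul_inv]; rfl
  refine ⟨(s : ℂ) • ((u⁻¹ : (H →L[ℂ] H)ˣ) : H →L[ℂ] H), ?_, fun X hX => ?_, fun x => ?_⟩
  · rw [smul_mul_assoc, ← mul_smul_comm, ← hu, u.inv_mul]
  · exact (show Commute X (u : H →L[ℂ] H) from hu ▸ hX.smul_right _).units_inv_right.smul_right _
  · have h2 := hT (((s : ℂ) • ((u⁻¹ : (H →L[ℂ] H)ˣ) : H →L[ℂ] H)) x)
    rw [hB] at h2
    generalize ((s : ℂ) • ((u⁻¹ : (H →L[ℂ] H)ˣ) : H →L[ℂ] H)) x = y at h2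
    have h3 := (Complex.re_le_norm _).trans (norm_inner_le_norm (𝕜 := ℂ) y x)
    rcases (norm_nonneg y).eq_or_lt with h | h
    · rw [← h, mul_zero]; exact norm_nonneg x
    · exact le_of_mul_le_mul_left (by nlinarith) h

theorem exists_inv (L : ℕ) (hL : 0 < L) (β : ℝ) (hβ : 0 < β) (hβ1 : β ≤ 1) (n i : ℕ) :
    ∃ (A : H →L[ℂ] H) (κ : ℂ), Bi A ∧ (∀ x, ‖A x‖ ≤ ‖x‖) ∧ ‖A e0 - e0‖ ^ 2 ≤ i * β ∧
      A * (1 + ∑ l ∈ range n,
        ((β * ((n - l : ℕ) : ℝ) / ((n : ℝ) + 1) : ℝ) : ℂ) • (S ^ L) ^ (l + 1)) ^ i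
        = κ • (1 : H →L[ℂ] H) := by
  obtain ⟨T, hT⟩ : ∃ T : H →L[ℂ] H, T = 1 + ∑ l ∈ range n,
    ((β * ((n - l : ℕ) : ℝ) / ((n : ℝ) + 1) : ℝ) : ℂ) • (S ^ L) ^ (l + 1) := ⟨_, rfl⟩
  rw [← hT]
  have Tx : ∀ x, T x = x + ∑ l ∈ range n,
      ((β * ((n - l : ℕ) : ℝ) / ((n : ℝ) + 1) : ℝ) : ℂ) • ((S ^ L) ^ (l + 1)) x := fun x => by
    rw [hT, add_apply, _root_.sum_apply]; rfl
  have bT : Bi T := hT ▸ bi_one.add fun X hX =>
    Commute.sum_right _ _ _ fun l _ => (((bi_S.pow L).pow (l + 1)).smul _) X hX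
  have ac : ∀ x, (1 - β / 2) * ‖x‖ ^ 2 ≤ (⟪x, T x⟫_ℂ).re := fun x => by
    have h1 := fejer_op (S ^ L) (fun y => (norm_S_pow L y).le) x n
    have h2 : (⟪x, T x⟫_ℂ).re = ‖x‖ ^ 2 + β / ((n : ℝ) + 1) *
        ∑ k ∈ range n, ((n - k : ℕ) : ℝ) * (⟪x, ((S ^ L) ^ (k + 1)) x⟫_ℂ).re := by
      rw [Tx, inner_add_right, Complex.add_re, inner_sum, Complex.re_sum, Finset.mul_sum,
        ← RCLike.re_to_complex, inner_self_eq_norm_sq]
      congr 1
      refine Finset.sum_congr rfl fun k _ => ?_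
      rw [inner_smul_right, Complex.re_ofReal_mul]
      ring
    have h3 := mul_nonneg (show 0 ≤ β / ((n : ℝ) + 1) by positivity) h1
    rw [mul_add, ← mul_assoc, div_mul_cancel₀ _ (by positivity : (n : ℝ) + 1 ≠ 0)] at h3
    rw [h2]
    linarith
  obtain ⟨B, B1, B2, B3⟩ := accr_Inv T (1 - β / 2) (by linarith) (by linarith) ac
  have bB : Bi (((1 - β / 2 : ℝ) : ℂ) • B) := Bi.smul (fun X hX => B2 X (bT X hX)) _
  have cB : ∀ m x, ‖((((1 - β / 2 : ℝ) : ℂ) • B) ^ m) x‖ ≤ ‖x‖ := fun m x => by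
    induction m with
    | zero => exact le_rfl
    | succ m ih =>
      rw [pow_succ', mul_ap, smul_apply, norm_smul, Complex.norm_real,
        Real.norm_eq_abs, abs_of_pos (by linarith)]
      exact (B3 _).trans ih
  have id : (((1 - β / 2 : ℝ) : ℂ) • B) ^ i * T ^ i =
      (((1 - β / 2 : ℝ) : ℂ) ^ i) • (1 : H →L[ℂ] H) := by
    rw [← (bB.commute bT).mul_pow, smul_mul_assoc, B1, smul_pow, one_pow]
  have T0 : ∀ x, T x 0 = x 0 := fun x => by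
    rw [← ev_apply, Tx, map_add, map_sum, ev_apply, add_eq_left]
    refine Finset.sum_eq_zero fun l _ => ?_
    rw [map_smul, ev_apply, ← pow_mul, S_pow_apply,
      if_neg (Nat.mul_pos hL (Nat.succ_pos l)).not_ge, smul_zero]
  have Ti : ∀ m, (T ^ m) e0 0 = 1 := fun m => by
    induction m with
    | zero => exact e0_apply 0
    | succ m ih => rw [pow_succ', mul_ap, T0, ih]
  refine ⟨_, _, bB.pow i, cB i, ?_, id⟩
  have h1 := apply_eq_conv _ (bB.pow i).commute_S ((T ^ i) e0) 0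
  rw [← mul_ap, id, conv, zero_add, Finset.sum_range_one, Ti, one_mul, Nat.sub_zero] at h1
  have h2 : ((((1 - β / 2 : ℝ) : ℂ) • B) ^ i) e0 0 = (((1 - β / 2) ^ i : ℝ) : ℂ) := by
    rw [← h1]
    simp [e0_apply]
  have h3 := pow_le_pow_left₀ (norm_nonneg _) (cB i e0) 2
  have h4 := one_add_mul_le_pow (show -2 ≤ -(β / 2) by linarith) i
  rw [norm_sub_rev, @norm_sub_sq ℂ, inner_e0_left, h2, RCLike.re_to_complex, Complex.ofReal_re]
  rw [norm_e0] at h3 ⊢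
  rw [← sub_eq_add_neg] at h4
  linarith

theorem coeff_pow_Pol (q : Polynomial ℝ) (hq : ∀ k, 0 ≤ q.coeff k) (i : ℕ) :
    ∀ k, 0 ≤ (q ^ i).coeff k := by
  induction i with
  | zero =>
    intro k
    rw [pow_zero, Polynomial.coeff_one]
    split_ifs <;> norm_num
  | succ i ih =>
    intro k
    rw [pow_succ, Polynomial.coeff_mul]
    exact sum_nonneg fun p _ => mul_nonneg (ih _) (hq _)

theorem sum_Pol (n : ℕ) : ∑ l ∈ range n, ((n - l : ℕ) : ℝ) = n * (n + 1) / 2 := by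
  induction n with
  | zero => simp
  | succ n ih =>
    rw [sum_range_succ']
    simp only [Nat.add_sub_add_right, ih, Nat.sub_zero]
    push_cast
    ring

theorem poly_Pol {β : ℝ} (hβ : 0 ≤ β) (n i : ℕ) : ∃ (N : ℕ) (ω : ℕ → ℝ), N ≤ i * n ∧
    ω 0 = 1 ∧ (∀ k, 0 ≤ ω k) ∧ ω N ≠ 0 ∧
    (∀ U : H →L[ℂ] H, (1 + ∑ l ∈ range n,
      ((β * ((n - l : ℕ) : ℝ) / ((n : ℝ) + 1) : ℝ) : ℂ) • U ^ (l + 1)) ^ i
      = ∑ k ∈ range (N + 1), (ω k : ℂ) • U ^ k) ∧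
    ∑ k ∈ range (N + 1), ω k = (1 + β * n / 2) ^ i := by
  obtain ⟨q, hq⟩ : ∃ q : Polynomial ℝ, q = 1 + ∑ l ∈ range n,
      Polynomial.monomial (l + 1) (β * ((n - l : ℕ) : ℝ) / ((n : ℝ) + 1)) := ⟨_, rfl⟩
  have h0 : (q ^ i).coeff 0 = 1 := by
    rw [Polynomial.coeff_zero_eq_eval_zero]
    simp [hq, Polynomial.eval_finsetSum]
  refine ⟨(q ^ i).natDegree, (q ^ i).coeff, ?_, h0, coeff_pow_Pol q (fun k => ?_) i,
    Polynomial.leadingCoeff_ne_zero.2 fun e => by simp [e] at h0, fun U => ?_, ?_⟩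
  · refine Polynomial.natDegree_pow_le.trans (Nat.mul_le_mul_left _ ?_)
    rw [hq]
    refine (Polynomial.natDegree_add_le _ _).trans (max_le (by simp) ?_)
    exact Polynomial.natDegree_sum_le_of_forall_le _ _ fun l hl =>
      (Polynomial.natDegree_monomial_le _).trans (mem_range.1 hl)
  · rw [hq, Polynomial.coeff_add, Polynomial.finsetSum_coeff, Polynomial.coeff_one]
    refine add_nonneg (by split_ifs <;> norm_num) (sum_nonneg fun l _ => ?_)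
    rw [Polynomial.coeff_monomial]
    split_ifs
    · positivity
    · exact le_rfl
  · have h1 := Polynomial.aeval_eq_sum_range' (p := (q ^ i).map (algebraMap ℝ ℂ))
      (Nat.lt_succ_of_le Polynomial.natDegree_map_le) U
    simp only [Polynomial.coeff_map, Complex.coe_algebraMap] at h1
    rw [← h1, Polynomial.map_pow, map_pow, hq]
    simp only [Polynomial.map_add, Polynomial.map_one, Polynomial.map_sum, Polynomial.map_monomial,
      map_add, map_one, map_sum, Polynomial.aeval_monomial, Complex.coe_algebraMap,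
      Algebra.smul_def]
  · have h1 := Polynomial.eval_eq_sum_range (p := q ^ i) 1
    simp only [one_pow, mul_one] at h1
    rw [← h1, Polynomial.eval_pow, hq]
    simp only [Polynomial.eval_add, Polynomial.eval_one, Polynomial.eval_finsetSum,
      Polynomial.eval_monomial, one_pow, mul_one]
    rw [← sum_div, ← mul_sum, sum_Pol]
    congr 2
    field_simp

theorem exists_pol (w : ℕ → ℝ) (hw1 : Antitone w)
    (hw2 : ∀ c > 0, ∀ C : ℝ, ∃ k : ℕ, C * Real.exp (-(c * Real.sqrt k)) < w k)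
    (L : ℕ) (hL : 0 < L) (lam : ℝ) (hlam : 0 < lam) (R : ℝ) :
    ∃ (β : ℝ) (n i N : ℕ) (ω : ℕ → ℝ), 0 < β ∧ β ≤ 1 ∧ i * β ≤ lam ∧
      ω 0 = 1 ∧ (∀ k, 0 ≤ ω k) ∧ ω N ≠ 0 ∧
      (∀ U : H →L[ℂ] H, (1 + ∑ l ∈ range n,
        ((β * ((n - l : ℕ) : ℝ) / ((n : ℝ) + 1) : ℝ) : ℂ) • U ^ (l + 1)) ^ i
        = ∑ k ∈ range (N + 1), (ω k : ℂ) • U ^ k) ∧
      ∃ k, 1 ≤ k ∧ k ≤ N ∧ R ≤ ω k * w (L * (k + 1)) := by
  obtain ⟨a, a0, a1, a2⟩ : ∃ a : ℝ, 0 < a ∧ a ≤ 1 ∧ a ≤ lam :=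
    ⟨min 1 lam, by positivity, min_le_left _ _, min_le_right _ _⟩
  have L0 : (0 : ℝ) < L := by exact_mod_cast hL
  obtain ⟨d, d0, hd⟩ : ∃ d : ℝ, 0 < d ∧ d ^ 2 * (16 * L) = a :=
    ⟨Real.sqrt (a / (16 * L)), by positivity, by
      rw [Real.sq_sqrt (by positivity)]; field_simp⟩
  obtain ⟨C, C0, C1, C2⟩ : ∃ C : ℝ, 0 ≤ C ∧ 60 * R / a ≤ C ∧ |w 0| * Real.exp (1 / 2) ≤ C :=
    ⟨max (60 * R / a) (|w 0| * Real.exp (1 / 2)), le_max_of_le_right (by positivity),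
      le_max_left _ _, le_max_right _ _⟩
  obtain ⟨k0, hk0⟩ := hw2 (d / 2) (by positivity) C
  obtain ⟨x, x0, hx, hx2⟩ : ∃ x : ℝ, 0 ≤ x ∧ d / 2 * Real.sqrt k0 = x / 2 ∧
      x ^ 2 * (16 * L) = a * k0 :=
    ⟨d * Real.sqrt k0, by positivity, by ring, by
      rw [mul_pow, Real.sq_sqrt (by positivity), ← hd]; ring⟩
  rw [hx] at hk0
  have x1 : 1 ≤ x := by
    by_contra hn
    have h1 : Real.exp (-(1 / 2)) ≤ Real.exp (-(x / 2)) := Real.exp_le_exp.2 (by linarith)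
    have h2 : Real.exp (1 / 2) * Real.exp (-(1 / 2)) = 1 := by rw [← Real.exp_add]; simp
    have h3 := mul_le_mul C2 h1 (Real.exp_pos _).le C0
    rw [mul_assoc, h2] at h3
    linarith [hw1 (Nat.zero_le k0), le_abs_self (w 0)]
  obtain ⟨i, i1, i2, i3⟩ : ∃ i : ℕ, 1 ≤ i ∧ (i : ℝ) ≤ x ∧ x < i + 1 :=
    ⟨⌊x⌋₊, (Nat.one_le_floor_iff x).2 x1, Nat.floor_le x0, Nat.lt_floor_add_one x⟩
  have i1' : (1 : ℝ) ≤ i := by exact_mod_cast i1
  obtain ⟨n, n1, n2⟩ : ∃ n : ℕ, 14 * i ≤ a * n ∧ a * n ≤ 15 * i := by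
    have h1 := Nat.le_ceil (14 * i / a)
    have h2 := Nat.ceil_lt_add_one (show 0 ≤ 14 * i / a by positivity)
    rw [div_le_iff₀ a0] at h1
    rw [div_add_one a0.ne', lt_div_iff₀ a0] at h2
    exact ⟨⌈14 * i / a⌉₊, by linarith, by linarith⟩
  obtain ⟨N, ω, N1, o0, o1, o2, o3, o4⟩ := poly_Pol (β := a / i) (by positivity) n i
  refine ⟨a / i, n, i, N, ω, by positivity, (div_le_one (by positivity)).2 (by linarith),
    by rw [mul_div_cancel₀ _ (by positivity)]; exact a2, o0, o1, o2, o3, ?_⟩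
  have N2 : a * N ≤ 15 * i ^ 2 := by
    have : (N : ℝ) ≤ i * n := by exact_mod_cast N1
    linarith [mul_le_mul_of_nonneg_left this a0.le,
      mul_le_mul_of_nonneg_left n2 (Nat.cast_nonneg (α := ℝ) i)]
  have p2 : (i : ℝ) ≤ 2 ^ i := by exact_mod_cast Nat.lt_two_pow_self.le
  have p1 : (2 : ℝ) ≤ 2 ^ i := le_self_pow₀ one_le_two (by omega)
  have s1 : ((2 : ℝ) ^ i) ^ 3 ≤ ∑ k ∈ range N, ω (k + 1) + 1 := by
    rw [← o0, ← sum_range_succ', o4, ← pow_mul, mul_comm i, pow_mul]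
    refine pow_le_pow_left₀ (by norm_num) ?_ i
    have : 14 ≤ a / i * n := by
      rw [div_mul_eq_mul_div, le_div_iff₀ (by positivity)]
      exact n1
    linarith
  obtain ⟨k, hk, hk'⟩ : ∃ k ∈ range N, a * 2 ^ i / 30 ≤ ω (k + 1) := by
    by_contra hn
    push Not at hn
    have h1 := sum_le_sum fun k hk => (hn k hk).le
    rw [sum_const, card_range, nsmul_eq_mul] at h1
    generalize (2 : ℝ) ^ i = y at *
    have h2 : (i : ℝ) ^ 2 * y ≤ y ^ 2 * y := by gcongr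
    have h3 : a * N * y ≤ 15 * i ^ 2 * y := by gcongr
    have h4 : (2 : ℝ) ^ 3 ≤ y ^ 3 := by gcongr
    linarith
  refine ⟨k + 1, by omega, mem_range.1 hk, ?_⟩
  have k1 : L * (k + 1 + 1) ≤ k0 := by
    have h1 : (k : ℝ) + 1 ≤ N := by exact_mod_cast mem_range.1 hk
    have h2 : (i : ℝ) ^ 2 ≤ x ^ 2 := by gcongr
    have h3 : a * ((k : ℝ) + 1 + 1) ≤ 16 * x ^ 2 := by
      linarith [mul_le_mul_of_nonneg_left h1 a0.le, one_le_pow₀ (n := 2) x1]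
    have h4 : a * (L * ((k : ℝ) + 1 + 1)) ≤ a * k0 := by
      linarith [mul_le_mul_of_nonneg_left h3 L0.le]
    exact_mod_cast le_of_mul_le_mul_left h4 a0
  have e1 : Real.exp (x / 2) ≤ 2 ^ i * 2 := by
    rw [← pow_succ]
    refine le_trans (Real.exp_le_exp.2 (show x / 2 ≤ ((i + 1 : ℕ) : ℝ) * (1 / 2) by
      push_cast; linarith)) ?_
    rw [Real.exp_nat_mul]
    refine pow_le_pow_left₀ (Real.exp_pos _).le ?_ _
    exact (Real.exp_bound_div_one_sub_of_interval (by norm_num) (by norm_num)).trans (by norm_num)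
  have e2 : C / (2 ^ i * 2) ≤ w (L * (k + 1 + 1)) := by
    refine le_trans ?_ (hk0.le.trans (hw1 k1))
    rw [Real.exp_neg, ← div_eq_mul_inv]
    exact div_le_div_of_nonneg_left C0 (Real.exp_pos _) e1
  refine le_trans ?_ (mul_le_mul hk' e2 (by positivity) (o1 _))
  rw [div_le_iff₀ a0] at C1
  rw [show a * 2 ^ i / 30 * (C / (2 ^ i * 2)) = C * a / 60 by field_simp; ring]
  linarith

noncomputable section

/-- a polynomial in a power of the shift -/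
def Om (L N : ℕ) (ω : ℕ → ℝ) : H →L[ℂ] H := ∑ k ∈ range (N + 1), (ω k : ℂ) • (S ^ L) ^ k

theorem bi_Om (L N : ℕ) (ω : ℕ → ℝ) : Bi (Om L N ω) := fun X hX =>
  Commute.sum_right _ _ _ fun _ _ => (((bi_S.pow _).pow _).smul _) X hX

theorem Om_apply (L N : ℕ) (ω : ℕ → ℝ) (x : H) (hx : ∀ t, L ≤ t → x t = 0) (k s : ℕ)
    (hs : s < L) : Om L N ω x (L * k + s) = if k ≤ N then (ω k : ℂ) * x s else 0 := by
  have h1 : ∀ l, l ≠ k → ((ω l : ℂ) • (S ^ L) ^ l) x (L * k + s) = 0 := by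
    intro l hl
    have : ((ω l : ℂ) • (S ^ L) ^ l) x (L * k + s) = ω l * (S ^ (L * l)) x (L * k + s) := by
      rw [pow_mul]; rfl
    rw [this, S_pow_apply]
    split_ifs with h
    · rcases lt_or_gt_of_ne hl with h2 | h2
      · have : L * (l + 1) ≤ L * k := Nat.mul_le_mul_left _ h2
        rw [hx _ (by rw [mul_add, mul_one] at this; omega), mul_zero]
      · have : L * (k + 1) ≤ L * l := Nat.mul_le_mul_left _ h2
        rw [mul_add, mul_one] at this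
        omega
    · rw [mul_zero]
  rw [Om, _root_.sum_apply, lp.coeFn_sum, Finset.sum_apply]
  split_ifs with h
  · rw [Finset.sum_eq_single k (fun l _ hl => h1 l hl)
      (fun h' => absurd (mem_range.2 (by omega)) h')]
    have : ((ω k : ℂ) • (S ^ L) ^ k) x (L * k + s) = ω k * (S ^ (L * k)) x (L * k + s) := by
      rw [pow_mul]; rfl
    rw [this, S_pow_apply, if_pos (by omega), Nat.add_sub_cancel_left]
  · exact Finset.sum_eq_zero fun l hl => h1 l (by have := mem_range.1 hl; omega)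

theorem inner_mono (x : H) (m a : ℕ) (h : m ≤ a) :
    ⟪(S ^ m) x, (S ^ a) e0⟫_ℂ = starRingEnd ℂ (x (a - m)) := by
  rw [← inner_conj_symm, inner_Se0, S_pow_apply, if_pos h]

theorem inner_congr (x x' y : H) (m D : ℕ) (hy : ∀ t, D ≤ t → y t = 0)
    (h : ∀ t < D, x t = x' t) : ⟪(S ^ m) x, y⟫_ℂ = ⟪(S ^ m) x', y⟫_ℂ := by
  rw [lp.inner_eq_tsum, lp.inner_eq_tsum]
  refine tsum_congr fun t => ?_
  by_cases ht : t < D
  · rw [S_pow_apply, S_pow_apply]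
    split_ifs
    · rw [h _ (by omega)]
    · rfl
  · rw [hy t (by omega), inner_zero_right, inner_zero_right]

theorem exists_prod2 (A : ℕ → H →L[ℂ] H) (hA : ∀ j, Bi (A j)) (hc : ∀ j x, ‖A j x‖ ≤ ‖x‖)
    (hδ : ∀ j, ‖A j e0 - e0‖ ≤ 1 / 2 / 2 / 2 ^ j) (J : ℕ) :
    (∀ K, Bi (PP A J K)) ∧
      ∃ v : H, Tendsto (fun K => PP A J K e0) atTop (𝓝 v) ∧ ‖v - e0‖ ≤ 1 / 2 / 2 ^ J := by
  have h1 : ∀ K, Bi (PP A J K) ∧ ∀ x, ‖PP A J K x‖ ≤ ‖x‖ := by
    intro K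
    induction K with
    | zero => exact ⟨bi_one, fun x => le_rfl⟩
    | succ K ih => exact ⟨ih.1.mul (hA _), fun x => (ih.2 _).trans (hc _ x)⟩
  have h3 : ∀ K, dist (PP A J K e0) (PP A J (K + 1) e0) ≤ 1 / 2 / 2 ^ J / 2 / 2 ^ K := by
    intro K
    rw [dist_comm, dist_eq_norm, PP, mul_ap, ← map_sub]
    refine ((h1 K).2 _).trans ((hδ _).trans (le_of_eq ?_))
    rw [pow_add]; field_simp
  obtain ⟨v, hv⟩ := cauchySeq_tendsto_of_complete (cauchySeq_of_le_geometric_two h3)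
  refine ⟨fun K => (h1 K).1, v, hv, ?_⟩
  have := dist_le_of_le_geometric_two_of_tendsto₀ h3 hv
  rwa [dist_comm, dist_eq_norm] at this

/-- what one step of the second construction provides -/
def Good2 (w : ℕ → ℝ) (j : ℕ) (T : H →L[ℂ] H) (F : H) (D d : ℕ)
    (N k : ℕ) (ω : ℕ → ℝ) (A : H →L[ℂ] H) (s s' : ℂ) : Prop :=
  (ω 0 = 1 ∧ (∀ l, 0 ≤ ω l) ∧ ω N ≠ 0 ∧ 1 ≤ k ∧ k ≤ N) ∧
  (Bi A ∧ (∀ x, ‖A x‖ ≤ ‖x‖) ∧ ‖A e0 - e0‖ ≤ 1 / 2 / 2 / 2 ^ j ∧
    ∃ κ : ℂ, A * Om (D + j + 2) N ω = κ • (1 : H →L[ℂ] H)) ∧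
  (‖s‖ ≤ w ((D + j + 2) * (k + 1)) ∧ ‖s'‖ ≤ w ((D + j + 2) * (k + 1)) ∧
    ‖s‖ ≤ (1 / 2) ^ j ∧ ‖s'‖ ≤ (1 / 2) ^ j) ∧
  (T e0 d ≠ 0 → ⟪(S ^ j) (T e0), F⟫_ℂ + s * starRingEnd ℂ (ω k * T e0 d) = 0 ∧
    (j : ℝ) + 1 ≤ ‖⟪(S ^ (j + 1)) (Om (D + j + 2) N ω (T e0)),
      F + s • (S ^ ((D + j + 2) * k + (d + j))) e0⟫_ℂ + s' * starRingEnd ℂ (ω k * T e0 d)‖)

theorem exists_step2 (w : ℕ → ℝ) (hw0 : ∀ k, 0 ≤ w k) (hw1 : Antitone w)
    (hw2 : ∀ c > 0, ∀ C : ℝ, ∃ k : ℕ, C * Real.exp (-(c * Real.sqrt k)) < w k)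
    (j : ℕ) (T : H →L[ℂ] H) (F : H) (D d : ℕ) :
    ∃ N k ω A s s', Good2 w j T F D d N k ω A s s' := by
  set L := D + j + 2 with hLdef
  have hL : 0 < L := by omega
  set δ : ℝ := (1 / 2) ^ j with hδdef
  have hδ : 0 < δ := by positivity
  set τ := ⟪(S ^ j) (T e0), F⟫_ℂ with hτ
  set Y : ℝ := (‖τ‖ + j + 1) / ‖T e0 d‖ with hY
  have hY0 : 0 ≤ Y := by positivity
  have hw := hw0 0
  set R : ℝ := Y * (1 + w 0 / δ) + 1 with hR
  have hR0 : 0 < R := by positivity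
  obtain ⟨β, n, i, N, ω, hβ, hβ1, hiβ, hω0, hω, hωN, hU, k, hk1, hkN, hk⟩ :=
    exists_pol w hw1 hw2 L hL ((1 / 2 / 2 / 2 ^ j) ^ 2) (by positivity) R
  obtain ⟨A, κ, hA, hAc, hAe, hAO⟩ := exists_inv L hL β hβ hβ1 n i
  rw [hU] at hAO
  set W := w (L * (k + 1)) with hW
  have hW0 : 0 ≤ W := hw0 _
  have hW1 : W ≤ w 0 := hw1 (Nat.zero_le _)
  have hωk : 0 < ω k := by
    rcases (hω k).eq_or_lt with h | h
    · rw [← h, zero_mul] at hk; linarith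
    · exact h
  have key : ∀ y : ℂ, ‖y‖ ≤ ‖τ‖ + j + 1 →
      ‖y / starRingEnd ℂ (ω k * T e0 d)‖ ≤ W ∧ ‖y / starRingEnd ℂ (ω k * T e0 d)‖ ≤ δ := by
    intro y hy
    have h1 : ‖y / starRingEnd ℂ (ω k * T e0 d)‖ ≤ Y / ω k := by
      rw [norm_div, Complex.norm_conj, norm_mul, Complex.norm_real, Real.norm_eq_abs,
        abs_of_pos hωk, hY, div_div, mul_comm ‖T e0 d‖]
      gcongr
    have h2 : Y * (w 0 / δ) * δ = Y * w 0 := by field_simp
    have h3 : 0 ≤ Y * (w 0 / δ) := by positivity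
    refine ⟨h1.trans ?_, h1.trans ?_⟩
    · rw [div_le_iff₀ hωk]
      nlinarith
    · rw [div_le_iff₀ hωk]
      have h4 : Y * (1 + w 0 / δ) + 1 ≤ ω k * w 0 := hk.trans (by gcongr)
      have h5 : 0 < w 0 := by
        rcases hw.eq_or_lt with h | h
        · rw [← h] at h4; simp at h4; linarith
        · exact h
      refine le_of_mul_le_mul_right ?_ h5
      nlinarith
  set s : ℂ := -τ / starRingEnd ℂ (ω k * T e0 d) with hs
  set τ' := ⟪(S ^ (j + 1)) (Om L N ω (T e0)), F + s • (S ^ (L * k + (d + j))) e0⟫_ℂ with hτ'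
  obtain ⟨y, hy1, hy2⟩ : ∃ y : ℂ, ‖y‖ = j + 1 ∧ (j : ℝ) + 1 ≤ ‖τ' + y‖ := by
    have h1 : ‖(((j : ℝ) + 1 : ℝ) : ℂ)‖ = j + 1 := by
      rw [Complex.norm_real, Real.norm_eq_abs, abs_of_pos (by positivity)]
    by_cases h : (j : ℝ) + 1 ≤ ‖τ' + (((j : ℝ) + 1 : ℝ) : ℂ)‖
    · exact ⟨_, h1, h⟩
    · refine ⟨-(((j : ℝ) + 1 : ℝ) : ℂ), by rw [norm_neg, h1], ?_⟩
      have h2 := norm_sub_le (τ' + (((j : ℝ) + 1 : ℝ) : ℂ)) (τ' + -(((j : ℝ) + 1 : ℝ) : ℂ))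
      rw [show τ' + (((j : ℝ) + 1 : ℝ) : ℂ) - (τ' + -(((j : ℝ) + 1 : ℝ) : ℂ)) =
        2 * (((j : ℝ) + 1 : ℝ) : ℂ) by ring, norm_mul, h1, Complex.norm_two] at h2
      linarith [not_le.1 h]
  have hk1' := key (-τ) (by rw [norm_neg]; have : (0 : ℝ) ≤ j := Nat.cast_nonneg j; linarith)
  have hk2' := key y (by rw [hy1]; linarith [norm_nonneg τ])
  refine ⟨N, k, ω, A, s, y / starRingEnd ℂ (ω k * T e0 d), ⟨hω0, hω, hωN, hk1, hkN⟩,
    ⟨hA, hAc, ?_, κ, hAO⟩, ⟨hk1'.1, hk2'.1, hk1'.2, hk2'.2⟩, fun hd => ?_⟩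
  · exact le_of_sq_le_sq (hAe.trans hiβ) (by positivity)
  · have h1 : starRingEnd ℂ (ω k * T e0 d) ≠ 0 := by
      rw [map_ne_zero]
      exact mul_ne_zero (by exact_mod_cast hωk.ne') hd
    rw [hs, div_mul_cancel₀ _ h1, div_mul_cancel₀ _ h1]
    exact ⟨add_neg_cancel τ, hy2⟩

/-- the data of the second construction -/
structure Sq2 (w : ℕ → ℝ) where
  T : ℕ → H →L[ℂ] H
  F : ℕ → H
  D : ℕ → ℕ
  d : ℕ → ℕ
  N : ℕ → ℕ
  k : ℕ → ℕ
  ω : ℕ → ℕ → ℝ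
  A : ℕ → H →L[ℂ] H
  s : ℕ → ℂ
  s' : ℕ → ℂ
  T0 : T 0 = 1
  F0 : F 0 = 0
  D0 : D 0 = 1
  d0 : d 0 = 0
  Ts : ∀ j, T (j + 1) = Om (D j + j + 2) (N j) (ω j) * T j
  Fs : ∀ j, F (j + 1) = F j + s j • (S ^ ((D j + j + 2) * k j + (d j + j))) e0 +
    s' j • (S ^ ((D j + j + 2) * k j + (d j + j + 1))) e0
  Ds : ∀ j, D (j + 1) = (D j + j + 2) * (N j + 1)
  ds : ∀ j, d (j + 1) = (D j + j + 2) * N j + d j
  good : ∀ j, Good2 w j (T j) (F j) (D j) (d j) (N j) (k j) (ω j) (A j) (s j) (s' j)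

theorem exists_Sq2 (w : ℕ → ℝ) (hw0 : ∀ k, 0 ≤ w k) (hw1 : Antitone w)
    (hw2 : ∀ c > 0, ∀ C : ℝ, ∃ k : ℕ, C * Real.exp (-(c * Real.sqrt k)) < w k) :
    Nonempty (Sq2 w) := by
  choose N k ω A s s' hg using
    fun (j : ℕ) (x : (H →L[ℂ] H) × H × ℕ × ℕ) =>
      exists_step2 w hw0 hw1 hw2 j x.1 x.2.1 x.2.2.1 x.2.2.2
  let st : ℕ → (H →L[ℂ] H) × H × ℕ × ℕ := fun j => Nat.rec (1, 0, 1, 0) (fun j x =>
    (Om (x.2.2.1 + j + 2) (N j x) (ω j x) * x.1,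
     x.2.1 + s j x • (S ^ ((x.2.2.1 + j + 2) * k j x + (x.2.2.2 + j))) e0 +
      s' j x • (S ^ ((x.2.2.1 + j + 2) * k j x + (x.2.2.2 + j + 1))) e0,
     (x.2.2.1 + j + 2) * (N j x + 1), (x.2.2.1 + j + 2) * N j x + x.2.2.2)) j
  exact ⟨{
    T := fun j => (st j).1
    F := fun j => (st j).2.1
    D := fun j => (st j).2.2.1
    d := fun j => (st j).2.2.2
    N := fun j => N j (st j)
    k := fun j => k j (st j)
    ω := fun j => ω j (st j)
    A := fun j => A j (st j)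
    s := fun j => s j (st j)
    s' := fun j => s' j (st j)
    T0 := rfl
    F0 := rfl
    D0 := rfl
    d0 := rfl
    Ts := fun _ => rfl
    Fs := fun _ => rfl
    Ds := fun _ => rfl
    ds := fun _ => rfl
    good := fun j => hg j _ }⟩

namespace Sq2

variable {w : ℕ → ℝ} (X : Sq2 w)

/-- the period at step `j` -/
abbrev L (j : ℕ) : ℕ := X.D j + j + 2
/-- the position of the first new coefficient at step `j` -/
abbrev a (j : ℕ) : ℕ := X.L j * X.k j + (X.d j + j)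

theorem L_pos (j : ℕ) : 0 < X.L j := Nat.succ_pos _

theorem D_succ (j : ℕ) : X.D (j + 1) = X.L j * X.N j + X.L j := by
  rw [X.Ds, mul_add, mul_one]

theorem D_mono : Monotone X.D :=
  monotone_nat_of_le_succ fun j => by have := X.D_succ j; unfold L at this; omega

theorem lt_D (j : ℕ) : j < X.D j := by
  induction j with
  | zero => rw [X.D0]; exact Nat.one_pos
  | succ j ih => have := X.D_succ j; unfold L at this; omega

theorem d_lt (j : ℕ) : X.d j < X.D j := by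
  induction j with
  | zero => rw [X.D0, X.d0]; exact Nat.one_pos
  | succ j ih => have := X.D_succ j; have := X.ds j; unfold L at *; omega

theorem a_bounds (j : ℕ) : X.L j ≤ X.a j ∧ X.a j + 1 < X.L j * (X.k j + 1) ∧
    X.L j * (X.k j + 1) ≤ X.D (j + 1) := by
  obtain ⟨⟨-, -, -, h1, h2⟩, -⟩ := X.good j
  have h3 : X.L j * 1 ≤ X.L j * X.k j := Nat.mul_le_mul_left _ h1
  have h4 : X.L j * X.k j ≤ X.L j * X.N j := Nat.mul_le_mul_left _ h2
  have h5 := X.d_lt j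
  have h6 := X.D_succ j
  have h7 : X.L j = X.D j + j + 2 := rfl
  rw [mul_add, mul_one]
  unfold a
  omega

theorem bi_T (j : ℕ) : Bi (X.T j) := by
  induction j with
  | zero => rw [X.T0]; exact bi_one
  | succ j ih => rw [X.Ts]; exact (bi_Om _ _ _).mul ih

theorem T_succ (j : ℕ) : X.T (j + 1) e0 = Om (X.L j) (X.N j) (X.ω j) (X.T j e0) := by
  rw [X.Ts]; rfl

theorem F_succ (j t : ℕ) : X.F (j + 1) t = X.F j t + (if t = X.a j then X.s j else 0) +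
    (if t = X.a j + 1 then X.s' j else 0) := by
  rw [X.Fs]
  simp only [lp.coeFn_add, lp.coeFn_smul, Pi.add_apply, Pi.smul_apply, smul_eq_mul, S_pow_e0,
    mul_ite, mul_one, mul_zero]
  rfl

theorem supp (j : ℕ) : (∀ t, X.d j < t → X.T j e0 t = 0) ∧ X.T j e0 (X.d j) ≠ 0 := by
  induction j with
  | zero =>
    rw [X.T0, X.d0, one_apply_eq_self]
    exact ⟨fun t ht => by rw [e0_apply, if_neg (by omega)], by simp [e0_apply]⟩
  | succ j ih =>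
    have h0 := X.d_lt j
    have h1 : ∀ t, X.L j ≤ t → X.T j e0 t = 0 := fun t ht => ih.1 t (by unfold L at ht; omega)
    rw [T_succ, X.ds]
    refine ⟨fun t ht => ?_, ?_⟩
    · rw [← Nat.div_add_mod t (X.L j), Om_apply _ _ _ _ h1 _ _ (Nat.mod_lt _ (X.L_pos j))]
      split_ifs with h
      · have h2 := Nat.div_add_mod t (X.L j)
        have h3 : X.L j * (t / X.L j) ≤ X.L j * X.N j := Nat.mul_le_mul_left _ h
        rw [ih.1 _ (by unfold L at *; omega), mul_zero]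
      · rfl
    · rw [Om_apply _ _ _ _ h1 _ _ (by unfold L; omega), if_pos le_rfl]
      exact mul_ne_zero (Complex.ofReal_ne_zero.2 (X.good j).1.2.2.1) ih.2

theorem T_val (j k s : ℕ) (hs : s < X.L j) (hk : k ≤ X.N j) :
    X.T (j + 1) e0 (X.L j * k + s) = X.ω j k * X.T j e0 s := by
  have h0 := X.d_lt j
  rw [T_succ, Om_apply _ _ _ _ (fun t ht => (X.supp j).1 t (by unfold L at ht; omega)) _ _ hs,
    if_pos hk]

theorem suppF (j t : ℕ) (h : X.D j ≤ t) : X.F j t = 0 := by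
  induction j with
  | zero => rw [X.F0]; rfl
  | succ j ih =>
    have h1 := X.a_bounds j
    rw [F_succ, ih ((X.D_mono (Nat.le_succ j)).trans h), if_neg (by omega), if_neg (by omega)]
    simp

theorem stab (j K t : ℕ) (hK : j ≤ K) (ht : t < X.L j) :
    X.T K e0 t = X.T j e0 t ∧ X.F K t = X.F j t := by
  induction K, hK using Nat.le_induction with
  | base => exact ⟨rfl, rfl⟩
  | succ K hK ih =>
    have h1 : t < X.L K := by have := X.D_mono hK; unfold L at ht ⊢; omega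
    have h2 := X.a_bounds K
    have h3 := X.T_val K 0 t h1 (Nat.zero_le _)
    rw [mul_zero, zero_add, (X.good K).1.1, Complex.ofReal_one, one_mul] at h3
    rw [h3, F_succ, ih.1, ih.2, if_neg (by omega), if_neg (by omega)]
    simp

theorem cc_zero (j : ℕ) : ⟪(S ^ j) (X.T (j + 1) e0), X.F (j + 1)⟫_ℂ = 0 := by
  have h0 := X.d_lt j
  have hk := (X.good j).1.2.2.2.2
  have h1 : ⟪(S ^ j) (X.T (j + 1) e0), X.F j⟫_ℂ = ⟪(S ^ j) (X.T j e0), X.F j⟫_ℂ :=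
    inner_congr _ _ _ j (X.D j) (X.suppF j) fun t ht =>
      (X.stab j (j + 1) t (Nat.le_succ j) (by unfold L; omega)).1
  rw [X.Fs, inner_add_right, inner_add_right, inner_smul_right, inner_smul_right, h1,
    inner_mono _ _ _ (by omega), inner_mono _ _ _ (by omega),
    show (X.D j + j + 2) * X.k j + (X.d j + j) - j = X.L j * X.k j + X.d j by unfold L; omega,
    show (X.D j + j + 2) * X.k j + (X.d j + j + 1) - j = X.L j * X.k j + (X.d j + 1) by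
      unfold L; omega,
    X.T_val j _ _ (by unfold L; omega) hk, X.T_val j _ _ (by unfold L; omega) hk,
    (X.supp j).1 (X.d j + 1) (by omega), ((X.good j).2.2.2 (X.supp j).2).1]
  simp

theorem cc_big (j : ℕ) : (j : ℝ) + 1 ≤ ‖⟪(S ^ (j + 1)) (X.T (j + 1) e0), X.F (j + 1)⟫_ℂ‖ := by
  have h0 := X.d_lt j
  have hk := (X.good j).1.2.2.2.2
  rw [X.Fs, inner_add_right, inner_smul_right, inner_mono _ _ _ (by omega),
    show (X.D j + j + 2) * X.k j + (X.d j + j + 1) - (j + 1) = X.L j * X.k j + X.d j by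
      unfold L; omega, X.T_val j _ _ (by unfold L; omega) hk, T_succ]
  exact ((X.good j).2.2.2 (X.supp j).2).2

theorem term_zero (m j t : ℕ) (hj : m < j) (h1 : X.D j ≤ t) :
    starRingEnd ℂ (X.T (j + 1) e0 t) * X.F (j + 1) (m + t) = 0 := by
  have h0 := X.d_lt j
  have hk := (X.good j).1.2.2.2.2
  have h2 : ∀ e, 0 < e → e ≤ j + 1 → t = X.L j * X.k j + (X.d j + e) →
      X.T (j + 1) e0 t = 0 := by
    intro e he he' ht
    rw [ht, X.T_val j _ _ (by unfold L; omega) hk, (X.supp j).1 _ (by omega), mul_zero]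
  rw [F_succ, X.suppF j (m + t) (by omega)]
  by_cases h3 : m + t = X.a j
  · rw [h2 (j - m) (by omega) (by omega) (by unfold a at h3; omega)]; simp
  · by_cases h4 : m + t = X.a j + 1
    · rw [h2 (j + 1 - m) (by omega) (by omega) (by unfold a at h4; omega)]; simp
    · rw [if_neg h3, if_neg h4]; simp

theorem coeff (j t : ℕ) : ∃ x : ℝ, X.T j e0 t = x ∧ 0 ≤ x := by
  induction j generalizing t with
  | zero =>
    rw [X.T0, one_apply_eq_self, e0_apply]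
    split_ifs
    · exact ⟨1, by simp, zero_le_one⟩
    · exact ⟨0, by simp, le_rfl⟩
  | succ j ih =>
    have h0 := X.d_lt j
    rw [T_succ, ← Nat.div_add_mod t (X.L j), Om_apply _ _ _ _
      (fun t ht => (X.supp j).1 t (by unfold L at ht; omega)) _ _ (Nat.mod_lt _ (X.L_pos j))]
    split_ifs
    · obtain ⟨x, h1, h2⟩ := ih (t % X.L j)
      exact ⟨X.ω j (t / X.L j) * x, by rw [h1, Complex.ofReal_mul],
        mul_nonneg ((X.good j).1.2.1 _) h2⟩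
    · exact ⟨0, by simp, le_rfl⟩

theorem norm_F (hw0 : ∀ k, 0 ≤ w k) (hw1 : Antitone w) (j t : ℕ) : ‖X.F j t‖ ≤ w t := by
  induction j with
  | zero => rw [X.F0]; simpa using hw0 t
  | succ j ih =>
    have h1 := X.a_bounds j
    have h2 : X.L j = X.D j + j + 2 := rfl
    obtain ⟨-, -, ⟨h3, h4, -⟩, -⟩ := X.good j
    rw [F_succ]
    by_cases h5 : t = X.a j
    · rw [if_pos h5, if_neg (by omega), X.suppF j t (by omega), zero_add, add_zero]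
      exact h3.trans (hw1 (by rw [← h2]; omega))
    · by_cases h6 : t = X.a j + 1
      · rw [if_neg h5, if_pos h6, X.suppF j t (by omega), zero_add, zero_add]
        exact h4.trans (hw1 (by rw [← h2]; omega))
      · rw [if_neg h5, if_neg h6, add_zero, add_zero]; exact ih

/-- the limit multiplier -/
def φ (t : ℕ) : ℂ := X.T (t + 1) e0 t

theorem φ_eq (K t : ℕ) (ht : t < X.L K) : X.φ t = X.T K e0 t := by
  have h1 := X.lt_D (t + 1)
  rw [φ, ← (X.stab K (max K (t + 1)) t (le_max_left _ _) ht).1,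
    (X.stab (t + 1) (max K (t + 1)) t (le_max_right _ _) (by unfold L; omega)).1]

theorem T_zero (K : ℕ) : X.T K e0 0 = 1 := by
  rw [(X.stab 0 K 0 (Nat.zero_le K) (X.L_pos 0)).1, X.T0, one_apply_eq_self, e0_apply, if_pos rfl]

theorem φ_zero : X.φ 0 = 1 := X.T_zero 1

theorem exists_f : ∃ f : H, ∀ K t, t < X.L K → f t = X.F K t := by
  have h1 : ∀ j, dist (X.F j) (X.F (j + 1)) ≤ 4 / 2 / 2 ^ j := by
    intro j
    obtain ⟨-, -, ⟨-, -, h3, h4⟩, -⟩ := X.good j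
    rw [dist_comm, dist_eq_norm, X.Fs, add_assoc, add_sub_cancel_left]
    refine (norm_add_le _ _).trans ?_
    rw [norm_smul, norm_smul, norm_S_pow, norm_S_pow, norm_e0, mul_one, mul_one]
    rw [one_div_pow] at h3 h4
    have : (4 : ℝ) / 2 / 2 ^ j = 1 / 2 ^ j + 1 / 2 ^ j := by ring
    linarith
  obtain ⟨f, hf⟩ := cauchySeq_tendsto_of_complete (cauchySeq_of_le_geometric_two h1)
  refine ⟨f, fun K t ht => ?_⟩
  have h2 : Tendsto (fun j => X.F j t) atTop (𝓝 (f t)) := ((ev t).continuous.tendsto f).comp hf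
  refine tendsto_nhds_unique h2 (tendsto_const_nhds.congr' ?_)
  filter_upwards [eventually_ge_atTop K] with j hj
  exact (X.stab K j t hj ht).2.symm

theorem suppT (j t : ℕ) (h : X.D j ≤ t) : X.T j e0 t = 0 :=
  (X.supp j).1 t ((X.d_lt j).trans_le h)

theorem inner_f (f : H) (hf : ∀ K t, t < X.L K → f t = X.F K t) (m K : ℕ) (hm : m ≤ K) :
    ⟪(S ^ m) (X.T K e0), f⟫_ℂ = ⟪(S ^ m) (X.T K e0), X.F K⟫_ℂ := by
  rw [inner_shift _ _ m (X.D K) (X.suppT K), inner_shift _ _ m (X.D K) (X.suppT K)]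
  refine Finset.sum_congr rfl fun t ht => ?_
  have := mem_range.1 ht
  rw [hf K _ (by unfold L; omega)]

theorem sums_zero (f : H) (hf : ∀ K t, t < X.L K → f t = X.F K t) (m N : ℕ)
    (hN : X.D (m + 1) ≤ N) : ∑ n ∈ range N, starRingEnd ℂ (X.φ n) * f (m + n) = 0 := by
  induction N, hN using Nat.le_induction with
  | base =>
    rw [← X.cc_zero m, ← X.inner_f f hf m (m + 1) (Nat.le_succ m),
      inner_shift _ _ m (X.D (m + 1)) (X.suppT (m + 1))]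
    refine Finset.sum_congr rfl fun t ht => ?_
    have := mem_range.1 ht
    rw [X.φ_eq (m + 1) t (by unfold L; omega)]
  | succ N hN ih =>
    rw [Finset.sum_range_succ, ih, zero_add]
    have hex : ∃ j, N < X.D (j + 1) := ⟨N, by have := X.lt_D (N + 1); omega⟩
    have h1 := Nat.find_spec hex
    set j := Nat.find hex with hj
    have h2 : m < j := by
      by_contra h
      have := X.D_mono (show j + 1 ≤ m + 1 by omega)
      omega
    have h3 : X.D j ≤ N := by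
      have h4 := Nat.find_min hex (m := j - 1) (by omega)
      rw [show j - 1 + 1 = j by omega] at h4
      omega
    rw [X.φ_eq (j + 1) N (by unfold L; omega), hf (j + 1) (m + N) (by unfold L; omega)]
    exact X.term_zero m j N h2 h3

theorem exists_v (J : ℕ) : ∃ v : H, (∀ n, (v 0 • X.T J e0 : H) n = conv v X.φ n) ∧
    ‖v - e0‖ ≤ 1 / 2 / 2 ^ J ∧ 1 / 2 ≤ ‖v 0‖ := by
  obtain ⟨hP, v, hv, hve⟩ := exists_prod2 X.A (fun i => (X.good i).2.1.1)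
    (fun i => (X.good i).2.1.2.1) (fun i => (X.good i).2.1.2.2.1) J
  have h1 : ∀ K, ∃ κ : ℂ, X.T (J + K) * PP X.A J K = κ • X.T J := by
    intro K
    induction K with
    | zero => exact ⟨1, by rw [one_smul]; exact mul_one _⟩
    | succ K ih =>
      obtain ⟨κ, hκ⟩ := ih
      obtain ⟨κ', hκ'⟩ := (X.good (J + K)).2.1.2.2.2
      refine ⟨κ * κ', ?_⟩
      rw [← add_assoc, X.Ts, PP, mul_assoc, ← mul_assoc (X.T (J + K)), hκ, smul_mul_assoc,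
        mul_smul_comm, ((X.bi_T J).commute (X.good (J + K)).2.1.1).eq, ← mul_assoc,
        ((bi_Om _ _ _).commute (X.good (J + K)).2.1.1).eq, hκ', smul_mul_assoc, one_mul,
        smul_smul]
  have h2 : ∀ n K, n ≤ K → conv (PP X.A J K e0) X.φ n = PP X.A J K e0 0 * X.T J e0 n := by
    intro n K hK
    obtain ⟨κ, hκ⟩ := h1 K
    have h3 : ∀ t, conv (PP X.A J K e0) (X.T (J + K) e0) t = κ * X.T J e0 t := fun t => by
      rw [← apply_eq_conv _ (X.bi_T _).commute_S, ← mul_ap, hκ]; rfl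
    have h4 := h3 0
    rw [X.T_zero, mul_one] at h4
    simp only [conv, zero_add, range_one, sum_singleton, tsub_self, X.T_zero, mul_one] at h4
    rw [h4, ← h3 n]
    refine Finset.sum_congr rfl fun k _ => ?_
    rw [X.φ_eq (J + K) (n - k) (by unfold L; omega)]
  have h5 : ∀ t, Tendsto (fun K => PP X.A J K e0 t) atTop (𝓝 (v t)) := fun t =>
    ((ev t).continuous.tendsto v).comp hv
  refine ⟨v, fun n => ?_, hve, ?_⟩
  · have h6 : Tendsto (fun K => conv (PP X.A J K e0) X.φ n) atTop (𝓝 (conv v X.φ n)) :=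
      tendsto_finsetSum _ fun k _ => (h5 k).mul_const _
    refine tendsto_nhds_unique (((h5 0).mul_const (X.T J e0 n)).congr' ?_) h6
    filter_upwards [eventually_ge_atTop n] with K hK
    exact (h2 n K hK).symm
  · have h6 := lp.norm_apply_le_norm (p := 2) (by norm_num) (v - e0) 0
    rw [lp.coeFn_sub, Pi.sub_apply, e0_apply, if_pos rfl] at h6
    have h7 : (1 : ℝ) / 2 / 2 ^ J ≤ 1 / 2 :=
      div_le_self (by norm_num) (one_le_pow₀ (by norm_num))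
    have h8 := norm_sub_norm_le (1 : ℂ) (v 0)
    rw [norm_one, norm_sub_rev] at h8
    linarith

theorem dense_dom (η : ℝ) (hη : η > 0) :
    ∃ v u : H, (∀ n, u n = conv v X.φ n) ∧ ‖v - e0‖ ≤ η := by
  obtain ⟨J, hJ⟩ := exists_pow_lt_of_lt_one hη (show (1 / 2 : ℝ) < 1 by norm_num)
  obtain ⟨v, h1, h2, -⟩ := X.exists_v J
  refine ⟨v, _, h1, h2.trans ?_⟩
  rw [one_div_pow] at hJ
  refine le_trans ?_ hJ.le
  gcongr
  norm_num

theorem inv : ∃ ψ : H, ∀ n, e0 n = conv ψ X.φ n := by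
  obtain ⟨v, h1, -, h2⟩ := X.exists_v 0
  have h3 : v 0 ≠ 0 := fun h => by rw [h, norm_zero] at h2; norm_num at h2
  refine ⟨(v 0)⁻¹ • v, fun n => ?_⟩
  have h4 := h1 n
  rw [X.T0, one_apply_eq_self, lp.coeFn_smul, Pi.smul_apply, smul_eq_mul] at h4
  have h5 : conv ((v 0)⁻¹ • v : H) X.φ n = (v 0)⁻¹ * conv v X.φ n := by
    simp [conv, Finset.mul_sum, mul_assoc]
  rw [h5, ← h4, inv_mul_cancel_left₀ h3]

theorem unbounded (f : H) (hf : ∀ K t, t < X.L K → f t = X.F K t) (R : ℝ) :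
    ∃ v u : H, (∀ n, u n = conv v X.φ n) ∧ ‖v‖ ≤ 3 ∧ R ≤ ‖⟪u, f⟫_ℂ‖ := by
  obtain ⟨j, hj⟩ := exists_nat_ge (2 * R)
  obtain ⟨v, h1, h2, h3⟩ := X.exists_v (j + 1)
  have h6 := SE_iter_mem (φ := X.φ) (x := WithLp.toLp 2 (v, (v 0 • X.T (j + 1) e0 : H))) h1 (j + 1)
  rw [mem_M, SE_iter_fst, SE_iter_snd] at h6
  refine ⟨(S ^ (j + 1)) v, (S ^ (j + 1)) (v 0 • X.T (j + 1) e0), h6, ?_, ?_⟩
  · rw [norm_S_pow]
    have h7 : (1 : ℝ) / 2 / 2 ^ (j + 1) ≤ 1 / 2 :=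
      div_le_self (by norm_num) (one_le_pow₀ (by norm_num))
    calc ‖v‖ = ‖(v - e0) + e0‖ := by rw [sub_add_cancel]
      _ ≤ ‖v - e0‖ + ‖e0‖ := norm_add_le _ _
      _ ≤ 3 := by rw [norm_e0]; linarith
  · have h8 := X.cc_big j
    rw [← X.inner_f f hf (j + 1) (j + 1) le_rfl] at h8
    rw [map_smul, inner_smul_left, norm_mul, Complex.norm_conj]
    have h9 : (0 : ℝ) ≤ j := Nat.cast_nonneg j
    nlinarith [mul_le_mul h3 h8 (by positivity) (norm_nonneg _)]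

end Sq2

theorem main2 (w : ℕ → ℝ) (hw0 : ∀ k, 0 ≤ w k) (hw1 : Antitone w)
    (hw2 : ∀ c > 0, ∀ C : ℝ, ∃ k : ℕ, C * Real.exp (-(c * Real.sqrt k)) < w k) :
    ∃ a b φ f : ℕ → ℂ,
      (∀ g : ℕ → ℂ, Summable (fun n => ‖g n‖ ^ 2) →
        Summable (fun n => ‖∑ k ∈ Finset.range (n+1), a k * g (n-k)‖ ^ 2) ∧
        Summable (fun n => ‖∑ k ∈ Finset.range (n+1), b k * g (n-k)‖ ^ 2) ∧
        (∑' n, ‖∑ k ∈ Finset.range (n+1), a k * g (n-k)‖ ^ 2) +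
          (∑' n, ‖∑ k ∈ Finset.range (n+1), b k * g (n-k)‖ ^ 2) = ∑' n, ‖g n‖ ^ 2) ∧
      (∀ g : ℕ → ℂ, Summable (fun n => ‖g n‖ ^ 2) →
        (∀ j : ℕ, ∑' n, a n * starRingEnd ℂ (g (n + j)) = 0) → g = 0) ∧
      0 < (a 0).re ∧ (a 0).im = 0 ∧
      (∀ n, ∑ k ∈ Finset.range (n+1), a k * φ (n-k) = b n) ∧
      (∀ g : ℕ → ℂ, Summable (fun n => ‖g n‖ ^ 2) →
        (∀ j : ℕ, ∑' n, b n * starRingEnd ℂ (g (n + j)) = 0) → g = 0) ∧
      φ 0 = 1 ∧ (∀ k, (φ k).im = 0 ∧ 0 ≤ (φ k).re) ∧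
      Summable (fun n => ‖f n‖ ^ 2) ∧ (∀ k, ‖f k‖ ≤ w k) ∧
      (∀ m, ∃ D, ∀ N, D ≤ N → ∑ n ∈ Finset.range N, starRingEnd ℂ (φ n) * f (m+n) = 0) ∧
      ¬ BddAbove {x : ℝ | ∃ g : ℕ → ℂ, Summable (fun n => ‖g n‖ ^ 2) ∧
          x = (∑' n, ‖f n + ∑ k ∈ Finset.range (n+1), b k * g (n-k)‖ ^ 2) - ∑' n, ‖g n‖ ^ 2} := by
  obtain ⟨X⟩ := exists_Sq2 w hw0 hw1 hw2
  obtain ⟨f, hf⟩ := X.exists_f
  obtain ⟨a, b, h1, h2, h3, h4, h5, h6, h7⟩ :=
    exists_pair2 X.φ X.φ_zero X.dense_dom X.inv f (X.unbounded f hf)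
  refine ⟨a, b, X.φ, f, h1, h2, h3, h4, h5, h6, X.φ_zero, fun k => ?_, summable_sq f, fun k => ?_,
    fun m => ⟨_, X.sums_zero f hf m⟩, h7⟩
  · obtain ⟨x, e1, e2⟩ := X.coeff (k + 1) k
    rw [Sq2.φ, e1, Complex.ofReal_im, Complex.ofReal_re]
    exact ⟨rfl, e2⟩
  · rw [hf k k (by unfold Sq2.L; omega)]
    exact X.norm_F hw0 hw1 k k

end

end Pool.Agent.MP_05b6ce_an.Sh
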