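import Pool.Agent.MP_05b6ce_an.Sh.Stp

set_option autoImplicit false

namespace Pool.Agent.MP_05b6ce_an.Sh

open scoped InnerProductSpace
open Finset Filter Topology MeasureTheory

noncomputable section

/-- the data of the whole construction -/
structure Sq (w : ℕ → ℝ) (Φ : ℝ → ℝ) where
  T : ℕ → H →L[ℂ] H
  F : ℕ → H
  D : ℕ → ℕ
  N : ℕ → ℕ
  q : ℕ → ℕ → ℝ
  A : ℕ → H →L[ℂ] H
  s : ℕ → ℂ
  s' : ℕ → ℂ
  h : ℕ → ℂ → ℝ
  T0 : T 0 = 1
  F0 : F 0 = 0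
  D0 : D 0 = 1
  Ts : ∀ j, T (j + 1) = T j + Qop (D j + j + 2) (N j) (q j)
  Fs : ∀ j, F (j + 1) = F j + (s j • (S ^ j) (Qop (D j + j + 2) (N j) (q j) e0) +
    s' j • (S ^ (j + 1)) (Qop (D j + j + 2) (N j) (q j) e0))
  Ds : ∀ j, D (j + 1) = (D j + j + 2) * (N j + 1)
  good : ∀ j, Good w Φ j (T j) (F j) (D j) (N j) (q j) (A j) (s j) (s' j) (h j)

theorem exists_Sq (w : ℕ → ℝ) (hw0 : ∀ k, 0 ≤ w k) (hw1 : Antitone w)
    (hw2 : ¬ Summable fun k => w k ^ 2)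
    (Φ : ℝ → ℝ) (hΦ : ∀ ε > 0, ∃ C, ∀ t ≥ 0, Φ t ≤ ε * t ^ 2 + C) : Nonempty (Sq w Φ) := by
  choose N q A s s' h hg using exists_step w hw0 hw1 hw2 Φ hΦ
  let st : ℕ → (H →L[ℂ] H) × H × ℕ := fun j => Nat.rec (1, 0, 1) (fun j x =>
    (x.1 + Qop (x.2.2 + j + 2) (N j x.1 x.2.1 x.2.2) (q j x.1 x.2.1 x.2.2),
     x.2.1 + (s j x.1 x.2.1 x.2.2 • (S ^ j)
        (Qop (x.2.2 + j + 2) (N j x.1 x.2.1 x.2.2) (q j x.1 x.2.1 x.2.2) e0) +
      s' j x.1 x.2.1 x.2.2 • (S ^ (j + 1))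
        (Qop (x.2.2 + j + 2) (N j x.1 x.2.1 x.2.2) (q j x.1 x.2.1 x.2.2) e0)),
     (x.2.2 + j + 2) * (N j x.1 x.2.1 x.2.2 + 1))) j
  exact ⟨{
    T := fun j => (st j).1
    F := fun j => (st j).2.1
    D := fun j => (st j).2.2
    N := fun j => N j (st j).1 (st j).2.1 (st j).2.2
    q := fun j => q j (st j).1 (st j).2.1 (st j).2.2
    A := fun j => A j (st j).1 (st j).2.1 (st j).2.2
    s := fun j => s j (st j).1 (st j).2.1 (st j).2.2
    s' := fun j => s' j (st j).1 (st j).2.1 (st j).2.2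
    h := fun j => h j (st j).1 (st j).2.1 (st j).2.2
    T0 := rfl
    F0 := rfl
    D0 := rfl
    Ts := fun _ => rfl
    Fs := fun _ => rfl
    Ds := fun _ => rfl
    good := fun j => hg j _ _ _ }⟩

namespace Sq

variable {w : ℕ → ℝ} {Φ : ℝ → ℝ} (X : Sq w Φ)

/-- the period of block `j` -/
abbrev L (j : ℕ) : ℕ := X.D j + j + 2
/-- block `j` of the multiplier -/
abbrev Q (j : ℕ) : H →L[ℂ] H := Qop (X.L j) (X.N j) (X.q j)
/-- block `j` of the function -/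
abbrev G (j : ℕ) : H := X.s j • (S ^ j) (X.Q j e0) + X.s' j • (S ^ (j + 1)) (X.Q j e0)

theorem L_pos (j : ℕ) : 0 < X.L j := Nat.succ_pos _

theorem D_succ (j : ℕ) : X.D (j + 1) = X.L j * X.N j + X.L j := by
  rw [X.Ds, mul_add, mul_one]

theorem N_le (j : ℕ) : X.N j ≤ X.L j * X.N j := Nat.le_mul_of_pos_left _ (X.L_pos j)

theorem D_mono : Monotone X.D :=
  monotone_nat_of_le_succ fun j => by have := X.D_succ j; unfold L at this; omega

theorem lt_D (j : ℕ) : j < X.D j := by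
  induction j with
  | zero => rw [X.D0]; exact Nat.one_pos
  | succ j ih => have := X.D_succ j; unfold L at this; omega

theorem q_le_one (j k : ℕ) : X.q j k ≤ 1 := by
  obtain ⟨⟨h1, -, -, h2⟩, -⟩ := X.good j
  have h3 : ((1 / 2 : ℝ) ^ j) ^ 2 ≤ 1 :=
    pow_le_one₀ (by positivity) (pow_le_one₀ (by norm_num) (by norm_num))
  have := h1 (Nat.zero_le k)
  linarith

theorem q_nonneg (j k : ℕ) : 0 ≤ X.q j k := (X.good j).1.2.1 k

theorem bi_T (j : ℕ) : Bi (X.T j) := by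
  induction j with
  | zero => rw [X.T0]; exact bi_one
  | succ j ih => rw [X.Ts]; exact ih.add (bi_Qop _ _ _)

theorem T_succ (j t : ℕ) : X.T (j + 1) e0 t = X.T j e0 t + X.Q j e0 t := by
  rw [X.Ts]; rfl

theorem F_succ (j t : ℕ) : X.F (j + 1) t = X.F j t + X.G j t := by
  rw [X.Fs]; rfl

theorem Q_zero (j t : ℕ) (h : t < X.L j ∨ X.L j * X.N j < t) : X.Q j e0 t = 0 := by
  rcases Qop_cases (X.L j) (X.N j) (X.L_pos j) (X.q j) t with h1 | ⟨k, hk, h1, -⟩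
  · exact h1
  · exfalso
    have h2 : X.L j * (k + 1) ≤ X.L j * X.N j := Nat.mul_le_mul_left _ hk
    have h3 : X.L j ≤ X.L j * (k + 1) := Nat.le_mul_of_pos_right _ (Nat.succ_pos k)
    omega

theorem G_apply (j t : ℕ) :
    X.G j t = X.s j * (S ^ j) (X.Q j e0) t + X.s' j * (S ^ (j + 1)) (X.Q j e0) t := rfl

theorem G_zero (j t : ℕ) (h : t < X.L j ∨ X.D (j + 1) ≤ t) : X.G j t = 0 := by
  have h1 := X.D_succ j
  have h2 : X.L j = X.D j + j + 2 := rfl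
  have h3 : ∀ m, m ≤ j + 1 → (S ^ m) (X.Q j e0) t = 0 := by
    intro m hm
    rw [S_pow_apply]
    split_ifs with h4
    · exact X.Q_zero j _ (by omega)
    · rfl
  rw [G_apply, h3 j (by omega), h3 (j + 1) le_rfl]
  simp

theorem supp (j t : ℕ) (h : X.D j ≤ t) : X.T j e0 t = 0 ∧ X.F j t = 0 := by
  induction j with
  | zero =>
    rw [X.D0] at h
    rw [X.T0, X.F0]
    exact ⟨by rw [one_apply_eq_self, e0_apply, if_neg (by omega)], rfl⟩
  | succ j ih =>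
    have h1 := X.D_succ j
    have h2 := X.L_pos j
    obtain ⟨h3, h4⟩ := ih ((X.D_mono (Nat.le_succ j)).trans h)
    rw [T_succ, F_succ, h3, h4, X.Q_zero j t (by omega), X.G_zero j t (Or.inr h)]
    simp

theorem stab (j K t : ℕ) (hK : j ≤ K) (ht : t < X.L j) :
    X.T K e0 t = X.T j e0 t ∧ X.F K t = X.F j t := by
  induction K, hK using Nat.le_induction with
  | base => exact ⟨rfl, rfl⟩
  | succ K hK ih =>
    have h1 : t < X.L K := by have := X.D_mono hK; unfold L at ht ⊢; omega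
    rw [T_succ, F_succ, ih.1, ih.2, X.Q_zero K t (Or.inl h1), X.G_zero K t (Or.inl h1)]
    simp

theorem norm_T (j : ℕ) (x : H) : ‖X.T j x‖ ≤ X.D j * ‖x‖ := by
  induction j with
  | zero => rw [X.T0, X.D0]; simp
  | succ j ih =>
    rw [X.Ts]
    refine (norm_add_le (X.T j x) (X.Q j x)).trans ?_
    have h1 := norm_Qop_le (X.L j) (X.N j) (X.q j) (X.q_nonneg j) (X.q_le_one j) x
    have h2 : X.D j + X.N j ≤ X.D (j + 1) := by
      have := X.D_succ j; have := X.N_le j; unfold L at *; omega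
    have h3 : (X.D j : ℝ) + X.N j ≤ X.D (j + 1) := by exact_mod_cast h2
    nlinarith [norm_nonneg x]

theorem cc_succ (j m : ℕ) (hm : m ≤ j + 1) :
    ⟪(S ^ m) (X.T (j + 1) e0), X.F (j + 1)⟫_ℂ = ⟪(S ^ m) (X.T j e0), X.F j⟫_ℂ +
      (X.s j * ⟪(S ^ m) (X.Q j e0), (S ^ j) (X.Q j e0)⟫_ℂ +
        X.s' j * ⟪(S ^ m) (X.Q j e0), (S ^ (j + 1)) (X.Q j e0)⟫_ℂ) := by
  have h1 : X.T (j + 1) e0 = X.T j e0 + X.Q j e0 := by rw [X.Ts]; rfl
  have h2 : X.F (j + 1) = X.F j + X.G j := X.Fs j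
  have h3 : ⟪(S ^ m) (X.T j e0), X.G j⟫_ℂ = 0 := by
    rw [inner_shift _ _ m (X.D j) fun t ht => (X.supp j t ht).1]
    refine Finset.sum_eq_zero fun t ht => ?_
    have := mem_range.1 ht
    rw [X.G_zero j _ (Or.inl (by unfold L; omega)), mul_zero]
  have h4 : ⟪(S ^ m) (X.Q j e0), X.F j⟫_ℂ = 0 := by
    rw [inner_Q]
    refine Finset.sum_eq_zero fun k _ => ?_
    have h5 : X.L j ≤ X.L j * (k + 1) := Nat.le_mul_of_pos_right _ (Nat.succ_pos k)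
    rw [(X.supp j _ (by unfold L at *; omega)).2, mul_zero]
  rw [h1, h2, map_add, inner_add_left, inner_add_right _ (X.F j), inner_add_right _ (X.F j),
    h3, h4, add_zero, zero_add, inner_add_right, inner_smul_right, inner_smul_right]

theorem cc_zero (j : ℕ) : ⟪(S ^ j) (X.T (j + 1) e0), X.F (j + 1)⟫_ℂ = 0 := by
  rw [X.cc_succ j j (Nat.le_succ j), inner_QQ _ _ (X.L_pos j),
    inner_QQ_ne _ _ (X.L_pos j) _ j (j + 1) (by unfold L; omega) (by unfold L; omega) (by omega),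
    mul_zero, add_zero]
  exact (X.good j).2.2.1.1

theorem cc_big (j : ℕ) : (j : ℝ) + 1 ≤ ‖⟪(S ^ (j + 1)) (X.T (j + 1) e0), X.F (j + 1)⟫_ℂ‖ := by
  rw [X.cc_succ j (j + 1) le_rfl, inner_QQ _ _ (X.L_pos j),
    inner_QQ_ne _ _ (X.L_pos j) _ (j + 1) j (by unfold L; omega) (by unfold L; omega) (by omega),
    mul_zero, zero_add]
  exact (X.good j).2.2.1.2.1

theorem term_zero (m j t : ℕ) (hj : m < j) (h1 : X.D j ≤ t) :
    starRingEnd ℂ (X.T (j + 1) e0 t) * X.F (j + 1) (m + t) = 0 := by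
  rw [T_succ, F_succ, (X.supp j t h1).1, (X.supp j (m + t) (by omega)).2, zero_add, zero_add]
  rcases Qop_cases (X.L j) (X.N j) (X.L_pos j) (X.q j) t with h2 | ⟨k, -, h2, -⟩
  · rw [h2]; simp
  · rw [G_apply, h2,
      shift_Q_zero _ _ (X.L_pos j) _ m j _ (by unfold L; omega) (by unfold L; omega) (by omega),
      shift_Q_zero _ _ (X.L_pos j) _ m (j + 1) _ (by unfold L; omega) (by unfold L; omega)
        (by omega)]
    simp

theorem accretive (j : ℕ) (x : H) :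
    (1 / 2 + (1 / 2) ^ j / 2) * ‖x‖ ^ 2 ≤ (⟪x, X.T j x⟫_ℂ).re := by
  induction j with
  | zero =>
    rw [X.T0, one_apply_eq_self, inner_self_eq_norm_sq_to_K]
    have : (((‖x‖ : ℝ) : ℂ) ^ 2).re = ‖x‖ ^ 2 := by rw [← Complex.ofReal_pow, Complex.ofReal_re]
    norm_num
    exact this.ge
  | succ j ih =>
    have h1 : X.T (j + 1) x = X.T j x + X.Q j x := by rw [X.Ts]; rfl
    have h2 := (X.good j).2.2.2.1.1 x
    rw [h1, inner_add_right, Complex.add_re, pow_succ]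
    linarith

theorem coeff (hw0 : ∀ k, 0 ≤ w k) (j t : ℕ) (ht : 1 ≤ t) :
    ∃ x : ℝ, X.T j e0 t = x ∧ 0 ≤ x ∧ x ≤ w t := by
  induction j with
  | zero =>
    refine ⟨0, ?_, le_rfl, hw0 t⟩
    rw [(X.supp 0 t (by rw [X.D0]; exact ht)).1, Complex.ofReal_zero]
  | succ j ih =>
    rw [T_succ]
    rcases Qop_cases (X.L j) (X.N j) (X.L_pos j) (X.q j) t with h2 | ⟨k, -, h2, h3⟩
    · rw [h2, add_zero]; exact ih
    · have h5 : X.L j ≤ X.L j * (k + 1) := Nat.le_mul_of_pos_right _ (Nat.succ_pos k)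
      rw [h3, (X.supp j t (by unfold L at *; omega)).1, zero_add]
      exact ⟨_, rfl, X.q_nonneg j k, h2 ▸ (X.good j).1.2.2.1 k⟩

/-- the limit multiplier -/
def φ (t : ℕ) : ℂ := X.T (t + 1) e0 t

theorem φ_eq (K t : ℕ) (ht : t < X.L K) : X.φ t = X.T K e0 t := by
  have h1 := X.lt_D (t + 1)
  rw [φ, ← (X.stab K (max K (t + 1)) t (le_max_left _ _) ht).1,
    (X.stab (t + 1) (max K (t + 1)) t (le_max_right _ _) (by unfold L; omega)).1]

theorem φ_zero : X.φ 0 = 1 := by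
  rw [X.φ_eq 0 0 (X.L_pos 0), X.T0, one_apply_eq_self, e0_apply, if_pos rfl]

/-- block `j` as a polynomial -/
abbrev P (j : ℕ) (z : ℂ) : ℂ := Qz (X.L j) (X.N j) (X.q j) z

theorem sum_T (z : ℂ) (j n : ℕ) (hn : X.D j ≤ n) :
    ∑ t ∈ range n, X.T j e0 t * z ^ t = 1 + ∑ i ∈ range j, X.P i z := by
  induction j with
  | zero =>
    rw [X.D0] at hn
    rw [X.T0, Finset.sum_eq_single 0]
    · simp [e0_apply]
    · intro t _ ht
      simp [e0_apply, ht]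
    · intro h; exact absurd (mem_range.2 hn) h
  | succ j ih =>
    have h1 := X.D_succ j
    have h2 := X.L_pos j
    simp only [T_succ, add_mul]
    rw [Finset.sum_add_distrib, ih ((X.D_mono (Nat.le_succ j)).trans hn), Finset.sum_range_succ,
      sum_Q_z _ _ _ _ _ (by omega), add_assoc]

theorem norm_P (z : ℂ) (hz : ‖z‖ ≤ 1) (j : ℕ) : ‖1 + ∑ i ∈ range j, X.P i z‖ ≤ X.D j := by
  induction j with
  | zero => rw [X.D0]; simp
  | succ j ih =>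
    rw [Finset.sum_range_succ, ← add_assoc]
    refine (norm_add_le _ _).trans ?_
    have h1 := norm_Qz_le (X.L j) (X.N j) (X.q j) (X.q_nonneg j) (X.q_le_one j) z hz
    have h2 : X.D j + X.N j ≤ X.D (j + 1) := by
      have := X.D_succ j; have := X.N_le j; unfold L at *; omega
    have h3 : (X.D j : ℝ) + X.N j ≤ X.D (j + 1) := by exact_mod_cast h2
    linarith

theorem re_P (z : ℂ) (hz : ‖z‖ ≤ 1) (j : ℕ) :
    1 / 2 + (1 / 2) ^ j / 2 ≤ (1 + ∑ i ∈ range j, X.P i z).re := by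
  induction j with
  | zero => norm_num
  | succ j ih =>
    have h2 := (X.good j).2.2.2.1.2 z hz
    rw [Finset.sum_range_succ, ← add_assoc, Complex.add_re, pow_succ]
    linarith

theorem norm_φ (hw0 : ∀ k, 0 ≤ w k) (hw1 : Antitone w) (t : ℕ) : ‖X.φ t‖ ≤ 1 + w 0 := by
  rcases Nat.eq_zero_or_pos t with rfl | ht
  · rw [φ_zero, norm_one]; linarith [hw0 0]
  · obtain ⟨x, h1, h2, h3⟩ := X.coeff hw0 (t + 1) t ht
    rw [φ, h1, Complex.norm_real, Real.norm_eq_abs, abs_of_nonneg h2]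
    linarith [hw1 (Nat.zero_le t)]

theorem tendsto_P (hw0 : ∀ k, 0 ≤ w k) (hw1 : Antitone w) (z : ℂ) (hz : ‖z‖ < 1) :
    Tendsto (fun j => 1 + ∑ i ∈ range j, X.P i z) atTop (𝓝 (∑' t, X.φ t * z ^ t)) := by
  have h1 : Summable fun t => X.φ t * z ^ t := by
    refine Summable.of_norm_bounded
      ((summable_geometric_of_lt_one (norm_nonneg z) hz).mul_left (1 + w 0)) fun t => ?_
    rw [norm_mul, norm_pow]
    exact mul_le_mul_of_nonneg_right (X.norm_φ hw0 hw1 t) (by positivity)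
  have h2 : Tendsto X.D atTop atTop := tendsto_atTop_mono (fun j => (X.lt_D j).le) tendsto_id
  refine (h1.hasSum.tendsto_sum_nat.comp h2).congr fun j => ?_
  rw [← X.sum_T z j (X.D j) le_rfl]
  refine Finset.sum_congr rfl fun t ht => ?_
  have := mem_range.1 ht
  rw [X.φ_eq j t (by unfold L; omega)]

theorem good_P (z : ℂ) (hz : ‖z‖ < 1) : ∀ᶠ j in atTop, ‖X.P j z‖ ≤ (1 / 2) ^ j := by
  have h0 : 0 < 1 - ‖z‖ := by linarith
  have h1 : Tendsto (fun j : ℕ => (1 / 2 : ℝ) ^ j) atTop (𝓝 0) :=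
    tendsto_pow_atTop_nhds_zero_of_lt_one (by norm_num) (by norm_num)
  filter_upwards [h1.eventually (ge_mem_nhds h0)] with j hj
  refine (norm_Qz_geom _ _ (X.L_pos j) _ (X.q_nonneg j) (X.good j).1.1 z hz).trans ?_
  have h2 := (X.good j).1.2.2.2
  have h3 : (0 : ℝ) < (1 / 2) ^ j := by positivity
  rw [← div_eq_mul_inv, div_le_iff₀ h0]
  nlinarith

end Sq

end

noncomputable section

namespace Sq

variable {w : ℕ → ℝ} {Φ : ℝ → ℝ} (X : Sq w Φ)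

theorem exists_f : ∃ f : H, ∀ K t, t < X.L K → f t = X.F K t := by
  have h1 : ∀ j, dist (X.F j) (X.F (j + 1)) ≤ 4 / 2 / 2 ^ j := by
    intro j
    rw [dist_comm, dist_eq_norm, X.Fs, add_sub_cancel_left]
    refine (X.good j).2.2.1.2.2.trans (le_of_eq ?_)
    rw [one_div_pow]; ring
  obtain ⟨f, hf⟩ := cauchySeq_tendsto_of_complete (cauchySeq_of_le_geometric_two h1)
  refine ⟨f, fun K t ht => ?_⟩
  have h2 : Tendsto (fun j => X.F j t) atTop (𝓝 (f t)) := ((ev t).continuous.tendsto f).comp hf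
  refine tendsto_nhds_unique h2 (tendsto_const_nhds.congr' ?_)
  filter_upwards [eventually_ge_atTop K] with j hj
  exact (X.stab K j t hj ht).2.symm

theorem inner_f (f : H) (hf : ∀ K t, t < X.L K → f t = X.F K t) (m K : ℕ) (hm : m ≤ K) :
    ⟪(S ^ m) (X.T K e0), f⟫_ℂ = ⟪(S ^ m) (X.T K e0), X.F K⟫_ℂ := by
  rw [inner_shift _ _ m (X.D K) fun t ht => (X.supp K t ht).1,
    inner_shift _ _ m (X.D K) fun t ht => (X.supp K t ht).1]
  refine Finset.sum_congr rfl fun t ht => ?_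
  have := mem_range.1 ht
  rw [hf K _ (by unfold L; omega)]

theorem sums_zero (f : H) (hf : ∀ K t, t < X.L K → f t = X.F K t) (m N : ℕ)
    (hN : X.D (m + 1) ≤ N) : ∑ n ∈ range N, starRingEnd ℂ (X.φ n) * f (m + n) = 0 := by
  induction N, hN using Nat.le_induction with
  | base =>
    rw [← X.cc_zero m, ← X.inner_f f hf m (m + 1) (Nat.le_succ m),
      inner_shift _ _ m (X.D (m + 1)) fun t ht => (X.supp (m + 1) t ht).1]
    refine Finset.sum_congr rfl fun t ht => ?_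
    have := mem_range.1 ht
    rw [X.φ_eq (m + 1) t (by unfold L; omega)]
  | succ N hN ih =>
    rw [Finset.sum_range_succ, ih, zero_add]
    have hex : ∃ j, N < X.D (j + 1) := ⟨N, by have := X.lt_D (N + 1); omega⟩
    have h1 := Nat.find_spec hex
    set j := Nat.find hex with hj
    have h2 : m < j := by
      by_contra h
      have := X.D_mono (show j + 1 ≤ m + 1 by omega)
      omega
    have h3 : X.D j ≤ N := by
      have h4 := Nat.find_min hex (m := j - 1) (by omega)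
      rw [show j - 1 + 1 = j by omega] at h4
      omega
    rw [X.φ_eq (j + 1) N (by unfold L; omega), hf (j + 1) (m + N) (by unfold L; omega)]
    exact X.term_zero m j N h2 h3

theorem exists_vw (J : ℕ) : ∃ v u : H, (∀ n, u n = conv v X.φ n) ∧
    ‖v - e0‖ ≤ 2 / (X.D J + 1) / 2 ^ J ∧ ‖u - X.T J v‖ ≤ 2 := by
  obtain ⟨v, hv, hT⟩ := exists_prod (fun i => if i < J then 1 else X.A i)
    (fun i => by split_ifs; exacts [bi_one, (X.good i).2.1.1])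
    (fun i x => by split_ifs; exacts [le_rfl, (X.good i).2.1.2.1 x]) (2 / (X.D J + 1))
    (fun i => by
      split_ifs with h
      · rw [one_apply_eq_self, sub_self, norm_zero]; positivity
      · refine (X.good i).2.1.2.2.1.trans ?_
        have h1 : (X.D J : ℝ) ≤ X.D i := by exact_mod_cast X.D_mono (not_lt.1 h)
        calc (1 / 2 : ℝ) ^ i / (X.D i + 1) ≤ (1 / 2) ^ i / (X.D J + 1) := by gcongr
          _ = 2 / (X.D J + 1) / 2 / 2 ^ i := by rw [one_div_pow]; field_simp) J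
  have h3 : ∀ K, dist (X.T (J + K) v) (X.T (J + (K + 1)) v) ≤ 2 / 2 / 2 ^ K := by
    intro K
    have h1 : X.T (J + K + 1) v = X.T (J + K) v + X.Q (J + K) v := by rw [X.Ts]; rfl
    rw [dist_comm, dist_eq_norm, ← add_assoc, h1, add_sub_cancel_left]
    have h4 := hT (J + K) (Nat.le_add_right _ _) _ (bi_Qop (X.L (J + K)) (X.N (J + K)) (X.q (J + K)))
    rw [if_neg (by omega)] at h4
    refine h4.trans ((X.good (J + K)).2.1.2.2.2.trans ?_)
    calc (1 / 2 : ℝ) ^ (J + K) ≤ (1 / 2) ^ K :=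
          pow_le_pow_of_le_one (by norm_num) (by norm_num) (by omega)
      _ = 2 / 2 / 2 ^ K := by rw [one_div_pow]; norm_num
  obtain ⟨u, hu⟩ := cauchySeq_tendsto_of_complete (cauchySeq_of_le_geometric_two h3)
  refine ⟨v, u, fun n => ?_, hv, ?_⟩
  · have h1 : Tendsto (fun K => X.T (J + K) v n) atTop (𝓝 (u n)) :=
      ((ev n).continuous.tendsto u).comp hu
    refine tendsto_nhds_unique h1 (tendsto_const_nhds.congr' ?_)
    filter_upwards [eventually_ge_atTop n] with K hK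
    rw [apply_eq_conv _ (X.bi_T _).commute_S]
    refine Finset.sum_congr rfl fun k _ => ?_
    rw [X.φ_eq (J + K) (n - k) (by unfold L; omega)]
  · have := dist_le_of_le_geometric_two_of_tendsto₀ h3 hu
    rwa [dist_comm, dist_eq_norm] at this

theorem dense_dom (η : ℝ) (hη : η > 0) :
    ∃ v u : H, (∀ n, u n = conv v X.φ n) ∧ ‖v - e0‖ ≤ η := by
  obtain ⟨J, hJ⟩ := exists_pow_lt_of_lt_one (half_pos hη) (show (1 / 2 : ℝ) < 1 by norm_num)
  obtain ⟨v, u, h1, h2, -⟩ := X.exists_vw J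
  refine ⟨v, u, h1, h2.trans ?_⟩
  rw [one_div_pow] at hJ
  have h3 : (0 : ℝ) ≤ X.D J := Nat.cast_nonneg _
  calc 2 / ((X.D J : ℝ) + 1) / 2 ^ J ≤ 2 / 1 / 2 ^ J := by gcongr; linarith
    _ = 2 * (1 / 2 ^ J) := by ring
    _ ≤ η := by linarith

theorem unbounded (f : H) (hf : ∀ K t, t < X.L K → f t = X.F K t) (R : ℝ) :
    ∃ v u : H, (∀ n, u n = conv v X.φ n) ∧ ‖v‖ ≤ 3 ∧ R ≤ ‖⟪u, f⟫_ℂ‖ := by
  obtain ⟨j, hj⟩ := exists_nat_ge (R + 4 * ‖f‖)
  obtain ⟨v, u, h1, h2, h3⟩ := X.exists_vw (j + 1)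
  have h4 : (0 : ℝ) ≤ X.D (j + 1) := Nat.cast_nonneg _
  have h5 : ‖v - e0‖ ≤ 2 / (X.D (j + 1) + 1) :=
    h2.trans (div_le_self (by positivity) (one_le_pow₀ (by norm_num)))
  have h6 := SE_iter_mem (φ := X.φ) (x := WithLp.toLp 2 (v, u)) h1 (j + 1)
  rw [mem_M, SE_iter_fst, SE_iter_snd] at h6
  refine ⟨(S ^ (j + 1)) v, (S ^ (j + 1)) u, h6, ?_, ?_⟩
  · rw [norm_S_pow]
    have h7 : 2 / ((X.D (j + 1) : ℝ) + 1) ≤ 2 := div_le_self (by norm_num) (by linarith)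
    calc ‖v‖ = ‖(v - e0) + e0‖ := by rw [sub_add_cancel]
      _ ≤ ‖v - e0‖ + ‖e0‖ := norm_add_le _ _
      _ ≤ 3 := by rw [norm_e0]; linarith
  · have h7 : ‖u - X.T (j + 1) e0‖ ≤ 4 := by
      have h8 : u - X.T (j + 1) e0 = (u - X.T (j + 1) v) + X.T (j + 1) (v - e0) := by
        rw [map_sub]; abel
      have h9 := X.norm_T (j + 1) (v - e0)
      have h10 : (X.D (j + 1) : ℝ) * ‖v - e0‖ ≤ 2 := by
        rw [le_div_iff₀ (by positivity)] at h5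
        nlinarith [norm_nonneg (v - e0)]
      rw [h8]
      linarith [norm_add_le (u - X.T (j + 1) v) (X.T (j + 1) (v - e0))]
    have h8 := X.cc_big j
    rw [← X.inner_f f hf (j + 1) (j + 1) le_rfl] at h8
    have h9 : ⟪(S ^ (j + 1)) (X.T (j + 1) e0), f⟫_ℂ =
        ⟪(S ^ (j + 1)) u, f⟫_ℂ - ⟪(S ^ (j + 1)) (u - X.T (j + 1) e0), f⟫_ℂ := by
      rw [map_sub, inner_sub_left]; ring
    have h10 : ‖⟪(S ^ (j + 1)) (u - X.T (j + 1) e0), f⟫_ℂ‖ ≤ 4 * ‖f‖ := by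
      refine (norm_inner_le_norm _ _).trans ?_
      rw [norm_S_pow]
      gcongr
    rw [h9] at h8
    linarith [norm_sub_le ⟪(S ^ (j + 1)) u, f⟫_ℂ ⟪(S ^ (j + 1)) (u - X.T (j + 1) e0), f⟫_ℂ]

theorem acc (n : ℕ) : ∃ T : H →L[ℂ] H, Commute T S ∧ (∀ t < n, T e0 t = X.φ t) ∧
    ∀ x : H, ‖x‖ ^ 2 / 2 ≤ (⟪x, T x⟫_ℂ).re := by
  refine ⟨X.T n, (X.bi_T n).commute_S, fun t ht => (X.φ_eq n t (by unfold L; omega)).symm,
    fun x => le_trans ?_ (X.accretive n x)⟩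
  have : (0 : ℝ) ≤ (1 / 2) ^ n / 2 * ‖x‖ ^ 2 := by positivity
  linarith

end Sq

theorem main (w : ℕ → ℝ) (hw0 : ∀ k, 0 ≤ w k) (hw1 : Antitone w)
    (hw2 : ¬ Summable fun k => w k ^ 2)
    (Φ : ℝ → ℝ) (hΦ : ∀ ε > 0, ∃ C, ∀ t ≥ 0, Φ t ≤ ε * t ^ 2 + C) :
    ∃ a b φ f : ℕ → ℂ,
      (∀ g : ℕ → ℂ, Summable (fun n => ‖g n‖ ^ 2) →
        Summable (fun n => ‖∑ k ∈ Finset.range (n+1), a k * g (n-k)‖ ^ 2) ∧
        Summable (fun n => ‖∑ k ∈ Finset.range (n+1), b k * g (n-k)‖ ^ 2) ∧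
        (∑' n, ‖∑ k ∈ Finset.range (n+1), a k * g (n-k)‖ ^ 2) +
          (∑' n, ‖∑ k ∈ Finset.range (n+1), b k * g (n-k)‖ ^ 2) = ∑' n, ‖g n‖ ^ 2) ∧
      (∀ g : ℕ → ℂ, Summable (fun n => ‖g n‖ ^ 2) →
        (∀ j : ℕ, ∑' n, a n * starRingEnd ℂ (g (n + j)) = 0) → g = 0) ∧
      0 < (a 0).re ∧ (a 0).im = 0 ∧
      (∀ n, ∑ k ∈ Finset.range (n+1), a k * φ (n-k) = b n) ∧
      (∀ g : ℕ → ℂ, Summable (fun n => ‖g n‖ ^ 2) →
        (∀ j : ℕ, ∑' n, b n * starRingEnd ℂ (g (n + j)) = 0) → g = 0) ∧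
      φ 0 = 1 ∧ (∀ k, 1 ≤ k → (φ k).im = 0 ∧ 0 ≤ (φ k).re ∧ (φ k).re ≤ w k) ∧
      (∀ z : ℂ, ‖z‖ < 1 → 1 / 2 ≤ (∑' k, φ k * z ^ k).re) ∧
      (∃ B : ℝ, ∀ r : ℝ, 0 ≤ r → r < 1 → ∫⁻ θ in Set.Ioc (0 : ℝ) (2 * Real.pi),
        ENNReal.ofReal (Φ ‖∑' k, φ k * ((r : ℂ) * Complex.exp (θ * Complex.I)) ^ k‖)
          ≤ ENNReal.ofReal B) ∧
      (∀ p : ℝ, 0 < p → p < 2 →
        ∃ B : ℝ, ∀ r : ℝ, 0 ≤ r → r < 1 → ∫⁻ θ in Set.Ioc (0 : ℝ) (2 * Real.pi),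
          ENNReal.ofReal (‖∑' k, φ k * ((r : ℂ) * Complex.exp (θ * Complex.I)) ^ k‖ ^ p)
            ≤ ENNReal.ofReal B) ∧
      Summable (fun n => ‖f n‖ ^ 2) ∧
      (∀ m, ∃ D, ∀ N, D ≤ N → ∑ n ∈ Finset.range N, starRingEnd ℂ (φ n) * f (m+n) = 0) ∧
      ¬ BddAbove {x : ℝ | ∃ g : ℕ → ℂ, Summable (fun n => ‖g n‖ ^ 2) ∧
          x = (∑' n, ‖f n + ∑ k ∈ Finset.range (n+1), b k * g (n-k)‖ ^ 2) - ∑' n, ‖g n‖ ^ 2} := by
  obtain ⟨Ψ, hΨ, hG⟩ := hp_of_orlicz Φ hΦ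
  obtain ⟨X⟩ := exists_Sq w hw0 hw1 hw2 Ψ hΨ
  obtain ⟨f, hf⟩ := X.exists_f
  obtain ⟨a, b, h1, h2, h3, h4, h5, h6, h7⟩ :=
    exists_pair2 X.φ X.φ_zero X.dense_dom (inv_Pr X.φ X.φ_zero X.acc) f (X.unbounded f hf)
  have h8 := orlicz_sum Ψ hΨ (fun z => ∑' k, X.φ k * z ^ k) X.P (fun j => X.D j) X.h
    (fun j => (X.good j).2.2.2.2.1) (fun j => (X.good j).2.2.2.2.2.1)
    (fun j => (X.good j).2.2.2.2.2.2.1) (fun j => (X.good j).2.2.2.2.2.2.2)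
    (fun j z hz => X.norm_P z hz.le j) (X.tendsto_P hw0 hw1) X.good_P
  obtain ⟨h9, h10⟩ := hG
    (fun r θ => ‖∑' k, X.φ k * ((r : ℂ) * Complex.exp (θ * Complex.I)) ^ k‖)
    (fun _ _ => norm_nonneg _) h8
  refine ⟨a, b, X.φ, f, h1, h2, h3, h4, h5, h6, X.φ_zero, fun k hk => ?_, fun z hz => ?_, h9, h10,
    summable_sq f, fun m => ⟨_, X.sums_zero f hf m⟩, h7⟩
  · obtain ⟨x, e1, e2, e3⟩ := X.coeff hw0 (k + 1) k hk
    rw [Sq.φ, e1, Complex.ofReal_im, Complex.ofReal_re]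
    exact ⟨rfl, e2, e3⟩
  · refine ge_of_tendsto' ((Complex.continuous_re.tendsto _).comp (X.tendsto_P hw0 hw1 z hz))
      fun j => le_trans ?_ (X.re_P z hz.le j)
    have : (0 : ℝ) ≤ (1 / 2) ^ j / 2 := by positivity
    linarith

end

end Pool.Agent.MP_05b6ce_an.Sh
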