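import Pool.Agent.MP_05b6ce_an.Main

set_option autoImplicit false

namespace Pool.Agent.MP_05b6ce_an.Sh

open scoped InnerProductSpace
open Finset Filter Topology MeasureTheory

theorem jensen_Low (h : ℂ → ℂ) {ρ : ℝ} (hρ : 0 < ρ) (ha : AnalyticOnNhd ℂ h (Metric.closedBall 0 ρ))
    (h0 : h 0 ≠ 0) : Real.log ‖h 0‖ ≤ Real.circleAverage (fun z => Real.log ‖h z‖) 0 ρ := by
  have ha' : AnalyticOnNhd ℂ h (Metric.closedBall 0 |ρ|) := by rwa [abs_of_pos hρ]
  rw [ha'.circleAverage_log_norm hρ.ne' h0]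
  refine le_add_of_nonneg_left (finsum_nonneg fun u => ?_)
  by_cases hu : u ∈ Metric.closedBall (0 : ℂ) |ρ|
  · refine mul_nonneg (by exact_mod_cast MeromorphicOn.AnalyticOnNhd.divisor_nonneg ha' u) ?_
    by_cases hu0 : u = 0
    · simp [hu0]
    · refine Real.log_nonneg ?_
      rw [zero_sub, norm_neg, ← div_eq_mul_inv, one_le_div (norm_pos_iff.2 hu0)]
      simpa [abs_of_pos hρ] using hu
  · simp [hu]

theorem pt_Low {a p M : ℝ} {h : ℂ} (ha : 0 < a) (hp : 0 < p) (hM : p ≤ M) (hh : ‖h‖ = p * a) :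
    -Real.log a ≤ Real.log M + (‖h - 1‖ - Real.log ‖h‖) - ‖h - 1‖ ∧
      0 ≤ ‖h - 1‖ - Real.log ‖h‖ := by
  constructor
  · rw [hh, Real.log_mul hp.ne' ha.ne']
    have := Real.log_le_log hp hM
    linarith
  · have h1 : Real.log ‖h‖ ≤ ‖h‖ - 1 := Real.log_le_sub_one_of_pos (by rw [hh]; positivity)
    have h2 : ‖h‖ - ‖(1 : ℂ)‖ ≤ ‖h - 1‖ := norm_sub_norm_le _ _
    rw [norm_one] at h2
    linarith

theorem low_bound (A : ℂ → ℂ) (hA : DifferentiableOn ℂ A (Metric.ball 0 1))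
    (h0 : ∀ z : ℂ, ‖z‖ < 1 → A z ≠ 0)
    (happ : ∀ δ > 0, ∃ p : Polynomial ℂ, ∀ ρ : ℝ, 0 ≤ ρ → ρ < 1 →
      Real.circleAverage (fun z => ‖p.eval z * A z - 1‖) 0 ρ ≤ δ) :
    ∀ ε > 0, ∃ C : ℝ, ∀ z : ℂ, ‖z‖ < 1 → ‖(A z)⁻¹‖ ≤ C * Real.exp (ε / (1 - ‖z‖)) := by
  intro ε hε
  obtain ⟨δ, hδ0, hδ1, hδ2⟩ : ∃ δ : ℝ, 0 < δ ∧ δ ≤ ε / 12 ∧ δ ≤ 1 / 2 :=
    ⟨min (ε / 12) (1 / 2), by positivity, min_le_left _ _, min_le_right _ _⟩
  obtain ⟨p, hp⟩ := happ δ hδ0
  have hz0 : ‖p.eval 0 * A 0 - 1‖ ≤ δ := by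
    simpa only [Real.circleAverage_zero] using hp 0 le_rfl one_pos
  have hl : 1 - δ ≤ ‖p.eval 0 * A 0‖ := by
    have := norm_sub_norm_le (1 : ℂ) (p.eval 0 * A 0)
    rw [norm_one, norm_sub_rev] at this
    linarith
  have hh0 : p.eval 0 * A 0 ≠ 0 := norm_pos_iff.1 (by linarith)
  have hp0 : p ≠ 0 := fun e => hh0 (by simp [e])
  have hlog : -(2 * δ) ≤ Real.log ‖p.eval 0 * A 0‖ := by
    have h1 : 0 < 1 - δ := by linarith
    have h2 := Real.one_sub_inv_le_log_of_pos h1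
    have h3 := Real.log_le_log h1 hl
    have h4 : (1 - δ)⁻¹ ≤ 1 + 2 * δ := by
      rw [inv_le_iff_one_le_mul₀ h1]; nlinarith
    linarith
  obtain ⟨M, hM⟩ := (isCompact_closedBall (0 : ℂ) 1).exists_bound_of_continuousOn
    (f := fun z => p.eval z) p.continuous.continuousOn
  have hM0 : 0 < M := lt_of_lt_of_le (norm_pos_iff.2 (left_ne_zero_of_mul hh0)) (hM 0 (by simp))
  refine ⟨M, fun z hz => ?_⟩
  have hr := norm_nonneg z
  obtain ⟨ρ, ⟨hρ1, hρ2⟩, hρ3⟩ : ∃ ρ ∈ Set.Ioo ((1 + ‖z‖) / 2) 1,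
      ρ ∉ ((p.roots.toFinset.image fun w => ‖w‖ : Finset ℝ) : Set ℝ) :=
    (Set.Ioo_infinite (by linarith)).exists_notMem_finite (Finset.finite_toSet _)
  have hρ0 : 0 < ρ := by linarith
  have hzρ : z ∈ Metric.ball (0 : ℂ) ρ := by simp; linarith
  have han : AnalyticOnNhd ℂ A (Metric.closedBall 0 ρ) :=
    (hA.analyticOnNhd Metric.isOpen_ball).mono (Metric.closedBall_subset_ball hρ2)
  have hne : ∀ w ∈ Metric.closedBall (0 : ℂ) ρ, A w ≠ 0 := fun w hw =>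
    h0 w (lt_of_le_of_lt (by simpa using hw) hρ2)
  have hpne : ∀ w ∈ Metric.sphere (0 : ℂ) ρ, p.eval w ≠ 0 := fun w hw e => hρ3 (by
    simp only [Finset.coe_image, Set.mem_image, Finset.mem_coe, Multiset.mem_toFinset]
    exact ⟨w, (Polynomial.mem_roots hp0).2 e, by simpa using hw⟩)
  have hhan : AnalyticOnNhd ℂ (fun w => p.eval w * A w) (Metric.closedBall 0 ρ) := fun w hw =>
    (p.differentiable.analyticAt w).mul (han w hw)
  have hcA : ContinuousOn A (Metric.sphere 0 ρ) :=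
    han.continuousOn.mono Metric.sphere_subset_closedBall
  have hch : ContinuousOn (fun w => p.eval w * A w) (Metric.sphere 0 ρ) :=
    hhan.continuousOn.mono Metric.sphere_subset_closedBall
  have c1 : ContinuousOn (fun w => ‖p.eval w * A w - 1‖) (Metric.sphere 0 ρ) :=
    (hch.sub continuousOn_const).norm
  have c2 : ContinuousOn (fun w => Real.log ‖p.eval w * A w‖) (Metric.sphere 0 ρ) :=
    hch.norm.log fun w hw => norm_ne_zero_iff.2
      (mul_ne_zero (hpne w hw) (hne w (Metric.sphere_subset_closedBall hw)))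
  have c3 : ContinuousOn (fun w => Real.log ‖A w‖) (Metric.sphere 0 ρ) :=
    hcA.norm.log fun w hw => norm_ne_zero_iff.2 (hne w (Metric.sphere_subset_closedBall hw))
  have c4 : ContinuousOn (poissonKernel 0 z) (Metric.sphere 0 ρ) := by
    rw [poissonKernel_eq_re_herglotzRieszKernel]
    have := continuousOn_herglotzRieszKernel_sphere hzρ
    rw [abs_of_pos hρ0] at this
    exact Complex.continuous_re.comp_continuousOn this
  have hP : ∀ w ∈ Metric.sphere (0 : ℂ) ρ,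
      0 ≤ poissonKernel 0 z w ∧ poissonKernel 0 z w ≤ 4 / (1 - ‖z‖) := fun w hw => by
    have e1 := re_herglotzRieszKernel_le hw hzρ
    have e2 := le_re_herglotzRieszKernel hw hzρ
    rw [poissonKernel_eq_re_herglotzRieszKernel]
    simp only [Function.comp_apply, herglotzRieszKernel_def]
    simp only [sub_zero] at e1 e2 ⊢
    refine ⟨le_trans (div_nonneg (by linarith) (by linarith)) e2, e1.trans ?_⟩
    rw [div_le_div_iff₀ (by linarith) (by linarith)]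
    nlinarith
  have hu := InnerProductSpace.HarmonicOnNhd.circleAverage_poissonKernel_smul
    (f := fun w => Real.log ‖A w‖) (fun w hw => (han w hw).harmonicAt_log_norm (hne w hw)) hzρ
  have hone := InnerProductSpace.HarmonicOnNhd.circleAverage_poissonKernel_smul
    (f := fun _ => -Real.log M) (fun w _ => InnerProductSpace.harmonicAt_const _) hzρ
  have hj := jensen_Low _ hρ0 hhan hh0
  have hg : Real.circleAverage (fun w => ‖p.eval w * A w - 1‖ - Real.log ‖p.eval w * A w‖) 0 ρ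
      ≤ 3 * δ := by
    rw [Real.circleAverage_fun_sub (c1.circleIntegrable hρ0.le) (c2.circleIntegrable hρ0.le)]
    have := hp ρ hρ0.le hρ2
    linarith
  have i1 : CircleIntegrable (poissonKernel 0 z • fun _ : ℂ => -Real.log M) 0 ρ :=
    (c4.smul continuousOn_const).circleIntegrable hρ0.le
  have i2 : CircleIntegrable (fun w => (4 / (1 - ‖z‖)) •
      (‖p.eval w * A w - 1‖ - Real.log ‖p.eval w * A w‖)) 0 ρ :=
    ((c1.sub c2).const_smul (4 / (1 - ‖z‖))).circleIntegrable hρ0.le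
  have key := Real.circleAverage_mono (f₁ := fun w => (poissonKernel 0 z • fun _ : ℂ =>
      -Real.log M) w - (4 / (1 - ‖z‖)) • (‖p.eval w * A w - 1‖ - Real.log ‖p.eval w * A w‖))
    (f₂ := poissonKernel 0 z • fun w => Real.log ‖A w‖) (i1.sub i2)
    ((c4.smul c3).circleIntegrable hρ0.le) fun w hw => by
      rw [abs_of_pos hρ0] at hw
      obtain ⟨e1, e2⟩ := hP w hw
      have hw' := Metric.sphere_subset_closedBall hw
      obtain ⟨e3, e4⟩ := pt_Low (norm_pos_iff.2 (hne w hw')) (norm_pos_iff.2 (hpne w hw))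
        (hM w (Metric.closedBall_subset_closedBall hρ2.le hw')) (norm_mul _ _)
      have e5 := mul_le_mul_of_nonneg_right e2 e4
      have e6 := mul_le_mul_of_nonneg_left e3 e1
      have e7 := mul_nonneg e1 (norm_nonneg (p.eval w * A w - 1))
      simp only [Pi.smul_apply', smul_eq_mul]
      nlinarith
  rw [Real.circleAverage_fun_sub i1 i2, hone, hu, Real.circleAverage_fun_smul, smul_eq_mul] at key
  have h1z : 0 < 1 - ‖z‖ := by linarith
  have e1 : 4 / (1 - ‖z‖) * Real.circleAverage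
      (fun w => ‖p.eval w * A w - 1‖ - Real.log ‖p.eval w * A w‖) 0 ρ ≤ ε / (1 - ‖z‖) := by
    refine (mul_le_mul_of_nonneg_left hg (by positivity)).trans ?_
    rw [div_mul_eq_mul_div]
    exact div_le_div_of_nonneg_right (by linarith) h1z.le
  have hAz : 0 < ‖A z‖ := norm_pos_iff.2 (h0 z hz)
  rw [norm_inv, ← Real.exp_log (inv_pos.2 hAz), Real.log_inv, ← Real.exp_log hM0, ← Real.exp_add]
  exact Real.exp_le_exp.2 (by linarith)

theorem kz_Cyc (z : ℂ) (hz : ‖z‖ < 1) :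
    ∃ g : H, g 0 = 1 ∧ ∀ x : H, HasSum (fun k => x k * z ^ k) ⟪g, x⟫_ℂ := by
  have hs : Summable fun n => ‖starRingEnd ℂ z ^ n‖ ^ 2 := by
    refine (summable_geometric_of_lt_one (sq_nonneg ‖z‖) (by nlinarith [norm_nonneg z])).congr
      fun n => ?_
    rw [norm_pow, Complex.norm_conj, ← pow_mul, ← pow_mul, mul_comm]
  refine ⟨mk _ hs, by simp, fun x => ?_⟩
  simpa using lp.hasSum_inner (𝕜 := ℂ) (mk _ hs) x

theorem shift_Cyc {z : ℂ} {g : H} (hg : ∀ x : H, HasSum (fun k => x k * z ^ k) ⟪g, x⟫_ℂ) (a : H)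
    (j : ℕ) : ⟪g, (S ^ j) a⟫_ℂ = z ^ j * ⟪g, a⟫_ℂ := by
  induction j with
  | zero => simp
  | succ j ih =>
    have h1 := (hasSum_nat_add_iff' 1).2 (hg (S ((S ^ j) a)))
    simp only [S_succ, range_one, sum_singleton, S_zero, zero_mul, sub_zero] at h1
    have h2 := (hg ((S ^ j) a)).mul_left z
    simp only [pow_succ', mul_left_comm _ z] at h1
    rw [pow_succ', mul_ap, h1.unique h2, ih]
    ring

theorem int_exp_Cyc (m : ℤ) :
    ∫ θ in (0 : ℝ)..(2 * Real.pi), Complex.exp ((m : ℂ) * Complex.I * θ) =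
      if m = 0 then ((2 * Real.pi : ℝ) : ℂ) else 0 := by
  split_ifs with h
  · simp [h]
  · have hm : (m : ℂ) * Complex.I ≠ 0 := mul_ne_zero (Int.cast_ne_zero.2 h) Complex.I_ne_zero
    rw [integral_exp_mul_complex hm]
    have e : (m : ℂ) * Complex.I * ((2 * Real.pi : ℝ) : ℂ) = m * (2 * Real.pi * Complex.I) := by
      push_cast
      ring
    rw [e, Complex.exp_int_mul_two_pi_mul_I]
    simp

theorem parseval_Cyc (s : Finset ℕ) (c : ℕ → ℂ) (r : ℝ) (h0 : 0 ≤ r) (h1 : r ≤ 1) :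
    ∫ θ in (0 : ℝ)..(2 * Real.pi), ‖∑ k ∈ s, c k * (r * Complex.exp (θ * Complex.I)) ^ k‖ ^ 2 ≤
      2 * Real.pi * ∑ k ∈ s, ‖c k‖ ^ 2 := by
  have key : ∀ θ : ℝ, ((‖∑ k ∈ s, c k * (r * Complex.exp (θ * Complex.I)) ^ k‖ ^ 2 : ℝ) : ℂ)
      = ∑ k ∈ s, ∑ l ∈ s, (c k * starRingEnd ℂ (c l) * ((r ^ (k + l) : ℝ) : ℂ)) *
        Complex.exp ((((k : ℤ) - l : ℤ) : ℂ) * Complex.I * θ) := by
    intro θ
    rw [Complex.ofReal_pow, ← Complex.mul_conj', map_sum, sum_mul_sum]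
    refine sum_congr rfl fun k _ => sum_congr rfl fun l _ => ?_
    rw [map_mul, map_pow, map_mul, Complex.conj_ofReal, ← Complex.exp_conj,
      map_mul, Complex.conj_ofReal, Complex.conj_I, mul_pow, mul_pow, ← Complex.exp_nat_mul,
      ← Complex.exp_nat_mul]
    have : Complex.exp ((((k : ℤ) - l : ℤ) : ℂ) * Complex.I * θ) =
        Complex.exp (k * (θ * Complex.I)) * Complex.exp (l * (θ * -Complex.I)) := by
      rw [← Complex.exp_add]
      congr 1
      push_cast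
      ring
    rw [this]
    push_cast
    ring
  have h2 : ((∫ θ in (0 : ℝ)..(2 * Real.pi),
      ‖∑ k ∈ s, c k * (r * Complex.exp (θ * Complex.I)) ^ k‖ ^ 2 : ℝ) : ℂ) =
      ((∑ k ∈ s, ‖c k‖ ^ 2 * r ^ (k + k) * (2 * Real.pi) : ℝ) : ℂ) := by
    rw [← intervalIntegral.integral_ofReal]
    simp only [key]
    rw [intervalIntegral.integral_finsetSum fun k _ => Continuous.intervalIntegrable
      (by fun_prop) _ _, Complex.ofReal_sum]
    refine sum_congr rfl fun k hk => ?_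
    rw [intervalIntegral.integral_finsetSum fun l _ => Continuous.intervalIntegrable
      (by fun_prop) _ _, sum_eq_single k]
    · rw [intervalIntegral.integral_const_mul, int_exp_Cyc, if_pos (sub_self _), Complex.mul_conj']
      push_cast
      ring
    · intro l _ hl
      rw [intervalIntegral.integral_const_mul, int_exp_Cyc, if_neg, mul_zero]
      exact sub_ne_zero.2 fun h => hl (Nat.cast_injective h).symm
    · exact fun h => absurd hk h
  rw [Complex.ofReal_injective h2, mul_sum]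
  refine sum_le_sum fun k _ => ?_
  have h3 : r ^ (k + k) ≤ 1 := pow_le_one₀ h0 h1
  have h4 := mul_le_mul_of_nonneg_left h3 (sq_nonneg ‖c k‖)
  nlinarith [Real.pi_pos]

theorem avg_Cyc (x : H) {δ ρ : ℝ} (hδ : 0 < δ) (hx : ‖x‖ ≤ δ) (h0 : 0 ≤ ρ) (h1 : ρ < 1) :
    Real.circleAverage (fun z => ‖∑' k, x k * z ^ k‖) 0 ρ ≤ δ := by
  have hp := Real.pi_pos
  have hb : ∀ k, ‖x k‖ ≤ δ := fun k => (lp.norm_apply_le_norm (by norm_num) x k).trans hx
  have lim : Tendsto (fun N : ℕ => δ + δ * ρ ^ N * (1 - ρ)⁻¹) atTop (𝓝 (δ + δ * 0 * (1 - ρ)⁻¹)) :=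
    (((tendsto_pow_atTop_nhds_zero_of_lt_one h0 h1).const_mul δ).mul_const _).const_add δ
  rw [mul_zero, zero_mul, add_zero] at lim
  refine ge_of_tendsto' lim fun N => ?_
  have p1 := parseval_Cyc (range N) x ρ h0 h1.le
  have p2 : ∑ k ∈ range N, ‖x k‖ ^ 2 ≤ δ ^ 2 :=
    ((summable_sq x).sum_le_tsum _ fun _ _ => sq_nonneg _).trans
      ((norm_sq_eq x).symm.le.trans (pow_le_pow_left₀ (norm_nonneg _) hx 2))
  have p3 := intervalIntegral.norm_integral_le_of_norm_le (μ := volume) (a := 0)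
    (b := 2 * Real.pi) (by positivity) (f := fun θ => ‖∑' k, x k * circleMap 0 ρ θ ^ k‖)
    (g := fun θ => (δ / 2 + δ * ρ ^ N * (1 - ρ)⁻¹) + (2 * δ)⁻¹ *
      ‖∑ k ∈ range N, x k * (ρ * Complex.exp (θ * Complex.I)) ^ k‖ ^ 2)
    (ae_of_all _ fun θ _ => ?_) (Continuous.intervalIntegrable (by fun_prop) _ _)
  · rw [intervalIntegral.integral_add intervalIntegrable_const
      (Continuous.intervalIntegrable (by fun_prop) _ _), intervalIntegral.integral_const_mul,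
      intervalIntegral.integral_const, sub_zero, smul_eq_mul] at p3
    have p4 := mul_le_mul_of_nonneg_left (p1.trans (mul_le_mul_of_nonneg_left p2 (by positivity)))
      (show 0 ≤ (2 * δ)⁻¹ by positivity)
    rw [show (2 * δ)⁻¹ * (2 * Real.pi * δ ^ 2) = Real.pi * δ by field_simp] at p4
    rw [Real.circleAverage_def, smul_eq_mul, inv_mul_le_iff₀ (by positivity)]
    linarith [Real.le_norm_self (∫ θ in (0 : ℝ)..2 * Real.pi, ‖∑' k, x k * circleMap 0 ρ θ ^ k‖)]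
  · have hz : ‖circleMap 0 ρ θ‖ = ρ := by simp [abs_of_nonneg h0]
    obtain ⟨g, -, hg⟩ := kz_Cyc (circleMap 0 ρ θ) (hz.trans_lt h1)
    have q1 : ‖∑' k, x (k + N) * circleMap 0 ρ θ ^ (k + N)‖ ≤ δ * ρ ^ N * (1 - ρ)⁻¹ :=
      tsum_of_norm_bounded ((hasSum_geometric_of_lt_one h0 h1).mul_left (δ * ρ ^ N)) fun k => by
        rw [norm_mul, norm_pow, hz, pow_add, mul_assoc, mul_comm (ρ ^ N)]
        exact mul_le_mul_of_nonneg_right (hb _) (by positivity)
    rw [norm_norm, ← (hg x).summable.sum_add_tsum_nat_add N]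
    refine (norm_add_le _ _).trans ?_
    rw [circleMap_zero] at q1 ⊢
    generalize ‖∑ k ∈ range N, x k * (ρ * Complex.exp (θ * Complex.I)) ^ k‖ = R
    have : R ≤ δ / 2 + (2 * δ)⁻¹ * R ^ 2 := by
      rw [← sub_le_iff_le_add', le_inv_mul_iff₀ (by positivity)]
      nlinarith [sq_nonneg (R - δ)]
    linarith

theorem cyc_analytic (a : H) (hout : ∀ g : H, (∀ j, ⟪g, (S ^ j) a⟫_ℂ = 0) → g = 0) :
    DifferentiableOn ℂ (fun z : ℂ => ∑' k, a k * z ^ k) (Metric.ball 0 1) ∧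
    (∀ z : ℂ, ‖z‖ < 1 → ∑' k, a k * z ^ k ≠ 0) ∧
    ∀ δ > 0, ∃ p : Polynomial ℂ, ∀ ρ : ℝ, 0 ≤ ρ → ρ < 1 →
      Real.circleAverage (fun z => ‖p.eval z * (∑' k, a k * z ^ k) - 1‖) 0 ρ ≤ δ := by
  refine ⟨fun z hz => ?_, fun z hz h => ?_, fun δ hδ => ?_⟩
  · obtain ⟨r, h1, h2⟩ := exists_between (mem_ball_zero_iff.1 hz)
    have h0 : 0 ≤ r := (norm_nonneg z).trans h1.le
    have := Complex.differentiableOn_tsum_of_summable_norm (U := Metric.ball 0 r)
      (F := fun k z => a k * z ^ k) ((summable_geometric_of_lt_one h0 h2).mul_left ‖a‖)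
      (fun k => by fun_prop) Metric.isOpen_ball fun k w hw => by
        rw [norm_mul, norm_pow]
        exact mul_le_mul (lp.norm_apply_le_norm (by norm_num) a k)
          (pow_le_pow_left₀ (norm_nonneg _) (mem_ball_zero_iff.1 hw).le k) (by positivity)
          (norm_nonneg _)
    exact (this.differentiableAt (Metric.isOpen_ball.mem_nhds
      (mem_ball_zero_iff.2 h1))).differentiableWithinAt
  · obtain ⟨g, g0, hg⟩ := kz_Cyc z hz
    have := hout g fun j => by rw [shift_Cyc hg, ← (hg a).tsum_eq, h, mul_zero]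
    simp [this] at g0
  · have hd : (Submodule.span ℂ (Set.range fun j => (S ^ j) a)).topologicalClosure = ⊤ := by
      rw [Submodule.topologicalClosure_eq_top_iff, Submodule.eq_bot_iff]
      exact fun g hg => hout g fun j =>
        (Submodule.mem_orthogonal' _ _).1 hg _ (Submodule.subset_span ⟨j, rfl⟩)
    have h1 : e0 ∈ closure ((Submodule.span ℂ (Set.range fun j => (S ^ j) a) : Submodule ℂ H) :
        Set H) := by
      rw [← Submodule.topologicalClosure_coe, hd]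
      trivial
    obtain ⟨y, hy, h2⟩ := Metric.mem_closure_iff.1 h1 δ hδ
    obtain ⟨c, rfl⟩ := Finsupp.mem_span_range_iff_exists_finsupp.1 hy
    rw [dist_comm, dist_eq_norm] at h2
    refine ⟨c.sum fun j t => Polynomial.C t * Polynomial.X ^ j, fun ρ h0 h3 =>
      le_trans (le_of_eq ?_) (avg_Cyc _ hδ h2.le h0 h3)⟩
    refine Real.circleAverage_congr_sphere fun z hz => ?_
    obtain ⟨g, g0, hg⟩ := kz_Cyc z (by
      rw [mem_sphere_zero_iff_norm.1 hz, abs_of_nonneg h0]; exact h3)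
    simp only
    rw [(hg _).tsum_eq, (hg _).tsum_eq, inner_sub_right, ← inner_conj_symm g e0, inner_e0_left, g0,
      map_one, Finsupp.sum, Finsupp.sum, inner_sum, Polynomial.eval_finsetSum, sum_mul]
    simp only [inner_smul_right, shift_Cyc hg, Polynomial.eval_mul, Polynomial.eval_C,
      Polynomial.eval_pow, Polynomial.eval_X, mul_assoc]

theorem cv_Gro {x y z : ℕ → ℂ} (h : ∀ n, z n = conv x y n) :
    PowerSeries.mk z = PowerSeries.mk x * PowerSeries.mk y := by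
  ext n
  rw [PowerSeries.coeff_mul, Finset.Nat.sum_antidiagonal_eq_sum_range_succ_mk,
    PowerSeries.coeff_mk, h]
  simp [conv]

theorem uniq_Gro {c c' : ℕ → ℂ} {f : ℂ → ℂ}
    (h : ∀ z : ℂ, ‖z‖ < 1 → HasSum (fun n => c n * z ^ n) (f z))
    (h' : ∀ z : ℂ, ‖z‖ < 1 → HasSum (fun n => c' n * z ^ n) (f z)) (n : ℕ) : c n = c' n := by
  have key : ∀ c : ℕ → ℂ, (∀ z : ℂ, ‖z‖ < 1 → HasSum (fun n => c n * z ^ n) (f z)) →
      HasFPowerSeriesAt f (FormalMultilinearSeries.ofScalars ℂ c) 0 := fun c h => by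
    rw [hasFPowerSeriesAt_iff]
    filter_upwards [Metric.ball_mem_nhds (0 : ℂ) one_pos] with z hz
    simpa [FormalMultilinearSeries.coeff_ofScalars, mul_comm] using h z (mem_ball_zero_iff.1 hz)
  simpa [FormalMultilinearSeries.coeff_ofScalars] using
    congrArg (fun p => p.coeff n) ((key c h).eq_formalMultilinearSeries (key c' h'))

theorem term_Gro (x : H) {z : ℂ} {r : ℝ} (hz : ‖z‖ ≤ r) (k : ℕ) :
    ‖x k * z ^ k‖ ≤ ‖x‖ * r ^ k := by
  rw [norm_mul, norm_pow]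
  gcongr
  exact lp.norm_apply_le_norm (by norm_num) x k

theorem sum_Gro (x : H) {z : ℂ} (hz : ‖z‖ < 1) :
    (Summable fun k => ‖x k * z ^ k‖) ∧ ‖∑' k, x k * z ^ k‖ ≤ ‖x‖ * (1 - ‖z‖)⁻¹ := by
  have h := (hasSum_geometric_of_lt_one (norm_nonneg z) hz).mul_left ‖x‖
  exact ⟨h.summable.of_nonneg_of_le (fun _ => norm_nonneg _) (term_Gro x le_rfl),
    tsum_of_norm_bounded h (term_Gro x le_rfl)⟩

theorem diff_Gro (x : H) :
    DifferentiableOn ℂ (fun z : ℂ => ∑' k, x k * z ^ k) (Metric.ball 0 1) := by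
  intro z hz
  obtain ⟨r, h1, h2⟩ := exists_between (mem_ball_zero_iff.1 hz)
  have h := Complex.differentiableOn_tsum_of_summable_norm (U := Metric.ball 0 r)
    (F := fun k z => x k * z ^ k)
    ((summable_geometric_of_lt_one ((norm_nonneg z).trans h1.le) h2).mul_left ‖x‖)
    (fun k => by fun_prop) Metric.isOpen_ball
    fun k w hw => term_Gro x (mem_ball_zero_iff.1 hw).le k
  exact (h.differentiableAt
    (Metric.isOpen_ball.mem_nhds (mem_ball_zero_iff.2 h1))).differentiableWithinAt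

theorem cauchy_Gro (a b : H) (φ : ℕ → ℂ) (hab : ∀ n, conv a φ n = b n)
    (h0 : ∀ z : ℂ, ‖z‖ < 1 → ∑' k, a k * z ^ k ≠ 0) {r M : ℝ} (r0 : 0 < r) (r1 : r < 1)
    (hM : ∀ z : ℂ, ‖z‖ = r → ‖(∑' k, a k * z ^ k)⁻¹ * ∑' k, b k * z ^ k‖ ≤ M) (k : ℕ) :
    ‖φ k‖ ≤ M / r ^ k := by
  obtain ⟨F, hF⟩ : ∃ F : ℂ → ℂ, F = fun z => (∑' k, a k * z ^ k)⁻¹ * ∑' k, b k * z ^ k := ⟨_, rfl⟩
  have dF : DifferentiableOn ℂ F (Metric.ball 0 1) :=
    hF ▸ ((diff_Gro a).inv fun z hz => h0 z (mem_ball_zero_iff.1 hz)).mul (diff_Gro b)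
  obtain ⟨ψ, hψ⟩ : ∃ ψ : ℕ → ℂ, ψ = fun n => (n.factorial : ℂ)⁻¹ * iteratedDeriv n F 0 := ⟨_, rfl⟩
  have s1 : ∀ z : ℂ, ‖z‖ < 1 → HasSum (fun n => ψ n * z ^ n) (F z) := fun z hz => by
    refine (congrArg (HasSum · (F z)) (funext fun n => ?_)).mp
      (Complex.hasSum_taylorSeries_on_ball dF (mem_ball_zero_iff.2 hz))
    simp only [hψ, sub_zero, smul_eq_mul]
    ring
  have s2 : ∀ n, b n = conv a ψ n := uniq_Gro (f := fun z => ∑' k, b k * z ^ k)
    (fun z hz => (sum_Gro b hz).1.of_norm.hasSum) fun z hz => by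
      have h1 := hasSum_sum_range_mul_of_summable_norm (sum_Gro a hz).1
        (summable_norm_iff.2 (s1 z hz).summable)
      rw [(s1 z hz).tsum_eq, hF, mul_inv_cancel_left₀ (h0 z hz)] at h1
      refine (congrArg (HasSum · _) (funext fun n => Eq.symm ?_)).mp h1
      rw [conv, sum_mul]
      refine sum_congr rfl fun k hk => ?_
      rw [show z ^ n = z ^ k * z ^ (n - k) by
        rw [← pow_add, Nat.add_sub_cancel' (Nat.lt_succ_iff.1 (mem_range.1 hk))]]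
      ring
  have a0 : PowerSeries.mk (fun k => a k) ≠ 0 := fun e => h0 0 (by simp) (by
    have : ∀ k, a k = 0 := fun k => by simpa using congrArg (PowerSeries.coeff k) e
    simp [this])
  have s3 : φ k = ψ k := by
    simpa using congrArg (PowerSeries.coeff k)
      (mul_left_cancel₀ a0 ((cv_Gro fun n => (hab n).symm).symm.trans (cv_Gro s2)))
  have h1 := Complex.norm_iteratedDeriv_le_of_forall_mem_sphere_norm_le k r0
    (dF.diffContOnCl_ball (Metric.closedBall_subset_ball r1))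
    (C := M) fun z hz => hF ▸ hM z (mem_sphere_zero_iff_norm.1 hz)
  have f0 : (0 : ℝ) < k.factorial := by positivity
  rw [s3, hψ, norm_mul, norm_inv, Complex.norm_natCast, inv_mul_le_iff₀ f0, ← mul_div_assoc]
  exact h1

theorem coeff_growth (a b : H) (φ : ℕ → ℂ) (hab : ∀ n, conv a φ n = b n)
    (h0 : ∀ z : ℂ, ‖z‖ < 1 → ∑' k, a k * z ^ k ≠ 0)
    (hlow : ∀ ε > 0, ∃ C : ℝ, ∀ z : ℂ, ‖z‖ < 1 →
      ‖(∑' k, a k * z ^ k)⁻¹‖ ≤ C * Real.exp (ε / (1 - ‖z‖))) :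
    ∀ ε > 0, ∃ C : ℝ, ∀ k : ℕ, ‖φ k‖ ≤ C * Real.exp (ε * Real.sqrt k) := by
  intro ε hε
  obtain ⟨s, s0, rfl⟩ : ∃ s : ℝ, 0 < s ∧ ε = 3 * s := ⟨ε / 3, by positivity, by ring⟩
  obtain ⟨e, e0, he⟩ : ∃ e : ℝ, 0 < e ∧ s ^ 2 = 2 * e := ⟨s ^ 2 / 2, by positivity, by ring⟩
  obtain ⟨C, hC⟩ := hlow e e0
  have C0 : 0 ≤ C := nonneg_of_mul_nonneg_left ((norm_nonneg _).trans (hC 0 (by simp)))
    (Real.exp_pos _)
  obtain ⟨D, D0, hD⟩ : ∃ D : ℝ, 0 ≤ D ∧ ∀ x : ℝ, 0 < x → x ≤ 1 / 2 → ∀ k : ℕ,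
      ‖φ k‖ ≤ D * Real.exp (s ^ 2 / x + k * (2 * x)) := by
    refine ⟨C * (‖b‖ / e), by positivity, fun x x0 x1 k => ?_⟩
    refine (cauchy_Gro a b φ hab h0 (r := 1 - x) (M := C * (‖b‖ / e) * Real.exp (s ^ 2 / x))
      (by linarith) (by linarith) (fun z hz => ?_) k).trans ?_
    · have h1 := hC z (by linarith)
      have h2 := (sum_Gro b (z := z) (by linarith)).2
      rw [hz, sub_sub_cancel] at h1 h2
      have h3 : x⁻¹ ≤ Real.exp (e / x) / e := by
        rw [le_div_iff₀ e0, mul_comm, ← div_eq_mul_inv]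
        linarith [Real.add_one_le_exp (e / x)]
      rw [norm_mul, he, show 2 * e / x = e / x + e / x by ring, Real.exp_add]
      refine (mul_le_mul h1 (h2.trans (mul_le_mul_of_nonneg_left h3 (norm_nonneg _)))
        (norm_nonneg _) (by positivity)).trans_eq (by ring)
    · have h1 : 1 ≤ Real.exp (2 * x) * (1 - x) := by
        nlinarith [Real.add_one_le_exp (2 * x)]
      rw [div_le_iff₀ (pow_pos (by linarith) _), Real.exp_add, Real.exp_nat_mul, ← mul_assoc,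
        mul_assoc _ (_ ^ k), ← mul_pow]
      exact le_mul_of_one_le_right (by positivity) (one_le_pow₀ h1)
  refine ⟨D * Real.exp (6 * s ^ 2), fun k => ?_⟩
  obtain ⟨y, y0, hy, hy2⟩ : ∃ y : ℝ, 0 ≤ y ∧ Real.sqrt k = y ∧ (k : ℝ) = y ^ 2 :=
    ⟨_, Real.sqrt_nonneg _, rfl, (Real.sq_sqrt (by positivity)).symm⟩
  rw [hy, mul_assoc D, ← Real.exp_add]
  rcases le_total (2 * s) y with h | h
  · have y1 : 0 < y := by linarith
    refine (hD (s / y) (by positivity) (by rw [div_le_iff₀ y1]; linarith) k).trans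
      (mul_le_mul_of_nonneg_left (Real.exp_le_exp.2 ?_) D0)
    rw [hy2, show s ^ 2 / (s / y) + y ^ 2 * (2 * (s / y)) = 3 * s * y by field_simp; ring]
    linarith [sq_nonneg s]
  · refine (hD (1 / 2) (by norm_num) le_rfl k).trans
      (mul_le_mul_of_nonneg_left (Real.exp_le_exp.2 ?_) D0)
    rw [hy2]
    linarith [pow_le_pow_left₀ y0 h 2, mul_nonneg s0.le y0]

theorem sh_Fub (x y : H) (j : ℕ) :
    HasSum (fun n => starRingEnd ℂ (x n) * y (j + n)) ⟪(S ^ j) x, y⟫_ℂ := by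
  have h4 := (hasSum_nat_add_iff' j).2 (lp.hasSum_inner (𝕜 := ℂ) ((S ^ j) x) y)
  have h5 : ∑ i ∈ range j, ⟪(S ^ j) x i, y i⟫_ℂ = 0 := by
    refine Finset.sum_eq_zero fun i hi => ?_
    rw [S_pow_apply, if_neg (by have := mem_range.1 hi; omega), inner_zero_left]
  rw [h5, sub_zero] at h4
  have e : (fun n => starRingEnd ℂ (x n) * y (j + n)) =
      fun n => ⟪(S ^ j) x (n + j), y (n + j)⟫_ℂ := funext fun n => by
    rw [S_pow_apply, if_pos (by omega)]
    simp [add_comm, mul_comm]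
  rw [e]
  exact h4

theorem exp_Fub {t : ℝ} (ht : 0 < t) : Summable fun k : ℕ => Real.exp (-(t * Real.sqrt k)) := by
  refine Summable.of_norm_bounded_eventually_nat
    ((Real.summable_one_div_nat_pow.2 one_lt_two).mul_left (24 / t ^ 4)) ?_
  filter_upwards [eventually_gt_atTop 0] with k hk
  have h0 : (0 : ℝ) < k := by exact_mod_cast hk
  have h1 := Real.pow_div_factorial_le_exp (t * Real.sqrt k) (by positivity) 4
  have h2 : (t * Real.sqrt k) ^ 4 = t ^ 4 * (k : ℝ) ^ 2 := by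
    rw [mul_pow, show Real.sqrt k ^ 4 = (Real.sqrt k ^ 2) ^ 2 by ring, Real.sq_sqrt h0.le]
  rw [h2, show ((Nat.factorial 4 : ℕ) : ℝ) = 24 by norm_num [Nat.factorial]] at h1
  rw [Real.norm_of_nonneg (Real.exp_pos _).le, Real.exp_neg]
  refine (inv_anti₀ (by positivity) h1).trans_eq ?_
  field_simp

theorem key_identity (a b f c : H) (φ : ℕ → ℂ) (hab : ∀ n, conv a φ n = b n)
    (hφ : ∀ ε > 0, ∃ C : ℝ, ∀ k : ℕ, ‖φ k‖ ≤ C * Real.exp (ε * Real.sqrt k))
    (γ C : ℝ) (hγ : 0 < γ) (hf : ∀ k : ℕ, ‖f k‖ ≤ C * Real.exp (-(γ * Real.sqrt k)))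
    (hc : ∀ m, Tendsto (fun N => ∑ n ∈ Finset.range N, starRingEnd ℂ (φ n) * f (m + n))
      atTop (𝓝 (c m))) (j : ℕ) :
    ⟪(S ^ j) b, f⟫_ℂ = ⟪(S ^ j) a, c⟫_ℂ := by
  obtain ⟨D, hD⟩ := hφ (γ / 2) (by positivity)
  have hD0 : 0 ≤ D := nonneg_of_mul_nonneg_left ((norm_nonneg _).trans (hD 0)) (Real.exp_pos _)
  have hC0 : 0 ≤ C := nonneg_of_mul_nonneg_left ((norm_nonneg _).trans (hf 0)) (Real.exp_pos _)
  let F : ℕ × ℕ → ℂ := fun p =>
    starRingEnd ℂ (a p.1) * (starRingEnd ℂ (φ p.2) * f (j + p.1 + p.2))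
  have he := exp_Fub (t := γ / 4) (by positivity)
  have hF : Summable F := by
    refine Summable.of_norm_bounded ((he.mul_of_nonneg he (fun _ => (Real.exp_pos _).le)
      fun _ => (Real.exp_pos _).le).mul_left (‖a‖ * (D * C))) fun p => ?_
    have h1 : ‖a p.1‖ ≤ ‖a‖ := lp.norm_apply_le_norm (by norm_num) a p.1
    have h2 : Real.sqrt p.1 ≤ Real.sqrt ((j + p.1 + p.2 : ℕ) : ℝ) :=
      Real.sqrt_le_sqrt (by exact_mod_cast (by omega : p.1 ≤ j + p.1 + p.2))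
    have h3 : Real.sqrt p.2 ≤ Real.sqrt ((j + p.1 + p.2 : ℕ) : ℝ) :=
      Real.sqrt_le_sqrt (by exact_mod_cast (by omega : p.2 ≤ j + p.1 + p.2))
    have h4 : Real.exp (γ / 2 * Real.sqrt p.2) *
        Real.exp (-(γ * Real.sqrt ((j + p.1 + p.2 : ℕ) : ℝ))) ≤
        Real.exp (-(γ / 4 * Real.sqrt p.1)) * Real.exp (-(γ / 4 * Real.sqrt p.2)) := by
      rw [← Real.exp_add, ← Real.exp_add]
      exact Real.exp_le_exp.2 (by nlinarith)
    simp only [F, norm_mul, RCLike.norm_conj]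
    rw [mul_assoc ‖a‖]
    refine mul_le_mul h1 ?_ (by positivity) (norm_nonneg _)
    refine (mul_le_mul (hD p.2) (hf _) (norm_nonneg _) (by positivity)).trans ?_
    rw [mul_mul_mul_comm]
    exact mul_le_mul_of_nonneg_left h4 (by positivity)
  have h1 : HasSum (fun k => starRingEnd ℂ (a k) * c (j + k)) (∑' p, F p) :=
    hF.hasSum.prod_fiberwise fun k => (hF.prod_factor k).hasSum_iff_tendsto_nat.2 (by
      simpa only [F, Finset.mul_sum] using (hc (j + k)).const_mul (starRingEnd ℂ (a k)))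
  have h2 : HasSum (fun l => starRingEnd ℂ (b l) * f (j + l)) (∑' p, F p) := by
    refine ((Equiv.hasSum_iff (Finset.HasAntidiagonal.sigmaAntidiagonalEquivProd (A := ℕ))).2
      hF.hasSum).sigma fun l => ?_
    refine (congrArg (HasSum _) ?_).mpr (hasSum_fintype _)
    rw [← hab, conv, map_sum, Finset.sum_mul]
    refine Eq.trans ?_ (Finset.sum_coe_sort (antidiagonal l) F).symm
    rw [Finset.Nat.sum_antidiagonal_eq_sum_range_succ_mk]
    refine Finset.sum_congr rfl fun k hk => ?_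
    have hk' : j + k + (l - k) = j + l := by have := mem_range.1 hk; omega
    simp only [F, hk', map_mul, mul_assoc]
  exact ((sh_Fub b f j).unique h2).trans ((sh_Fub a c j).unique h1).symm

theorem op_Lub (a : H) (h : ∀ g : H, ∃ p : H, (∀ n, p n = conv a g n) ∧ ‖p‖ ≤ 1 * ‖g‖) :
    ∃ P : H →L[ℂ] H, (∀ (g : H) n, P g n = conv a g n) ∧
      ∀ j, P (lp.single 2 j 1) = (S ^ j) a := by
  choose P hP hn using h
  let L : H →ₗ[ℂ] H :=
    { toFun := P
      map_add' := fun x y => lp.ext (funext fun n => by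
        simp [hP, conv, mul_add, Finset.sum_add_distrib])
      map_smul' := fun c x => lp.ext (funext fun n => by
        simp [hP, conv, Finset.mul_sum, mul_left_comm]) }
  refine ⟨L.mkContinuous 1 hn, hP, fun j => lp.ext (funext fun n => ?_)⟩
  change P _ n = _
  rw [hP, conv_comm, S_pow_apply, conv]
  simp [lp.single_apply, Pi.single_apply]

theorem isLUB_of_identity (a b f c : H)
    (hiso : ∀ g : H, ∃ p q : H, (∀ n, p n = conv a g n) ∧ (∀ n, q n = conv b g n) ∧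
      ‖p‖ ^ 2 + ‖q‖ ^ 2 = ‖g‖ ^ 2)
    (hout : ∀ g : H, (∀ j, ⟪g, (S ^ j) a⟫_ℂ = 0) → g = 0)
    (hid : ∀ j, ⟪(S ^ j) b, f⟫_ℂ = ⟪(S ^ j) a, c⟫_ℂ) :
    IsLUB {x : ℝ | ∃ g : ℕ → ℂ, Summable (fun n => ‖g n‖ ^ 2) ∧
        x = (∑' n, ‖f n + ∑ k ∈ Finset.range (n+1), b k * g (n-k)‖ ^ 2) - ∑' n, ‖g n‖ ^ 2}
      ((∑' m, ‖f m‖ ^ 2) + ∑' m, ‖c m‖ ^ 2) := by
  obtain ⟨P, hP, hPs⟩ := op_Lub a fun g => by
    obtain ⟨p, q, hp, -, hn⟩ := hiso g
    exact ⟨p, hp, by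
      rw [one_mul]
      exact le_of_sq_le_sq (by nlinarith [sq_nonneg ‖q‖]) (norm_nonneg _)⟩
  obtain ⟨Q, hQ, hQs⟩ := op_Lub b fun g => by
    obtain ⟨p, q, -, hq, hn⟩ := hiso g
    exact ⟨q, hq, by
      rw [one_mul]
      exact le_of_sq_le_sq (by nlinarith [sq_nonneg ‖p‖]) (norm_nonneg _)⟩
  have h1 : ∀ g : H, ‖P g‖ ^ 2 + ‖Q g‖ ^ 2 = ‖g‖ ^ 2 := fun g => by
    obtain ⟨p, q, hp, hq, hn⟩ := hiso g
    rw [show P g = p from lp.ext (funext fun n => by rw [hP, hp]),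
      show Q g = q from lp.ext (funext fun n => by rw [hQ, hq]), hn]
  have h2 : ∀ g : H, ⟪f, Q g⟫_ℂ = ⟪c, P g⟫_ℂ := fun g => by
    have h3 := lp.hasSum_single (E := fun _ : ℕ => ℂ) (p := 2) (by norm_num) g
    have h4 : ∀ j, ((innerSL ℂ f).comp Q) (lp.single 2 j (g j)) =
        ((innerSL ℂ c).comp P) (lp.single 2 j (g j)) := fun j => by
      have e : (lp.single 2 j (g j) : H) = g j • lp.single 2 j 1 := by
        rw [← lp.single_smul, smul_eq_mul, mul_one]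
      rw [e, map_smul, map_smul]
      simp only [ContinuousLinearMap.comp_apply, innerSL_apply_apply, hPs, hQs]
      rw [← inner_conj_symm, hid, inner_conj_symm]
    have h5 := ((innerSL ℂ f).comp Q).hasSum h3
    simp only [h4] at h5
    exact h5.unique (((innerSL ℂ c).comp P).hasSum h3)
  have h3 : ∀ g : H, (∑' n, ‖f n + ∑ k ∈ Finset.range (n+1), b k * g (n-k)‖ ^ 2) -
      ∑' n, ‖g n‖ ^ 2 = ‖f‖ ^ 2 + ‖c‖ ^ 2 - ‖c - P g‖ ^ 2 := fun g => by
    have h5 : ∀ n, f n + ∑ k ∈ Finset.range (n+1), b k * g (n-k) = (f + Q g : H) n := fun n => by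
      rw [lp.coeFn_add, Pi.add_apply, hQ]
      rfl
    simp only [h5]
    rw [← norm_sq_eq, ← norm_sq_eq, ← h1 g, @norm_add_sq ℂ, @norm_sub_sq ℂ, h2]
    ring
  rw [← norm_sq_eq, ← norm_sq_eq]
  constructor
  · rintro x ⟨g, hg, rfl⟩
    exact (h3 (mk g hg)).trans_le (sub_le_self _ (sq_nonneg _))
  · intro M hM
    have h4 : (LinearMap.range (P : H →ₗ[ℂ] H)).topologicalClosure = ⊤ := by
      rw [Submodule.topologicalClosure_eq_top_iff, Submodule.eq_bot_iff]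
      intro g hg
      exact hout g fun j => Submodule.inner_left_of_mem_orthogonal
        (LinearMap.mem_range.2 ⟨_, hPs j⟩) hg
    refine le_of_forall_pos_le_add fun ε hε => ?_
    have h5 : c ∈ closure (LinearMap.range (P : H →ₗ[ℂ] H) : Set H) := by
      rw [← Submodule.topologicalClosure_coe, h4]
      trivial
    obtain ⟨_, ⟨g, rfl⟩, hg⟩ := Metric.mem_closure_iff.1 h5 _ (Real.sqrt_pos.2 hε)
    have h6 := hM ⟨g, summable_sq g, rfl⟩
    rw [h3] at h6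
    rw [dist_eq_norm, Real.lt_sqrt (norm_nonneg _)] at hg
    have h7 : ‖c - P g‖ ^ 2 < ε := hg
    linarith

theorem inner_seq (a g : H) (j : ℕ) :
    ⟪g, (S ^ j) a⟫_ℂ = ∑' n, a n * starRingEnd ℂ (g (n + j)) := by
  have h3 := lp.hasSum_inner (𝕜 := ℂ) g ((S ^ j) a)
  have h4 := (hasSum_nat_add_iff' j).2 h3
  have h5 : ∑ i ∈ range j, ⟪g i, (S ^ j) a i⟫_ℂ = 0 := by
    refine Finset.sum_eq_zero fun i hi => ?_
    rw [S_pow_apply, if_neg (by have := mem_range.1 hi; omega), inner_zero_right]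
  rw [h5, sub_zero] at h4
  rw [← h4.tsum_eq]
  refine tsum_congr fun n => ?_
  rw [S_pow_apply, if_pos (by omega)]
  simp

theorem positive (a b φ : ℕ → ℂ)
    (h1 : ∀ g : ℕ → ℂ, Summable (fun n => ‖g n‖ ^ 2) →
      Summable (fun n => ‖∑ k ∈ Finset.range (n+1), a k * g (n-k)‖ ^ 2) ∧
      Summable (fun n => ‖∑ k ∈ Finset.range (n+1), b k * g (n-k)‖ ^ 2) ∧
      (∑' n, ‖∑ k ∈ Finset.range (n+1), a k * g (n-k)‖ ^ 2) +
        (∑' n, ‖∑ k ∈ Finset.range (n+1), b k * g (n-k)‖ ^ 2) = ∑' n, ‖g n‖ ^ 2)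
    (h2 : ∀ g : ℕ → ℂ, Summable (fun n => ‖g n‖ ^ 2) →
      (∀ j : ℕ, ∑' n, a n * starRingEnd ℂ (g (n + j)) = 0) → g = 0)
    (hab : ∀ n, ∑ k ∈ Finset.range (n+1), a k * φ (n-k) = b n)
    (f c : ℕ → ℂ) (γ C : ℝ) (hγ : 0 < γ)
    (hf : ∀ k : ℕ, ‖f k‖ ≤ C * Real.exp (-(γ * Real.sqrt k)))
    (hf2 : Summable (fun n => ‖f n‖ ^ 2))
    (hc : ∀ m, Tendsto (fun N => ∑ n ∈ Finset.range N, starRingEnd ℂ (φ n) * f (m + n))
      atTop (𝓝 (c m))) (hc2 : Summable (fun m => ‖c m‖ ^ 2)) :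
    IsLUB {x : ℝ | ∃ g : ℕ → ℂ, Summable (fun n => ‖g n‖ ^ 2) ∧
        x = (∑' n, ‖f n + ∑ k ∈ Finset.range (n+1), b k * g (n-k)‖ ^ 2) - ∑' n, ‖g n‖ ^ 2}
      ((∑' m, ‖f m‖ ^ 2) + ∑' m, ‖c m‖ ^ 2) := by
  have he : ∀ (x : ℕ → ℂ) n, ∑ k ∈ Finset.range (n+1), x k * e0 (n-k) = x n := by
    intro x n
    rw [Finset.sum_eq_single n]
    · simp [e0_apply]
    · intro k hk hkn
      have := mem_range.1 hk
      rw [e0_apply, if_neg (by omega), mul_zero]
    · intro h; exact absurd (mem_range.2 (Nat.lt_succ_self n)) h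
  obtain ⟨ha, hb, -⟩ := h1 e0 (summable_sq e0)
  simp only [he] at ha hb
  have hiso : ∀ g : H, ∃ p q : H, (∀ n, p n = conv (mk a ha) g n) ∧
      (∀ n, q n = conv (mk b hb) g n) ∧ ‖p‖ ^ 2 + ‖q‖ ^ 2 = ‖g‖ ^ 2 := by
    intro g
    obtain ⟨e1, e2, e3⟩ := h1 g (summable_sq g)
    refine ⟨mk _ e1, mk _ e2, fun _ => rfl, fun _ => rfl, ?_⟩
    rw [norm_sq_eq, norm_sq_eq, norm_sq_eq]
    exact e3
  have hout : ∀ g : H, (∀ j, ⟪g, (S ^ j) (mk a ha)⟫_ℂ = 0) → g = 0 := by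
    intro g hg
    refine lp.ext (h2 g (summable_sq g) fun j => ?_)
    rw [← hg j, inner_seq]
    rfl
  obtain ⟨e1, e2, e3⟩ := cyc_analytic (mk a ha) hout
  have hlow := low_bound _ e1 e2 e3
  have hφ := coeff_growth (mk a ha) (mk b hb) φ hab e2 hlow
  exact isLUB_of_identity (mk a ha) (mk b hb) (mk f hf2) (mk c hc2) hiso hout
    (key_identity (mk a ha) (mk b hb) (mk f hf2) (mk c hc2) φ hab hφ γ C hγ hf hc)

end Pool.Agent.MP_05b6ce_an.Sh
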