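import Pool.Agent.MP_05b6ce_an.Sh.Ana

set_option autoImplicit false

namespace Pool.Agent.MP_05b6ce_an.Sh

open scoped InnerProductSpace
open Finset Filter Topology MeasureTheory

noncomputable section

/-- the block operator -/
def Qop (L N : ℕ) (q : ℕ → ℝ) : H →L[ℂ] H := ∑ k ∈ range N, (q k : ℂ) • S ^ (L * (k + 1))

/-- the block polynomial -/
def Qz (L N : ℕ) (q : ℕ → ℝ) (z : ℂ) : ℂ := ∑ k ∈ range N, (q k : ℂ) * z ^ (L * (k + 1))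

theorem bi_Qop (L N : ℕ) (q : ℕ → ℝ) : Bi (Qop L N q) := fun X hX =>
  Commute.sum_right _ _ _ fun _ _ => ((bi_S.pow _).smul _) X hX

theorem Qop_apply (L N : ℕ) (q : ℕ → ℝ) (x : H) :
    Qop L N q x = ∑ k ∈ range N, (q k : ℂ) • (S ^ (L * (k + 1))) x := by
  rw [Qop, _root_.sum_apply]
  rfl

theorem Qop_e0 (L N : ℕ) (q : ℕ → ℝ) (t : ℕ) :
    Qop L N q e0 t = ∑ k ∈ range N, if t = L * (k + 1) then (q k : ℂ) else 0 := by
  rw [Qop_apply, lp.coeFn_sum, Finset.sum_apply]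
  refine Finset.sum_congr rfl fun k _ => ?_
  rw [lp.coeFn_smul, Pi.smul_apply, S_pow_e0]
  split_ifs <;> simp

theorem Qop_cases (L N : ℕ) (hL : 0 < L) (q : ℕ → ℝ) (t : ℕ) :
    Qop L N q e0 t = 0 ∨ ∃ k < N, t = L * (k + 1) ∧ Qop L N q e0 t = q k := by
  by_cases h : ∃ k < N, t = L * (k + 1)
  · obtain ⟨k, hk, rfl⟩ := h
    refine Or.inr ⟨k, hk, rfl, ?_⟩
    rw [Qop_e0, Finset.sum_eq_single k, if_pos rfl]
    · intro l _ hl
      rw [if_neg]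
      intro h
      have := Nat.eq_of_mul_eq_mul_left hL h
      omega
    · intro h; exact absurd (mem_range.2 hk) h
  · left
    rw [Qop_e0]
    refine Finset.sum_eq_zero fun k hk => if_neg fun h' => h ⟨k, mem_range.1 hk, h'⟩

theorem inner_Se0 (a : ℕ) (y : H) : ⟪(S ^ a) e0, y⟫_ℂ = y a := by
  have : (S ^ a) e0 = lp.single 2 a 1 := by
    apply lp.ext
    funext n
    rw [S_pow_e0, lp.single_apply]
    by_cases h : n = a
    · subst h; simp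
    · rw [Pi.single_eq_of_ne h, if_neg h]
  rw [this, lp.inner_single_left]
  simp

theorem S_pow_pow (a b : ℕ) (x : H) : (S ^ a) ((S ^ b) x) = (S ^ (a + b)) x := by
  rw [pow_add]; rfl

theorem inner_shift (x y : H) (m D : ℕ) (hx : ∀ t, D ≤ t → x t = 0) :
    ⟪(S ^ m) x, y⟫_ℂ = ∑ t ∈ range D, starRingEnd ℂ (x t) * y (m + t) := by
  have h1 : x = ∑ t ∈ range D, x t • (S ^ t) e0 := by
    apply lp.ext
    funext n
    rw [lp.coeFn_sum, Finset.sum_apply]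
    simp only [lp.coeFn_smul, Pi.smul_apply, S_pow_e0, smul_eq_mul, mul_ite, mul_one, mul_zero]
    rw [Finset.sum_ite_eq]
    split_ifs with h
    · rfl
    · exact hx n (by simpa using h)
  conv_lhs => rw [h1, map_sum, sum_inner]
  refine Finset.sum_congr rfl fun t _ => ?_
  rw [map_smul, inner_smul_left, S_pow_pow, inner_Se0]

theorem inner_Q (L N : ℕ) (q : ℕ → ℝ) (m : ℕ) (y : H) :
    ⟪(S ^ m) (Qop L N q e0), y⟫_ℂ = ∑ k ∈ range N, (q k : ℂ) * y (m + L * (k + 1)) := by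
  rw [Qop_apply, map_sum, sum_inner]
  refine Finset.sum_congr rfl fun k _ => ?_
  rw [map_smul, inner_smul_left, S_pow_pow, inner_Se0, Complex.conj_ofReal]

theorem shift_Q_zero (L N : ℕ) (hL : 0 < L) (q : ℕ → ℝ) (m m' k : ℕ) (hm : m < L) (hm' : m' < L)
    (h : m ≠ m') : (S ^ m') (Qop L N q e0) (m + L * k) = 0 := by
  rw [S_pow_apply]
  split_ifs with h1
  · rcases Qop_cases L N hL q (m + L * k - m') with h2 | ⟨l, -, h2, -⟩
    · exact h2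
    · exfalso
      have h6 : m + L * k = m' + L * (l + 1) := by omega
      have h7 := congrArg (· % L) h6
      simp only [Nat.add_mul_mod_self_left] at h7
      rw [Nat.mod_eq_of_lt hm, Nat.mod_eq_of_lt hm'] at h7
      exact h h7
  · rfl

theorem inner_QQ_ne (L N : ℕ) (hL : 0 < L) (q : ℕ → ℝ) (m m' : ℕ) (hm : m < L) (hm' : m' < L)
    (h : m ≠ m') : ⟪(S ^ m) (Qop L N q e0), (S ^ m') (Qop L N q e0)⟫_ℂ = 0 := by
  rw [inner_Q]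
  exact Finset.sum_eq_zero fun k _ => by rw [shift_Q_zero L N hL q m m' _ hm hm' h, mul_zero]

theorem inner_QQ (L N : ℕ) (hL : 0 < L) (q : ℕ → ℝ) (m : ℕ) :
    ⟪(S ^ m) (Qop L N q e0), (S ^ m) (Qop L N q e0)⟫_ℂ = ((∑ k ∈ range N, q k ^ 2 : ℝ) : ℂ) := by
  rw [inner_Q, Complex.ofReal_sum]
  refine Finset.sum_congr rfl fun k hk => ?_
  rw [S_pow_apply, if_pos (by omega), Nat.add_sub_cancel_left, Qop_e0,
    Finset.sum_eq_single k, if_pos rfl, sq, Complex.ofReal_mul]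
  · intro l _ hl
    rw [if_neg]
    intro h
    have := Nat.eq_of_mul_eq_mul_left hL h
    omega
  · intro h; exact absurd hk h

theorem norm_Q_sq (L N : ℕ) (hL : 0 < L) (q : ℕ → ℝ) :
    ‖Qop L N q e0‖ ^ 2 = ∑ k ∈ range N, q k ^ 2 := by
  have h := inner_QQ L N hL q 0
  rw [inner_self_eq_norm_sq_to_K, norm_S_pow] at h
  apply Complex.ofReal_injective
  rw [← h]
  push_cast
  rfl

theorem norm_Qop_le (L N : ℕ) (q : ℕ → ℝ) (h0 : ∀ k, 0 ≤ q k) (h1 : ∀ k, q k ≤ 1) (x : H) :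
    ‖Qop L N q x‖ ≤ N * ‖x‖ := by
  rw [Qop_apply]
  refine (norm_sum_le _ _).trans ?_
  refine (Finset.sum_le_card_nsmul _ _ ‖x‖ fun k _ => ?_).trans (by simp)
  rw [norm_smul, norm_S_pow, Complex.norm_real, Real.norm_eq_abs, abs_of_nonneg (h0 k)]
  exact mul_le_of_le_one_left (norm_nonneg _) (h1 k)

theorem norm_Qz_le (L N : ℕ) (q : ℕ → ℝ) (h0 : ∀ k, 0 ≤ q k) (h1 : ∀ k, q k ≤ 1) (z : ℂ)
    (hz : ‖z‖ ≤ 1) : ‖Qz L N q z‖ ≤ N := by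
  refine (norm_sum_le _ _).trans ?_
  refine (Finset.sum_le_card_nsmul _ _ 1 fun k _ => ?_).trans (by simp)
  rw [norm_mul, norm_pow, Complex.norm_real, Real.norm_eq_abs, abs_of_nonneg (h0 k)]
  exact mul_le_one₀ (h1 k) (by positivity) (pow_le_one₀ (norm_nonneg _) hz)

theorem norm_Qz_geom (L N : ℕ) (hL : 0 < L) (q : ℕ → ℝ) (h0 : ∀ k, 0 ≤ q k) (h1 : Antitone q)
    (z : ℂ) (hz : ‖z‖ < 1) : ‖Qz L N q z‖ ≤ q 0 * (1 - ‖z‖)⁻¹ := by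
  refine (norm_sum_le _ _).trans ?_
  rw [← tsum_geometric_of_lt_one (norm_nonneg z) hz]
  refine le_trans ?_ (mul_le_mul_of_nonneg_left
    ((summable_geometric_of_lt_one (norm_nonneg z) hz).sum_le_tsum (range N)
      fun k _ => by positivity) (h0 0))
  rw [Finset.mul_sum]
  refine Finset.sum_le_sum fun k _ => ?_
  rw [norm_mul, norm_pow, Complex.norm_real, Real.norm_eq_abs, abs_of_nonneg (h0 k)]
  refine mul_le_mul (h1 (Nat.zero_le k)) ?_ (by positivity) (h0 0)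
  exact pow_le_pow_of_le_one (norm_nonneg z) hz.le (by nlinarith)

theorem norm_Q_A (L N : ℕ) (q : ℕ → ℝ) (h0 : ∀ k, 0 ≤ q k) (h1 : Antitone q) (C : H →L[ℂ] H) :
    ‖Qop L N q (((1 - S ^ L) * C) e0)‖ ≤ 2 * q 0 * ‖C e0‖ := by
  have h := abel_bound q h1 h0 (fun k => (S ^ (L * (k + 1))) (C e0)) ‖C e0‖
    (fun k => (norm_S_pow _ _).le) N
  refine le_trans (le_of_eq ?_) h
  rw [Qop_apply]
  congr 1
  refine Finset.sum_congr rfl fun k _ => ?_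
  congr 1
  have : ((1 - S ^ L) * C) e0 = C e0 - (S ^ L) (C e0) := rfl
  rw [this, map_sub, S_pow_pow]
  rfl

theorem sum_Q_z (L N : ℕ) (q : ℕ → ℝ) (z : ℂ) (n : ℕ) (hn : L * N < n) :
    ∑ t ∈ range n, Qop L N q e0 t * z ^ t = Qz L N q z := by
  simp only [Qop_e0, Finset.sum_mul]
  rw [Finset.sum_comm]
  refine Finset.sum_congr rfl fun k hk => ?_
  simp only [ite_mul, zero_mul]
  rw [Finset.sum_ite_eq', if_pos]
  have : L * (k + 1) ≤ L * N := Nat.mul_le_mul_left _ (mem_range.1 hk)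
  exact mem_range.2 (by omega)

/-- what one step of the construction provides -/
def Good (w : ℕ → ℝ) (Φ : ℝ → ℝ) (j : ℕ) (T : H →L[ℂ] H) (F : H) (D : ℕ)
    (N : ℕ) (q : ℕ → ℝ) (A : H →L[ℂ] H) (s s' : ℂ) (h : ℂ → ℝ) : Prop :=
  (Antitone q ∧ (∀ k, 0 ≤ q k) ∧ (∀ k, q k ≤ w ((D + j + 2) * (k + 1))) ∧
    q 0 ≤ ((1 / 2) ^ j) ^ 2 / 4) ∧
  (Bi A ∧ (∀ x, ‖A x‖ ≤ ‖x‖) ∧ ‖A e0 - e0‖ ≤ (1 / 2) ^ j / (D + 1) ∧
    ‖Qop (D + j + 2) N q (A e0)‖ ≤ (1 / 2) ^ j) ∧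
  (⟪(S ^ j) (T e0), F⟫_ℂ + s * ((∑ k ∈ range N, q k ^ 2 : ℝ) : ℂ) = 0 ∧
    (j : ℝ) + 1 ≤ ‖⟪(S ^ (j + 1)) (T e0), F⟫_ℂ + s' * ((∑ k ∈ range N, q k ^ 2 : ℝ) : ℂ)‖ ∧
    ‖s • (S ^ j) (Qop (D + j + 2) N q e0) + s' • (S ^ (j + 1)) (Qop (D + j + 2) N q e0)‖
      ≤ 2 * (1 / 2) ^ j) ∧
  ((∀ x : H, -((1 / 2) ^ j / 4 * ‖x‖ ^ 2) ≤ (⟪x, Qop (D + j + 2) N q x⟫_ℂ).re) ∧
    ∀ z : ℂ, ‖z‖ ≤ 1 → -((1 / 2) ^ j / 4) ≤ (Qz (D + j + 2) N q z).re) ∧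
  (Continuous h ∧ (∀ z, 0 ≤ h z) ∧
    (∀ r : ℝ, 0 ≤ r → r ≤ 1 →
      ∫ θ in (0 : ℝ)..(2 * Real.pi), h (r * Complex.exp (θ * Complex.I)) ≤ (1 / 2) ^ j) ∧
    ∀ z : ℂ, ‖z‖ ≤ 1 → (1 / 2) ^ j < ‖Qz (D + j + 2) N q z‖ →
      ∀ y : ℝ, 0 ≤ y → y ≤ (D : ℝ) + 2 + ‖Qz (D + j + 2) N q z‖ → Φ y ≤ h z)

theorem exists_step (w : ℕ → ℝ) (hw0 : ∀ k, 0 ≤ w k) (hw1 : Antitone w)
    (hw2 : ¬ Summable fun k => w k ^ 2)
    (Φ : ℝ → ℝ) (hΦ : ∀ ε > 0, ∃ C, ∀ t ≥ 0, Φ t ≤ ε * t ^ 2 + C)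
    (j : ℕ) (T : H →L[ℂ] H) (F : H) (D : ℕ) :
    ∃ N q A s s' h, Good w Φ j T F D N q A s s' h := by
  set L := D + j + 2 with hLdef
  have hL : 0 < L := by omega
  set δ : ℝ := (1 / 2) ^ j with hδdef
  have hδ : 0 < δ := by positivity
  have hδ1 : δ ≤ 1 := pow_le_one₀ (by norm_num) (by norm_num)
  obtain ⟨A, C, hA, -, hAC, hAc, hAe⟩ := exists_A L hL (δ / (D + 1)) (by positivity)
  set τ := ⟪(S ^ j) (T e0), F⟫_ℂ with hτ
  set τ' := ⟪(S ^ (j + 1)) (T e0), F⟫_ℂ with hτ'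
  set R : ℝ := (‖τ‖ + ‖τ'‖ + j + 1) / δ with hRdef
  have hR : 0 < R := by positivity
  have hRδ : δ * R = ‖τ‖ + ‖τ'‖ + j + 1 := by rw [hRdef]; field_simp
  obtain ⟨η0, hη0, hO⟩ := orlicz_block Φ hΦ L hL (R ^ 2) (D + 2) δ (by positivity)
    (by positivity) hδ
  set η : ℝ := min η0 (min (δ / (2 * ‖C e0‖ + 1)) (δ ^ 2 / 4)) with hηdef
  have hη : 0 < η := lt_min hη0 (lt_min (by positivity) (by positivity))
  have hη1 : η ≤ η0 := min_le_left _ _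
  have hη2 : η ≤ δ / (2 * ‖C e0‖ + 1) := (min_le_right _ _).trans (min_le_left _ _)
  have hη3 : η ≤ δ ^ 2 / 4 := (min_le_right _ _).trans (min_le_right _ _)
  have hη4 : η ≤ δ / 4 := by nlinarith
  obtain ⟨N, q, hq1, hq0, hqη, hqw, hqM, hqF⟩ := exists_block w hw0 hw1 hw2 L hL η hη (R ^ 2)
    (by positivity)
  obtain ⟨h, hh⟩ := hO N q hq1 hq0 (hqη.trans hη1) hqM.le
  have hB : ‖Qop L N q e0‖ = R := by
    refine (pow_left_inj₀ (norm_nonneg _) hR.le two_ne_zero).1 ?_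
    rw [norm_Q_sq L N hL, hqM]
  have hRc : (R : ℂ) ≠ 0 := by exact_mod_cast hR.ne'
  refine ⟨N, q, A, -τ / (R : ℂ) ^ 2, ((δ / R : ℝ) : ℂ), h, ⟨hq1, hq0, hqw, hqη.trans hη3⟩,
    ⟨hA, hAc, hAe, ?_⟩, ⟨?_, ?_, ?_⟩, ⟨fun x => ?_, fun z hz => ?_⟩, hh⟩
  · rw [hAC]
    refine (norm_Q_A L N q hq0 hq1 C).trans ?_
    have h1 := hqη.trans hη2
    rw [le_div_iff₀ (by positivity)] at h1
    nlinarith [hq0 0]
  · rw [hqM, Complex.ofReal_pow, div_mul_cancel₀ _ (pow_ne_zero 2 hRc)]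
    exact add_neg_cancel τ
  · rw [hqM, ← Complex.ofReal_mul]
    have h1 : δ / R * R ^ 2 = ‖τ‖ + ‖τ'‖ + j + 1 := by rw [← hRδ]; field_simp
    rw [h1]
    have h2 := norm_sub_le (τ' + ((‖τ‖ + ‖τ'‖ + j + 1 : ℝ) : ℂ)) τ'
    rw [add_sub_cancel_left, Complex.norm_real, Real.norm_eq_abs, abs_of_pos (by positivity)] at h2
    linarith [norm_nonneg τ]
  · refine (norm_add_le _ _).trans ?_
    rw [norm_smul, norm_smul, norm_S_pow, norm_S_pow, hB, norm_div, norm_neg, norm_pow,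
      Complex.norm_real, Complex.norm_real, Real.norm_eq_abs, Real.norm_eq_abs, abs_of_pos hR,
      abs_of_pos (by positivity)]
    have h1 : ‖τ‖ / R ^ 2 * R ≤ δ := by
      rw [show ‖τ‖ / R ^ 2 * R = ‖τ‖ / R by field_simp, div_le_iff₀ hR, hRδ]
      have : (0 : ℝ) ≤ j := Nat.cast_nonneg j
      linarith [norm_nonneg τ']
    have h2 : δ / R * R = δ := by field_simp
    linarith
  · have h1 := hqF (fun k => (⟪x, ((S ^ L) ^ (k + 1)) x⟫_ℂ).re) (‖x‖ ^ 2) (by positivity)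
      (fejer_op (S ^ L) (fun y => (norm_S_pow L y).le) x)
    have h2 : (⟪x, Qop L N q x⟫_ℂ).re =
        ∑ k ∈ range N, q k * (⟪x, ((S ^ L) ^ (k + 1)) x⟫_ℂ).re := by
      rw [Qop_apply, inner_sum, Complex.re_sum]
      refine Finset.sum_congr rfl fun k _ => ?_
      rw [inner_smul_right, Complex.re_ofReal_mul, pow_mul]
    rw [h2]
    nlinarith [mul_le_mul_of_nonneg_right hη4 (sq_nonneg ‖x‖)]
  · have hu : ‖z ^ L‖ ≤ 1 := by rw [norm_pow]; exact pow_le_one₀ (norm_nonneg _) hz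
    have h1 := hqF (fun k => ((z ^ L) ^ (k + 1)).re) 1 zero_le_one (fejer_sc (z ^ L) hu)
    have h2 : (Qz L N q z).re = ∑ k ∈ range N, q k * ((z ^ L) ^ (k + 1)).re := by
      rw [Qz, Complex.re_sum]
      refine Finset.sum_congr rfl fun k _ => ?_
      rw [Complex.re_ofReal_mul, pow_mul]
    rw [h2]
    linarith

end

end Pool.Agent.MP_05b6ce_an.Sh
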